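import Pool.Agent.Helper84.NI.Cen

/-!
# Project FR (MP_0f6f3f_an): field operators

`Q : ι → V →L V` an orthogonal family of projections; `fld A E Q ξ = ∑ l, Q l (ext A E l ξ)`.
-/

set_option autoImplicit false

open Filter Topology
open scoped ComplexConjugate

namespace Pool.Agent.Helper66.FR

open Pool.Agent.Helper84.NI Pool.Agent.Helper84.GVN

section Orth

variable {V : Type} [NormedAddCommGroup V] [InnerProductSpace ℂ V] {ι : Type} {f : ι → V}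

theorem orth_norm_sum (h : ∀ i j, i ≠ j → inner ℂ (f i) (f j) = 0) (s : Finset ι) :
    ‖∑ i ∈ s, f i‖ ^ 2 = ∑ i ∈ s, ‖f i‖ ^ 2 := by
  classical
  rw [@norm_sq_eq_re_inner ℂ, sum_inner, map_sum]
  refine Finset.sum_congr rfl fun i hi => ?_
  rw [inner_sum, Finset.sum_eq_single i]
  · exact inner_self_eq_norm_sq (𝕜 := ℂ) _
  · intro j _ hji
    exact h i j hji.symm
  · intro hi'
    exact absurd hi hi'

theorem orth_summable [CompleteSpace V] (h : ∀ i j, i ≠ j → inner ℂ (f i) (f j) = 0) {C : ℝ}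
    (hC : ∀ s : Finset ι, ∑ i ∈ s, ‖f i‖ ^ 2 ≤ C) : Summable f := by
  have hs : Summable fun i => ‖f i‖ ^ 2 := summable_of_sum_le (fun i => sq_nonneg _) hC
  rw [summable_iff_vanishing_norm] at hs ⊢
  intro ε hε
  obtain ⟨s, hs⟩ := hs (ε ^ 2) (pow_pos hε 2)
  refine ⟨s, fun t ht => ?_⟩
  have h1 := hs t ht
  rw [Real.norm_eq_abs, abs_of_nonneg (Finset.sum_nonneg fun i _ => sq_nonneg _), ← orth_norm_sum h t] at h1
  exact lt_of_pow_lt_pow_left₀ 2 hε.le h1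

theorem orth_hasSum_sq (h : ∀ i j, i ≠ j → inner ℂ (f i) (f j) = 0) {x : V} (hx : HasSum f x) :
    HasSum (fun i => ‖f i‖ ^ 2) (‖x‖ ^ 2) := by
  have h1 : Tendsto (fun s : Finset ι => ‖∑ i ∈ s, f i‖ ^ 2) atTop (𝓝 (‖x‖ ^ 2)) := (hx.norm).pow 2
  simp_rw [orth_norm_sum h] at h1
  exact h1

end Orth

section PF

variable {V V' : Type} [NormedAddCommGroup V] [InnerProductSpace ℂ V]
  [NormedAddCommGroup V'] [InnerProductSpace ℂ V'] {ι κ : Type}

/-- An orthogonal family of projections. -/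
structure IsPF (Q : ι → (V →L[ℂ] V)) : Prop where
  symm : ∀ l x y, inner ℂ (Q l x) y = inner ℂ x (Q l y)
  idem : ∀ l x, Q l (Q l x) = Q l x
  orth : ∀ l m, l ≠ m → ∀ x, Q l (Q m x) = 0

variable {Q : ι → (V →L[ℂ] V)} {Q' : κ → (V →L[ℂ] V)}

theorem IsPF.inner_orth (h : IsPF Q) {l m : ι} (hlm : l ≠ m) (x y : V) : inner ℂ (Q l x) (Q m y) = 0 := by
  rw [h.symm, h.orth l m hlm, inner_zero_right]

theorem IsPF.norm_sq (h : IsPF Q) (l : ι) (x : V) : ((‖Q l x‖ ^ 2 : ℝ) : ℂ) = inner ℂ x (Q l x) := by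
  have h1 : inner ℂ (Q l x) (Q l x) = ((‖Q l x‖ : ℂ)) ^ 2 := inner_self_eq_norm_sq_to_K (𝕜 := ℂ) (Q l x)
  rw [h.symm, h.idem] at h1
  rw [h1]
  push_cast
  rfl

/-- Bessel inequality. -/
theorem IsPF.sum_sq_le (h : IsPF Q) (s : Finset ι) (x : V) : ∑ l ∈ s, ‖Q l x‖ ^ 2 ≤ ‖x‖ ^ 2 := by
  have h1 : ‖∑ l ∈ s, Q l x‖ ^ 2 = ∑ l ∈ s, ‖Q l x‖ ^ 2 :=
    orth_norm_sum (fun i j hij => h.inner_orth hij x x) s
  have h2 : (((∑ l ∈ s, ‖Q l x‖ ^ 2 : ℝ)) : ℂ) = inner ℂ x (∑ l ∈ s, Q l x) := by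
    rw [Complex.ofReal_sum, inner_sum]
    exact Finset.sum_congr rfl fun l _ => h.norm_sq l x
  have h3 : ∑ l ∈ s, ‖Q l x‖ ^ 2 ≤ ‖x‖ * ‖∑ l ∈ s, Q l x‖ := by
    have h4 := norm_inner_le_norm (𝕜 := ℂ) x (∑ l ∈ s, Q l x)
    rw [← h2, Complex.norm_real, Real.norm_eq_abs,
      abs_of_nonneg (Finset.sum_nonneg fun i _ => sq_nonneg _)] at h4
    exact h4
  rw [← h1] at h3 ⊢
  by_cases h5 : ‖∑ l ∈ s, Q l x‖ = 0
  · rw [h5, zero_pow two_ne_zero]
    exact sq_nonneg _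
  · have h6 : 0 < ‖∑ l ∈ s, Q l x‖ := lt_of_le_of_ne (norm_nonneg _) (Ne.symm h5)
    have h7 : ‖∑ l ∈ s, Q l x‖ ≤ ‖x‖ := by
      rw [sq] at h3
      exact le_of_mul_le_mul_right h3 h6
    exact pow_le_pow_left₀ h6.le h7 2

theorem IsPF.norm_le (h : IsPF Q) (l : ι) (x : V) : ‖Q l x‖ ≤ ‖x‖ := by
  have h1 := h.sum_sq_le {l} x
  rw [Finset.sum_singleton] at h1
  exact le_of_sq_le_sq h1 (norm_nonneg _)

theorem IsPF.prod (h : IsPF Q) (h' : IsPF Q') (hc : ∀ l m x, Q l (Q' m x) = Q' m (Q l x)) :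
    IsPF (fun p : ι × κ => (Q p.1).comp (Q' p.2)) where
  symm p x y := by
    change inner ℂ (Q p.1 (Q' p.2 x)) y = inner ℂ x (Q p.1 (Q' p.2 y))
    rw [h.symm, h'.symm, hc]
  idem p x := by
    change Q p.1 (Q' p.2 (Q p.1 (Q' p.2 x))) = Q p.1 (Q' p.2 x)
    rw [← hc p.1 p.2 (Q' p.2 x), h.idem, h'.idem]
  orth p q hpq x := by
    change Q p.1 (Q' p.2 (Q q.1 (Q' q.2 x))) = 0
    by_cases h1 : p.1 = q.1
    · have h2 : p.2 ≠ q.2 := fun e => hpq (Prod.ext h1 e)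
      rw [hc q.1 q.2 x, h'.orth _ _ h2, map_zero]
    · rw [← hc, h.orth _ _ h1]

/-- Sums along an orthogonal family of projections. -/
theorem IsPF.summable [CompleteSpace V] (h : IsPF Q) {f : ι → V} {C : ℝ}
    (hC : ∀ s : Finset ι, ∑ l ∈ s, ‖Q l (f l)‖ ^ 2 ≤ C) : Summable fun l => Q l (f l) :=
  orth_summable (fun _ _ hij => h.inner_orth hij _ _) hC

theorem IsPF.hasSum_sq (h : IsPF Q) {f : ι → V} {x : V} (hx : HasSum (fun l => Q l (f l)) x) :
    HasSum (fun l => ‖Q l (f l)‖ ^ 2) (‖x‖ ^ 2) :=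
  orth_hasSum_sq (fun _ _ hij => h.inner_orth hij _ _) hx

end PF

section Fld

variable {G Λ : Type} [Group G] [Group Λ] {V V' : Type} [NormedAddCommGroup V] [InnerProductSpace ℂ V]
  [NormedAddCommGroup V'] [InnerProductSpace ℂ V'] [CompleteSpace V] [CompleteSpace V']
  {A : G →* (V ≃ₗᵢ[ℂ] V)} {A' : G →* (V' ≃ₗᵢ[ℂ] V')} {E : Emb Λ G}
  {Q Q' Q'' : Λ → (V →L[ℂ] V)}

/-- The projections commute with the representation. -/
def PFC (A : G →* (V ≃ₗᵢ[ℂ] V)) (Q : Λ → (V →L[ℂ] V)) : Prop := ∀ g l x, A g (Q l x) = Q l (A g x)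

theorem PFC.ext (h : PFC A Q) (E : Emb Λ G) (l m : Λ) (x : V) :
    Q l (ext A E m x) = ext A E m (Q l x) :=
  map_ext (fun g x => (h g l x).symm) E m x

theorem fld_summable (h : IsPF Q) (hA : PFC A Q) (ξ : V) : Summable fun l => Q l (ext A E l ξ) := by
  refine h.summable (C := ‖ξ‖ ^ 2) fun s => ?_
  refine (Finset.sum_le_sum fun l _ => ?_).trans (h.sum_sq_le s ξ)
  rw [hA.ext]
  exact pow_le_pow_left₀ (norm_nonneg _) (norm_ext_le A E l _) 2

open Classical in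
/-- The field operator `ξ ↦ ∑ l, Q l (ext A E l ξ)`. -/
noncomputable def fld (A : G →* (V ≃ₗᵢ[ℂ] V)) (E : Emb Λ G) (Q : Λ → (V →L[ℂ] V)) : V →L[ℂ] V :=
  if h : IsPF Q ∧ PFC A Q then
    LinearMap.mkContinuous
      { toFun := fun ξ => ∑' l, Q l (ext A E l ξ)
        map_add' := fun ξ η => by
          rw [← (fld_summable h.1 h.2 ξ).tsum_add (fld_summable h.1 h.2 η)]
          exact tsum_congr fun l => by rw [map_add, map_add]
        map_smul' := fun c ξ => by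
          rw [RingHom.id_apply, ← tsum_const_smul'' c]
          exact tsum_congr fun l => by rw [map_smul, map_smul] } 1 (by
      intro ξ
      rw [one_mul]
      have h1 := h.1.hasSum_sq (fld_summable (E := E) h.1 h.2 ξ).hasSum
      have h2 : ‖∑' l, Q l (ext A E l ξ)‖ ^ 2 ≤ ‖ξ‖ ^ 2 := by
        refine hasSum_le_of_sum_le h1 fun s => ?_
        refine (Finset.sum_le_sum fun l _ => ?_).trans (h.1.sum_sq_le s ξ)
        rw [h.2.ext]
        exact pow_le_pow_left₀ (norm_nonneg _) (norm_ext_le A E l _) 2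
      exact le_of_sq_le_sq h2 (norm_nonneg _))
  else 0

theorem hasSum_fld (h : IsPF Q) (hA : PFC A Q) (ξ : V) :
    HasSum (fun l => Q l (ext A E l ξ)) (fld A E Q ξ) := by
  have h1 : IsPF Q ∧ PFC A Q := ⟨h, hA⟩
  unfold fld
  rw [dif_pos h1]
  exact (fld_summable h hA ξ).hasSum

theorem norm_fld_le (h : IsPF Q) (hA : PFC A Q) (ξ : V) : ‖fld A E Q ξ‖ ≤ ‖ξ‖ := by
  have h1 := h.hasSum_sq (hasSum_fld (E := E) h hA ξ)
  have h2 : ‖fld A E Q ξ‖ ^ 2 ≤ ‖ξ‖ ^ 2 := by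
    refine hasSum_le_of_sum_le h1 fun s => ?_
    refine (Finset.sum_le_sum fun l _ => ?_).trans (h.sum_sq_le s ξ)
    rw [hA.ext]
    exact pow_le_pow_left₀ (norm_nonneg _) (norm_ext_le A E l _) 2
  exact le_of_sq_le_sq h2 (norm_nonneg _)

/-- The field operator is isometric on the vectors of `VB A` on which the partition is complete. -/
theorem norm_fld (h : IsPF Q) (hA : PFC A Q) {ξ : V} (hξ : ξ ∈ VB A) (hs : HasSum (fun l => Q l ξ) ξ) :
    ‖fld A E Q ξ‖ = ‖ξ‖ := by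
  have h1 := h.hasSum_sq (hasSum_fld (E := E) h hA ξ)
  have h2 := h.hasSum_sq (f := fun _ => ξ) hs
  have h3 : ∀ l, ‖Q l (ext A E l ξ)‖ ^ 2 = ‖Q l ξ‖ ^ 2 := by
    intro l
    rw [hA.ext, norm_ext]
    exact map_VB (fun g x => (hA g l x).symm) hξ
  simp_rw [h3] at h1
  exact (sq_eq_sq₀ (norm_nonneg _) (norm_nonneg _)).1 (h1.unique h2)

theorem fld_proj (h : IsPF Q) (hA : PFC A Q) (l : Λ) (ξ : V) :
    Q l (fld A E Q ξ) = Q l (ext A E l ξ) := by
  have h1 := (hasSum_fld (E := E) h hA ξ).mapL (Q l)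
  have h2 : HasSum (fun m => Q l (Q m (ext A E m ξ))) (Q l (Q l (ext A E l ξ))) :=
    hasSum_single l fun m hm => h.orth l m hm.symm _
  rw [h1.unique h2, h.idem]

/-- Intertwiners commute with field operators. -/
theorem map_fld {P : Λ → (V' →L[ℂ] V')} {T : V →L[ℂ] V'} (h : IsPF Q) (hA : PFC A Q) (h' : IsPF P)
    (hA' : PFC A' P) (hT : ∀ g x, T (A g x) = A' g (T x)) (hQ : ∀ l x, T (Q l x) = P l (T x)) (ξ : V) :
    T (fld A E Q ξ) = fld A' E P (T ξ) := by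
  have h1 := (hasSum_fld (E := E) h hA ξ).mapL T
  have h2 := hasSum_fld (E := E) h' hA' (T ξ)
  have h3 : (fun l => T (Q l (ext A E l ξ))) = fun l => P l (ext A' E l (T ξ)) := by
    funext l
    rw [hQ, map_ext hT]
  rw [h3] at h1
  exact h1.unique h2

/-- Field operators preserve closed subspaces which are invariant under `A` and the projections. -/
theorem fld_mem {W : Submodule ℂ V} (hW : IsClosed (W : Set V)) (h : IsPF Q) (hA : PFC A Q)
    (h1 : ∀ l, ∀ x ∈ W, ext A E l x ∈ W) (h2 : ∀ l, ∀ x ∈ W, Q l x ∈ W) {ξ : V} (hξ : ξ ∈ W) :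
    fld A E Q ξ ∈ W := by
  refine hW.mem_of_tendsto (hasSum_fld (E := E) h hA ξ) (Eventually.of_forall fun s => ?_)
  exact W.sum_mem fun l _ => h2 l _ (h1 l _ hξ)

theorem fld_mem_VB (h : IsPF Q) (hA : PFC A Q) (ξ : V) : fld A E Q ξ ∈ VB A := by
  refine (isClosed_VB A).mem_of_tendsto (hasSum_fld (E := E) h hA ξ) (Eventually.of_forall fun s => ?_)
  refine (VB A).sum_mem fun l _ => ?_
  exact map_VB (fun g x => (hA g l x).symm) (ext_mem A E l ξ)

theorem inner_fld (h : IsPF Q) (hA : PFC A Q) (h' : IsPF Q') (hA' : PFC A Q')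
    (hQ : ∀ l, Q' l = Q l⁻¹) (ξ η : V) : inner ℂ (fld A E Q ξ) η = inner ℂ ξ (fld A E Q' η) := by
  have h1 : HasSum (fun l => inner ℂ η (Q l (ext A E l ξ))) (inner ℂ η (fld A E Q ξ)) :=
    (hasSum_fld (E := E) h hA ξ).mapL (innerSL ℂ η)
  have h2 : HasSum (fun l => inner ℂ ξ (Q' l (ext A E l η))) (inner ℂ ξ (fld A E Q' η)) :=
    (hasSum_fld (E := E) h' hA' η).mapL (innerSL ℂ ξ)
  have h3 := (Equiv.inv Λ).hasSum_iff.2 h2
  have h4 : ((fun l => inner ℂ ξ (Q' l (ext A E l η))) ∘ (Equiv.inv Λ)) =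
      fun l => conj (inner ℂ η (Q l (ext A E l ξ))) := by
    funext l
    change inner ℂ ξ (Q' l⁻¹ (ext A E l⁻¹ η)) = _
    rw [hQ, inv_inv, inner_conj_symm, ← h.symm, ← inner_ext, ← hA.ext]
  rw [h4] at h3
  have h5 : HasSum (fun l => conj (inner ℂ η (Q l (ext A E l ξ)))) (conj (inner ℂ η (fld A E Q ξ))) :=
    (Complex.conjCLE : ℂ →L[ℝ] ℂ).hasSum h1
  rw [← h5.unique h3, inner_conj_symm]

/-- Multiplicativity of field operators. -/
theorem fld_fld (h : IsPF Q) (hA : PFC A Q) (h' : IsPF Q') (hA' : PFC A Q') (h'' : IsPF Q'')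
    (hA'' : PFC A Q'') (hc : ∀ l m x, Q l (Q' m x) = Q' m (Q l x)) {ξ : V}
    (hs : ∀ k l, HasSum (fun l' => Q l' (Q' (l'⁻¹ * k) (ext A E l ξ))) (Q'' k (ext A E l ξ))) :
    fld A E Q (fld A E Q' ξ) = fld A E Q'' ξ := by
  have hP := h.prod h' hc
  have hf : ∀ p : Λ × Λ, Q p.1 (Q' p.2 (ext A E (p.1 * p.2) ξ)) = ext A E (p.1 * p.2) (Q p.1 (Q' p.2 ξ)) := by
    intro p
    rw [hA'.ext, hA.ext]
  have hsum : Summable fun p : Λ × Λ => Q p.1 (Q' p.2 (ext A E (p.1 * p.2) ξ)) := by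
    refine hP.summable (f := fun p : Λ × Λ => ext A E (p.1 * p.2) ξ) (C := ‖ξ‖ ^ 2) fun s => ?_
    refine (Finset.sum_le_sum fun p _ => ?_).trans (hP.sum_sq_le s ξ)
    change ‖Q p.1 (Q' p.2 (ext A E (p.1 * p.2) ξ))‖ ^ 2 ≤ _
    rw [hf]
    exact pow_le_pow_left₀ (norm_nonneg _) (norm_ext_le A E _ _) 2
  -- first iterated sum
  have h1 : HasSum (fun l => Q l (ext A E l (fld A E Q' ξ)))
      (∑' p : Λ × Λ, Q p.1 (Q' p.2 (ext A E (p.1 * p.2) ξ))) := by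
    refine hsum.hasSum.prod_fiberwise fun l => ?_
    have h2 := ((hasSum_fld (E := E) h' hA' ξ).mapL (ext A E l)).mapL (Q l)
    convert h2 using 2 with m
    rw [ext_mul, hA'.ext]
  -- second iterated sum
  have h3 : HasSum (fun k => Q'' k (ext A E k ξ))
      (∑' p : Λ × Λ, Q p.1 (Q' p.2 (ext A E (p.1 * p.2) ξ))) := by
    let e : Λ × Λ ≃ Λ × Λ :=
      { toFun := fun p => (p.2, p.2⁻¹ * p.1)
        invFun := fun q => (q.1 * q.2, q.1)
        left_inv := fun p => by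
          ext
          · exact mul_inv_cancel_left _ _
          · rfl
        right_inv := fun q => by
          ext
          · rfl
          · exact inv_mul_cancel_left _ _ }
    have h4 := e.hasSum_iff.2 hsum.hasSum
    refine h4.prod_fiberwise fun k => ?_
    have h5 := hs k k
    convert h5 using 2 with l
    change Q l (Q' (l⁻¹ * k) (ext A E (l * (l⁻¹ * k)) ξ)) = _
    rw [mul_inv_cancel_left]
  rw [(hasSum_fld (E := E) h hA (fld A E Q' ξ)).unique h1, (hasSum_fld (E := E) h'' hA'' ξ).unique h3]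

end Fld

end Pool.Agent.Helper66.FR
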