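import Pool.Agent.Helper84.FR.PV
import Pool.Agent.Helper66.FR.Fld

/-!
# Project FR (MP_0f6f3f_an): twisted products `tw P U c = ∑_l P {c = l} (U l)`
-/

set_option autoImplicit false
set_option linter.unusedSectionVars false

open Filter Topology MeasureTheory
open scoped ComplexConjugate

namespace Pool.Agent.Helper84.FR

open NI GVN Pool.Agent.Helper66.FR

section PVl

variable {X Λ I : Type} [MeasurableSpace X] [Group Λ]
variable {H K : Type} [NormedAddCommGroup H] [InnerProductSpace ℂ H]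
  [NormedAddCommGroup K] [InnerProductSpace ℂ K]

theorem PV.empty (P : PV X H) (ξ : H) : P.p ∅ ξ = 0 := by
  have h1 := P.sum Bool (fun _ => true) (fun i => measurable_const (measurableSet_singleton i)) ξ
  have h2 := hasSum_fintype fun i : Bool => P.p ((fun _ : X => true) ⁻¹' {i}) ξ
  have h3 := h1.unique h2
  rw [Fintype.sum_bool] at h3
  have e1 : ((fun _ : X => true) ⁻¹' {true} : Set X) = Set.univ := by
    ext x
    simp
  have e2 : ((fun _ : X => true) ⁻¹' {false} : Set X) = ∅ := by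
    ext x
    simp
  rw [e1, e2, P.univ] at h3
  exact (left_eq_add.1 h3)

theorem PV.disj (P : PV X H) {A B : Set X} (hA : MeasurableSet A) (hB : MeasurableSet B)
    (h : Disjoint A B) (ξ : H) : P.p A (P.p B ξ) = 0 := by
  rw [P.inter A B hA hB, Set.disjoint_iff_inter_eq_empty.1 h, P.empty]

theorem PV.idem (P : PV X H) {A : Set X} (hA : MeasurableSet A) (ξ : H) : P.p A (P.p A ξ) = P.p A ξ := by
  rw [P.inter A A hA hA, Set.inter_self]

theorem PV.isPF (P : PV X H) {c : X → I} (hc : ∀ i, MeasurableSet (c ⁻¹' {i})) :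
    IsPF (fun i => P.p (c ⁻¹' {i})) where
  symm l x y := P.symm _ (hc l) x y
  idem l x := P.idem (hc l) x
  orth l m hlm x := by
    refine P.disj (hc l) (hc m) ?_ x
    rw [Set.disjoint_left]
    intro y h1 h2
    exact hlm (h1.symm.trans h2)

theorem PV.norm_le (P : PV X H) {A : Set X} (hA : MeasurableSet A) (ξ : H) : ‖P.p A ξ‖ ≤ ‖ξ‖ := by
  have h : IsPF (fun _ : Unit => P.p A) := ⟨fun _ x y => P.symm A hA x y, fun _ x => P.idem hA x,
    fun l m hlm => absurd (Subsingleton.elim l m) hlm⟩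
  exact h.norm_le () ξ

theorem PV.add_compl (P : PV X H) {A : Set X} (hA : MeasurableSet A) (ξ : H) :
    P.p A ξ + P.p Aᶜ ξ = ξ := by
  classical
  have hm : ∀ i : Bool, MeasurableSet ((fun x => decide (x ∈ A)) ⁻¹' {i}) := by
    intro i
    cases i
    · have e : ((fun x => decide (x ∈ A)) ⁻¹' {false} : Set X) = Aᶜ := by
        ext x
        simp
      rw [e]
      exact hA.compl
    · have e : ((fun x => decide (x ∈ A)) ⁻¹' {true} : Set X) = A := by
        ext x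
        simp
      rw [e]
      exact hA
  have h1 := P.sum Bool (fun x => decide (x ∈ A)) hm ξ
  have h3 := h1.unique (hasSum_fintype _)
  rw [Fintype.sum_bool] at h3
  have e1 : ((fun x => decide (x ∈ A)) ⁻¹' {false} : Set X) = Aᶜ := by
    ext x
    simp
  have e2 : ((fun x => decide (x ∈ A)) ⁻¹' {true} : Set X) = A := by
    ext x
    simp
  rw [e1, e2] at h3
  exact h3.symm

end PVl

section Tw

variable {X Λ : Type} [MeasurableSpace X] [Group Λ]
variable {H K : Type} [NormedAddCommGroup H] [InnerProductSpace ℂ H]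
  [NormedAddCommGroup K] [InnerProductSpace ℂ K] [CompleteSpace H] [CompleteSpace K]
variable {P P' : PV X H} {U U' : CRep Λ H} {c d : X → Λ}

omit [CompleteSpace H] in
theorem Mea.inv (hc : Mea c) : Mea (fun x => (c x)⁻¹) := by
  intro l
  have h : ((fun x => (c x)⁻¹) ⁻¹' {l} : Set X) = c ⁻¹' {l⁻¹} := by
    ext x
    simp [inv_eq_iff_eq_inv]
  rw [h]
  exact hc _

omit [CompleteSpace H] in
theorem Mea.one : Mea (fun _ : X => (1 : Λ)) := by
  intro l
  by_cases h : (1 : Λ) = l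
  · have e : ((fun _ : X => (1 : Λ)) ⁻¹' {l} : Set X) = Set.univ := by
      ext x
      simp [h]
    rw [e]
    exact MeasurableSet.univ
  · have e : ((fun _ : X => (1 : Λ)) ⁻¹' {l} : Set X) = ∅ := by
      ext x
      simp [h]
    rw [e]
    exact MeasurableSet.empty

omit [CompleteSpace H] in
theorem Mea.mul [Countable Λ] (hc : Mea c) (hd : Mea d) : Mea (fun x => c x * d x) := by
  intro k
  have h : ((fun x => c x * d x) ⁻¹' {k} : Set X) = ⋃ l : Λ, (c ⁻¹' {l} ∩ d ⁻¹' {l⁻¹ * k}) := by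
    ext x
    simp only [Set.mem_preimage, Set.mem_singleton_iff, Set.mem_iUnion, Set.mem_inter_iff]
    constructor
    · intro h1
      exact ⟨c x, rfl, by rw [← h1, inv_mul_cancel_left]⟩
    · rintro ⟨l, h1, h2⟩
      rw [h1, h2, mul_inv_cancel_left]
  rw [h]
  exact MeasurableSet.iUnion fun l => (hc l).inter (hd _)

end Tw

section CocyL

variable {C X Λ : Type} [Group C] [MulAction C X] [MeasurableSpace X] [Group Λ]

theorem Cocy.one (a : Cocy C X Λ) (x : X) : a.a 1 x = 1 := by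
  have h := a.mul 1 1 x
  rw [one_smul, one_mul] at h
  exact left_eq_mul.1 h

theorem Cocy.inv (a : Cocy C X Λ) (h : C) (x : X) : a.a h⁻¹ x = (a.a h (h⁻¹ • x))⁻¹ := by
  have h1 := a.mul h h⁻¹ x
  rw [mul_inv_cancel, a.one] at h1
  exact (inv_eq_of_mul_eq_one_right h1.symm).symm

theorem Mea.comp_smul [MeasurableConstSMul C X] {c : X → Λ} (hc : Mea c) (h : C) : Mea fun x => c (h • x) :=
  fun l => (measurable_const_smul h) (hc l)

end CocyL

end Pool.Agent.Helper84.FR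

namespace Pool.Agent.Helper66.FR

open Pool.Agent.Helper84.NI Pool.Agent.Helper84.GVN Pool.Agent.Helper84.FR

section Tw

variable {X Λ : Type} [MeasurableSpace X] [Group Λ]
variable {H K : Type} [NormedAddCommGroup H] [InnerProductSpace ℂ H]
  [NormedAddCommGroup K] [InnerProductSpace ℂ K] [CompleteSpace H] [CompleteSpace K]
variable {P P' : PV X H} {U U' : CRep Λ H} {c d : X → Λ}

theorem hasSum_tw (hP : PCom P U) (hc : Mea c) (ξ : H) :
    HasSum (fun l => P.p (c ⁻¹' {l}) (U.U l ξ)) (tw P U c ξ) := by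
  classical
  have hQ := P.isPF hc
  have hb : ∀ (ξ : H) (s : Finset Λ), ∑ l ∈ s, ‖P.p (c ⁻¹' {l}) (U.U l ξ)‖ ^ 2 ≤ ‖ξ‖ ^ 2 := by
    intro ξ s
    refine (Finset.sum_le_sum fun l _ => ?_).trans (hQ.sum_sq_le s ξ)
    rw [hP _ (hc l)]
    exact pow_le_pow_left₀ (norm_nonneg _) (U.norm_le l _) 2
  have hsum : ∀ ξ : H, Summable fun l => P.p (c ⁻¹' {l}) (U.U l ξ) :=
    fun ξ => hQ.summable (f := fun l => U.U l ξ) (hb ξ)
  have hex : ∃ W : H →L[ℂ] H, ∀ ξ, HasSum (fun l => P.p (c ⁻¹' {l}) (U.U l ξ)) (W ξ) := by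
    refine ⟨LinearMap.mkContinuous
      { toFun := fun ξ => ∑' l, P.p (c ⁻¹' {l}) (U.U l ξ)
        map_add' := fun ξ η => by
          rw [← (hsum ξ).tsum_add (hsum η)]
          exact tsum_congr fun l => by rw [map_add, map_add]
        map_smul' := fun z ξ => by
          rw [RingHom.id_apply, ← tsum_const_smul'' z]
          exact tsum_congr fun l => by rw [map_smul, map_smul] } 1 (fun ξ => ?_), fun ξ => (hsum ξ).hasSum⟩
    rw [one_mul]
    have h1 := hQ.hasSum_sq (f := fun l => U.U l ξ) (hsum ξ).hasSum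
    have h2 : ‖∑' l, P.p (c ⁻¹' {l}) (U.U l ξ)‖ ^ 2 ≤ ‖ξ‖ ^ 2 := hasSum_le_of_sum_le h1 (hb ξ)
    exact le_of_sq_le_sq h2 (norm_nonneg _)
  unfold tw
  rw [dif_pos hex]
  exact hex.choose_spec ξ

theorem norm_tw_le (hP : PCom P U) (hc : Mea c) (ξ : H) : ‖tw P U c ξ‖ ≤ ‖ξ‖ := by
  have h1 := (P.isPF hc).hasSum_sq (f := fun l => U.U l ξ) (hasSum_tw hP hc ξ)
  have h2 : ‖tw P U c ξ‖ ^ 2 ≤ ‖ξ‖ ^ 2 := by
    refine hasSum_le_of_sum_le h1 fun s => ?_
    refine (Finset.sum_le_sum fun l _ => ?_).trans ((P.isPF hc).sum_sq_le s ξ)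
    rw [hP _ (hc l)]
    exact pow_le_pow_left₀ (norm_nonneg _) (U.norm_le l _) 2
  exact le_of_sq_le_sq h2 (norm_nonneg _)

theorem p_tw (hP : PCom P U) (hc : Mea c) (l : Λ) (ξ : H) :
    P.p (c ⁻¹' {l}) (tw P U c ξ) = P.p (c ⁻¹' {l}) (U.U l ξ) := by
  have h1 := (hasSum_tw hP hc ξ).mapL (P.p (c ⁻¹' {l}))
  have h2 : HasSum (fun m => P.p (c ⁻¹' {l}) (P.p (c ⁻¹' {m}) (U.U m ξ)))
      (P.p (c ⁻¹' {l}) (P.p (c ⁻¹' {l}) (U.U l ξ))) :=
    hasSum_single l fun m hm => (P.isPF hc).orth l m hm.symm _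
  rw [h1.unique h2, P.idem (hc l)]

/-- Intertwiners commute with twisted products. -/
theorem map_tw {R : PV X K} {W : CRep Λ K} {T : H →L[ℂ] K} (hP : PCom P U) (hR : PCom R W) (hc : Mea c)
    (hT : ∀ l ξ, T (U.U l ξ) = W.U l (T ξ)) (hQ : ∀ A, MeasurableSet A → ∀ ξ, T (P.p A ξ) = R.p A (T ξ))
    (ξ : H) : T (tw P U c ξ) = tw R W c (T ξ) := by
  have h1 := (hasSum_tw hP hc ξ).mapL T
  have h2 := hasSum_tw hR hc (T ξ)
  have h3 : (fun l => T (P.p (c ⁻¹' {l}) (U.U l ξ))) = fun l => R.p (c ⁻¹' {l}) (W.U l (T ξ)) := by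
    funext l
    rw [hQ _ (hc l), hT]
  rw [h3] at h1
  exact h1.unique h2

/-- An operator which commutes with `P` and `U` commutes with `tw P U c`. -/
theorem comm_tw {T : H →L[ℂ] H} (hP : PCom P U) (hc : Mea c)
    (hT : ∀ l ξ, T (U.U l ξ) = U.U l (T ξ)) (hQ : ∀ A, MeasurableSet A → ∀ ξ, T (P.p A ξ) = P.p A (T ξ))
    (ξ : H) : T (tw P U c ξ) = tw P U c (T ξ) := map_tw hP hP hc hT hQ ξ

theorem tw_p (hP : PCom P U) (hc : Mea c) {A : Set X} (hA : MeasurableSet A) (ξ : H) :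
    P.p A (tw P U c ξ) = tw P U c (P.p A ξ) := by
  refine comm_tw hP hc (fun l ξ => hP A hA l ξ) (fun B hB ξ => ?_) ξ
  rw [P.inter A B hA hB, P.inter B A hB hA, Set.inter_comm]

theorem tw_mem {W : Submodule ℂ H} (hW : IsClosed (W : Set H)) (hP : PCom P U) (hc : Mea c)
    (h1 : ∀ l, ∀ x ∈ W, U.U l x ∈ W) (h2 : ∀ A, MeasurableSet A → ∀ x ∈ W, P.p A x ∈ W) {ξ : H}
    (hξ : ξ ∈ W) : tw P U c ξ ∈ W := by
  refine hW.mem_of_tendsto (hasSum_tw hP hc ξ) (Eventually.of_forall fun s => ?_)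
  exact W.sum_mem fun l _ => h2 _ (hc l) _ (h1 l _ hξ)

theorem tw_adj (hP : PCom P U) (hc : Mea c) (ξ η : H) :
    inner ℂ (tw P U c ξ) η = inner ℂ ξ (tw P U (fun x => (c x)⁻¹) η) := by
  have h1 : HasSum (fun l => inner ℂ η (P.p (c ⁻¹' {l}) (U.U l ξ))) (inner ℂ η (tw P U c ξ)) :=
    (hasSum_tw hP hc ξ).mapL (innerSL ℂ η)
  have h2 : HasSum (fun l => inner ℂ ξ (P.p ((fun x => (c x)⁻¹) ⁻¹' {l}) (U.U l η)))
      (inner ℂ ξ (tw P U (fun x => (c x)⁻¹) η)) :=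
    (hasSum_tw hP hc.inv η).mapL (innerSL ℂ ξ)
  have h3 := (Equiv.inv Λ).hasSum_iff.2 h2
  have h4 : ((fun l => inner ℂ ξ (P.p ((fun x => (c x)⁻¹) ⁻¹' {l}) (U.U l η))) ∘ (Equiv.inv Λ)) =
      fun l => conj (inner ℂ η (P.p (c ⁻¹' {l}) (U.U l ξ))) := by
    funext l
    change inner ℂ ξ (P.p ((fun x => (c x)⁻¹) ⁻¹' {l⁻¹}) (U.U l⁻¹ η)) = _
    have e : ((fun x => (c x)⁻¹) ⁻¹' {l⁻¹} : Set X) = c ⁻¹' {l} := by
      ext x
      simp
    rw [e, inner_conj_symm, P.symm _ (hc l), U.adj, ← hP _ (hc l)]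
  rw [h4] at h3
  have h5 : HasSum (fun l => conj (inner ℂ η (P.p (c ⁻¹' {l}) (U.U l ξ)))) (conj (inner ℂ η (tw P U c ξ))) :=
    (Complex.conjCLE : ℂ →L[ℝ] ℂ).hasSum h1
  rw [← h5.unique h3, inner_conj_symm]

/-- Multiplicativity. -/
theorem tw_mul [Countable Λ] (hP : PCom P U) (hc : Mea c) (hd : Mea d) (ξ : H) :
    tw P U c (tw P U d ξ) = tw P U (fun x => c x * d x) ξ := by
  have hcomm : ∀ l m x, P.p (c ⁻¹' {l}) (P.p (d ⁻¹' {m}) x) = P.p (d ⁻¹' {m}) (P.p (c ⁻¹' {l}) x) := by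
    intro l m x
    rw [P.inter _ _ (hc l) (hd m), P.inter _ _ (hd m) (hc l), Set.inter_comm]
  have hF := (P.isPF hc).prod (P.isPF hd) hcomm
  have hsum : Summable fun p : Λ × Λ => P.p (c ⁻¹' {p.1}) (P.p (d ⁻¹' {p.2}) (U.U (p.1 * p.2) ξ)) := by
    refine hF.summable (f := fun p : Λ × Λ => U.U (p.1 * p.2) ξ) (C := ‖ξ‖ ^ 2) fun s => ?_
    refine (Finset.sum_le_sum fun p _ => ?_).trans (hF.sum_sq_le s ξ)
    change ‖P.p (c ⁻¹' {p.1}) (P.p (d ⁻¹' {p.2}) (U.U (p.1 * p.2) ξ))‖ ^ 2 ≤ _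
    rw [hP _ (hd _), hP _ (hc _)]
    exact pow_le_pow_left₀ (norm_nonneg _) (U.norm_le _ _) 2
  have h1 : HasSum (fun l => P.p (c ⁻¹' {l}) (U.U l (tw P U d ξ)))
      (∑' p : Λ × Λ, P.p (c ⁻¹' {p.1}) (P.p (d ⁻¹' {p.2}) (U.U (p.1 * p.2) ξ))) := by
    refine hsum.hasSum.prod_fiberwise fun l => ?_
    have h2 := ((hasSum_tw hP hd ξ).mapL (U.U l)).mapL (P.p (c ⁻¹' {l}))
    convert h2 using 2 with m
    rw [U.mul, hP _ (hd m)]
  have h3 : HasSum (fun k => P.p ((fun x => c x * d x) ⁻¹' {k}) (U.U k ξ))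
      (∑' p : Λ × Λ, P.p (c ⁻¹' {p.1}) (P.p (d ⁻¹' {p.2}) (U.U (p.1 * p.2) ξ))) := by
    let e : Λ × Λ ≃ Λ × Λ :=
      { toFun := fun p => (p.2, p.2⁻¹ * p.1)
        invFun := fun q => (q.1 * q.2, q.1)
        left_inv := fun p => by
          ext
          · exact mul_inv_cancel_left _ _
          · rfl
        right_inv := fun q => by
          ext
          · rfl
          · exact inv_mul_cancel_left _ _ }
    have h4 := e.hasSum_iff.2 hsum.hasSum
    refine h4.prod_fiberwise fun k => ?_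
    -- partition `{c d = k}` along the values of `c`
    have h5 := P.sum Λ c hc (P.p ((fun x => c x * d x) ⁻¹' {k}) (U.U k ξ))
    convert h5 using 2 with l
    change P.p (c ⁻¹' {l}) (P.p (d ⁻¹' {l⁻¹ * k}) (U.U (l * (l⁻¹ * k)) ξ)) = _
    rw [mul_inv_cancel_left, P.inter _ _ (hc l) (hd _), P.inter _ _ (hc l) (Mea.mul hc hd k)]
    congr 2
    ext x
    simp only [Set.mem_inter_iff, Set.mem_preimage, Set.mem_singleton_iff]
    constructor
    · rintro ⟨h6, h7⟩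
      exact ⟨h6, by rw [h6, h7, mul_inv_cancel_left]⟩
    · rintro ⟨h6, h7⟩
      exact ⟨h6, by rw [← h7, h6, inv_mul_cancel_left]⟩
  rw [(hasSum_tw hP hc (tw P U d ξ)).unique h1, (hasSum_tw hP (Mea.mul hc hd) ξ).unique h3]

theorem tw_one (hP : PCom P U) (ξ : H) : tw P U (fun _ => 1) ξ = U.U 1 ξ := by
  have h1 := hasSum_tw hP (Mea.one (X := X) (Λ := Λ)) ξ
  have h2 : HasSum (fun l => P.p ((fun _ : X => (1 : Λ)) ⁻¹' {l}) (U.U l ξ))
      (P.p ((fun _ : X => (1 : Λ)) ⁻¹' {1}) (U.U 1 ξ)) := by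
    refine hasSum_single 1 fun m hm => ?_
    have e : ((fun _ : X => (1 : Λ)) ⁻¹' {m} : Set X) = ∅ := by
      ext x
      simp [hm.symm]
    rw [e, P.empty]
  have e : ((fun _ : X => (1 : Λ)) ⁻¹' {1} : Set X) = Set.univ := by
    ext x
    simp
  rw [h1.unique h2, e, P.univ]

/-- Twisted products over commuting data commute. -/
theorem tw_comm (hP : PCom P U) (hP' : PCom P' U') (hPU : PCom P U') (hPU' : PCom P' U)
    (hPP : ∀ A B, MeasurableSet A → MeasurableSet B → ∀ ξ, P.p A (P'.p B ξ) = P'.p B (P.p A ξ))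
    (hUU : ∀ l m ξ, U.U l (U'.U m ξ) = U'.U m (U.U l ξ)) (hc : Mea c) (hd : Mea d) (ξ : H) :
    tw P U c (tw P' U' d ξ) = tw P' U' d (tw P U c ξ) := by
  refine (comm_tw hP' hd (T := tw P U c) (fun m ξ => ?_) (fun B hB ξ => ?_) ξ)
  · exact (comm_tw hP hc (T := U'.U m) (fun l ξ => (hUU l m ξ).symm)
      (fun A hA ξ => (hPU A hA m ξ).symm) ξ).symm
  · exact (comm_tw hP hc (T := P'.p B) (fun l ξ => hPU' B hB l ξ)
      (fun A hA ξ => (hPP A B hA hB ξ).symm) ξ).symm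

/-- `tw P U c` is isometric on the vectors fixed by `U 1`. -/
theorem norm_tw [Countable Λ] (hP : PCom P U) (hc : Mea c) {ξ : H} (hξ : U.U 1 ξ = ξ) :
    ‖tw P U c ξ‖ = ‖ξ‖ := by
  refine le_antisymm (norm_tw_le hP hc ξ) ?_
  have h1 : tw P U (fun x => (c x)⁻¹) (tw P U c ξ) = ξ := by
    rw [tw_mul hP hc.inv hc]
    simp_rw [inv_mul_cancel]
    rw [tw_one hP, hξ]
  conv_lhs => rw [← h1]
  exact norm_tw_le hP hc.inv _

/-- If `c = 1` outside a small set, `tw P U c` is close to `U 1`. -/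
theorem norm_tw_sub_le (hP : PCom P U) (hc : Mea c) (ξ : H) :
    ‖tw P U c ξ - U.U 1 ξ‖ ≤ 2 * ‖P.p {x | c x ≠ 1} ξ‖ := by
  have hA : MeasurableSet (c ⁻¹' {1}) := hc 1
  have e : {x | c x ≠ 1} = (c ⁻¹' {1})ᶜ := by
    ext x
    simp
  rw [e]
  have h1 : tw P U c ξ - U.U 1 ξ = P.p (c ⁻¹' {1})ᶜ (tw P U c ξ) - P.p (c ⁻¹' {1})ᶜ (U.U 1 ξ) := by
    have h2 := P.add_compl hA (tw P U c ξ)
    have h3 := P.add_compl hA (U.U 1 ξ)
    have h4 := p_tw hP hc 1 ξ
    calc tw P U c ξ - U.U 1 ξ = (P.p (c ⁻¹' {1}) (tw P U c ξ) + P.p (c ⁻¹' {1})ᶜ (tw P U c ξ)) -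
        (P.p (c ⁻¹' {1}) (U.U 1 ξ) + P.p (c ⁻¹' {1})ᶜ (U.U 1 ξ)) := by rw [h2, h3]
      _ = _ := by
        rw [h4]
        abel
  rw [h1, tw_p hP hc hA.compl, hP _ hA.compl]
  refine (norm_sub_le _ _).trans ?_
  rw [two_mul]
  exact add_le_add (norm_tw_le hP hc _) (U.norm_le 1 _)

end Tw

section Op

variable {C X Λ G : Type} [Group C] [MulAction C X] [MeasurableSpace X] [Group Λ] [Group G]
variable {H : Type} [NormedAddCommGroup H] [InnerProductSpace ℂ H] [CompleteSpace H]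
variable {M : XM C X H} {U U' : CRep Λ H} {a : Cocy C X Λ}

/-- `U` commutes with the shifts and the projections of `M`. -/
structure UC (M : XM C X H) (U : CRep Λ H) : Prop where
  S : ∀ h l ξ, M.S h (U.U l ξ) = U.U l (M.S h ξ)
  x : PCom M.px U
  y : PCom M.py U

theorem UC.ext {A : G →* (H ≃ₗᵢ[ℂ] H)} (hA : ∀ g, M.Hom M ((A g).toContinuousLinearEquiv : H →L[ℂ] H))
    (E : Emb Λ G) : UC M (CRep.ext A E) where
  S h l ξ := map_ext (A := A) (A' := A) (T := ((M.S h).toContinuousLinearEquiv : H →L[ℂ] H))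
    (fun g x => ((hA g).S h x).symm) E l ξ
  x B hB l ξ := map_ext (A := A) (A' := A) (T := M.px.p B) (fun g x => ((hA g).x B hB x).symm) E l ξ
  y B hB l ξ := map_ext (A := A) (A' := A) (T := M.py.p B) (fun g x => ((hA g).y B hB x).symm) E l ξ

/-- Shifts and twisted products (positions). -/
theorem S_twx [MeasurableConstSMul C X] (hU : UC M U) {c : X → Λ} (hc : Mea c) (h : C) (ξ : H) :
    M.S h (tw M.px U c ξ) = tw M.px U (fun x => c (h⁻¹ • x)) (M.S h ξ) := by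
  have h1 := (hasSum_tw hU.x hc ξ).mapL ((M.S h).toContinuousLinearEquiv : H →L[ℂ] H)
  have h2 := hasSum_tw hU.x (hc.comp_smul h⁻¹) (M.S h ξ)
  have h3 : (fun l => ((M.S h).toContinuousLinearEquiv : H →L[ℂ] H) (M.px.p (c ⁻¹' {l}) (U.U l ξ))) =
      fun l => M.px.p ((fun x => c (h⁻¹ • x)) ⁻¹' {l}) (U.U l (M.S h ξ)) := by
    funext l
    change M.S h (M.px.p (c ⁻¹' {l}) (U.U l ξ)) = _
    rw [M.Sx h _ (hc l), hU.S]
    rfl
  rw [h3] at h1
  exact h1.unique h2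

/-- Shifts and twisted products (source points). -/
theorem S_twy [MeasurableConstSMul C X] (hU : UC M U) {c : X → Λ} (hc : Mea c) (h : C) (ξ : H) :
    M.S h (tw M.py U c ξ) = tw M.py U (fun x => c (h⁻¹ • x)) (M.S h ξ) := by
  have h1 := (hasSum_tw hU.y hc ξ).mapL ((M.S h).toContinuousLinearEquiv : H →L[ℂ] H)
  have h2 := hasSum_tw hU.y (hc.comp_smul h⁻¹) (M.S h ξ)
  have h3 : (fun l => ((M.S h).toContinuousLinearEquiv : H →L[ℂ] H) (M.py.p (c ⁻¹' {l}) (U.U l ξ))) =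
      fun l => M.py.p ((fun x => c (h⁻¹ • x)) ⁻¹' {l}) (U.U l (M.S h ξ)) := by
    funext l
    change M.S h (M.py.p (c ⁻¹' {l}) (U.U l ξ)) = _
    rw [M.Sy h _ (hc l), hU.S]
    rfl
  rw [h3] at h1
  exact h1.unique h2

theorem opL_apply (h : C) (ξ : H) : opL M a U h ξ = M.S h (tw M.px U (a.a h) ξ) := rfl

theorem opR_apply (h : C) (ξ : H) : opR M a U h ξ = tw M.py U (a.a h) ξ := rfl

theorem sgm_apply (h : C) (ξ : H) : sgm M a U U' h ξ = opL M a U h (opR M a U' h ξ) := rfl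

theorem norm_opL_le (hU : UC M U) (h : C) (ξ : H) : ‖opL M a U h ξ‖ ≤ ‖ξ‖ := by
  rw [opL_apply, LinearIsometryEquiv.norm_map]
  exact norm_tw_le hU.x (a.meas h) ξ

theorem norm_opR_le (hU : UC M U) (h : C) (ξ : H) : ‖opR M a U h ξ‖ ≤ ‖ξ‖ :=
  norm_tw_le hU.y (a.meas h) ξ

theorem norm_sgm_le (hU : UC M U) (hU' : UC M U') (h : C) (ξ : H) : ‖sgm M a U U' h ξ‖ ≤ ‖ξ‖ :=
  (norm_opL_le hU h _).trans (norm_opR_le hU' h ξ)

/-- `tw c` moved to the right of a shift. -/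
theorem twx_S [MeasurableConstSMul C X] (hU : UC M U) {c : X → Λ} (hc : Mea c) (h : C) (ξ : H) :
    tw M.px U c (M.S h ξ) = M.S h (tw M.px U (fun x => c (h • x)) ξ) := by
  rw [S_twx hU (hc.comp_smul h)]
  simp_rw [smul_inv_smul]

theorem twy_S [MeasurableConstSMul C X] (hU : UC M U) {c : X → Λ} (hc : Mea c) (h : C) (ξ : H) :
    tw M.py U c (M.S h ξ) = M.S h (tw M.py U (fun x => c (h • x)) ξ) := by
  rw [S_twy hU (hc.comp_smul h)]
  simp_rw [smul_inv_smul]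

theorem opL_mul [Countable Λ] [MeasurableConstSMul C X] (hU : UC M U) (g h : C) (ξ : H) :
    opL M a U (g * h) ξ = opL M a U g (opL M a U h ξ) := by
  rw [opL_apply, opL_apply, opL_apply, twx_S hU (a.meas g), tw_mul hU.x ((a.meas g).comp_smul h) (a.meas h),
    map_mul]
  have e : a.a (g * h) = fun x => a.a g (h • x) * a.a h x := funext fun x => a.mul g h x
  rw [e]
  rfl

theorem opL_one (hU : UC M U) (ξ : H) : opL M a U 1 ξ = U.U 1 ξ := by
  rw [opL_apply, map_one]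
  have h : a.a 1 = fun _ => 1 := funext fun x => a.one x
  rw [h, tw_one hU.x]
  rfl

theorem opR_one (hU : UC M U) (ξ : H) : opR M a U 1 ξ = U.U 1 ξ := by
  rw [opR_apply]
  have h : a.a 1 = fun _ => 1 := funext fun x => a.one x
  rw [h, tw_one hU.y]

theorem opL_adj [MeasurableConstSMul C X] (hU : UC M U) (h : C) (ξ η : H) :
    inner ℂ (opL M a U h ξ) η = inner ℂ ξ (opL M a U h⁻¹ η) := by
  rw [opL_apply, opL_apply]
  have h1 : M.S h (M.S h⁻¹ η) = η := by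
    change (M.S h * M.S h⁻¹) η = η
    rw [← map_mul, mul_inv_cancel, map_one]
    rfl
  conv_lhs => rw [← h1]
  rw [LinearIsometryEquiv.inner_map_map, tw_adj hU.x (a.meas h), twx_S hU (a.meas h).inv]
  congr 3
  congr 1
  funext x
  exact (a.inv h x).symm

/-- The left operators commute with twisted products over the source point, up to the shift. -/
theorem twy_opL [MeasurableConstSMul C X] (hU : UC M U) (hU' : UC M U')
    (hUU : ∀ l m ξ, U.U l (U'.U m ξ) = U'.U m (U.U l ξ)) {c : X → Λ} (hc : Mea c) (h : C) (ξ : H) :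
    tw M.py U' c (opL M a U h ξ) = opL M a U h (tw M.py U' (fun x => c (h • x)) ξ) := by
  rw [opL_apply, opL_apply, twy_S hU' hc]
  congr 1
  exact (tw_comm hU.x hU'.y hU'.x hU.y M.comm hUU (a.meas h) (hc.comp_smul h) ξ).symm

theorem sgm_mul [Countable Λ] [MeasurableConstSMul C X] (hU : UC M U) (hU' : UC M U')
    (hUU : ∀ l m ξ, U.U l (U'.U m ξ) = U'.U m (U.U l ξ)) (g h : C) (ξ : H) :
    sgm M a U U' (g * h) ξ = sgm M a U U' g (sgm M a U U' h ξ) := by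
  rw [sgm_apply, sgm_apply, sgm_apply, opL_mul hU]
  congr 1
  rw [opR_apply (h := g), twy_opL hU hU' hUU (a.meas g)]
  congr 1
  rw [opR_apply, opR_apply, tw_mul hU'.y ((a.meas g).comp_smul h) (a.meas h)]
  congr 2
  funext x
  exact a.mul g h x

theorem sgm_one (hU : UC M U) (hU' : UC M U') (ξ : H) : sgm M a U U' 1 ξ = U.U 1 (U'.U 1 ξ) := by
  rw [sgm_apply, opL_one hU, opR_one hU']

theorem sgm_adj [MeasurableConstSMul C X] (hU : UC M U) (hU' : UC M U')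
    (hUU : ∀ l m ξ, U.U l (U'.U m ξ) = U'.U m (U.U l ξ)) (h : C) (ξ η : H) :
    inner ℂ (sgm M a U U' h ξ) η = inner ℂ ξ (sgm M a U U' h⁻¹ η) := by
  rw [sgm_apply, sgm_apply, opL_adj hU, opR_apply, tw_adj hU'.y (a.meas h)]
  congr 1
  rw [twy_opL hU hU' hUU (a.meas h).inv, opR_apply]
  congr 2
  congr 1
  funext x
  exact (a.inv h x).symm

/-- Intertwiners commute with the left operators. -/
theorem map_opL {K : Type} [NormedAddCommGroup K] [InnerProductSpace ℂ K] [CompleteSpace K]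
    {M' : XM C X K} {W : CRep Λ K} {T : H →L[ℂ] K} (hT : M.Hom M' T) (hU : UC M U) (hW : UC M' W)
    (hTU : ∀ l ξ, T (U.U l ξ) = W.U l (T ξ)) (h : C) (ξ : H) :
    T (opL M a U h ξ) = opL M' a W h (T ξ) := by
  rw [opL_apply, opL_apply, hT.S, map_tw hU.x hW.x (a.meas h) hTU hT.x]

theorem map_opR {K : Type} [NormedAddCommGroup K] [InnerProductSpace ℂ K] [CompleteSpace K]
    {M' : XM C X K} {W : CRep Λ K} {T : H →L[ℂ] K} (hT : M.Hom M' T) (hU : UC M U) (hW : UC M' W)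
    (hTU : ∀ l ξ, T (U.U l ξ) = W.U l (T ξ)) (h : C) (ξ : H) :
    T (opR M a U h ξ) = opR M' a W h (T ξ) := by
  rw [opR_apply, opR_apply, map_tw hU.y hW.y (a.meas h) hTU hT.y]

end Op

end Pool.Agent.Helper66.FR
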