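import Pool.Agent.Helper66.FR.Zt1
import Pool.Agent.Helper66.FR.Tw
import Pool.Agent.Helper84.FR.FA

/-!
# Project FR (MP_0f6f3f_an): the covariant system on `L²(X; ℓ²(Λ))`
-/

set_option autoImplicit false
set_option linter.unusedSectionVars false

open MeasureTheory Filter Topology
open scoped ComplexConjugate ENNReal

namespace Pool.Agent.Helper66.FR

open Pool.Agent.Helper84.NI Pool.Agent.Helper84.FR Pool.Agent.Helper84.GVN

section Gen

variable {V ι : Type} [NormedAddCommGroup V] [InnerProductSpace ℂ V] {Q : ι → (V →L[ℂ] V)}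

/-- Completeness of a family of projections at `x`. -/
theorem IsPF.hasSum_of_sq (h : IsPF Q) {x : V} (hx : HasSum (fun l => ‖Q l x‖ ^ 2) (‖x‖ ^ 2)) :
    HasSum (fun l => Q l x) x := by
  have h1 : ∀ s : Finset ι, ‖x - ∑ l ∈ s, Q l x‖ ^ 2 = ‖x‖ ^ 2 - ∑ l ∈ s, ‖Q l x‖ ^ 2 := by
    intro s
    have h2 : ‖∑ l ∈ s, Q l x‖ ^ 2 = ∑ l ∈ s, ‖Q l x‖ ^ 2 :=
      orth_norm_sum (fun i j hij => h.inner_orth hij x x) s
    have h3 : (((∑ l ∈ s, ‖Q l x‖ ^ 2 : ℝ)) : ℂ) = inner ℂ x (∑ l ∈ s, Q l x) := by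
      rw [Complex.ofReal_sum, inner_sum]
      exact Finset.sum_congr rfl fun l _ => h.norm_sq l x
    have h4 := @norm_sub_sq ℂ _ _ _ _ x (∑ l ∈ s, Q l x)
    rw [← h3, h2] at h4
    rw [h4]
    change ‖x‖ ^ 2 - 2 * (((∑ l ∈ s, ‖Q l x‖ ^ 2 : ℝ)) : ℂ).re + ∑ l ∈ s, ‖Q l x‖ ^ 2 = _
    rw [Complex.ofReal_re]
    ring
  have h5 : Tendsto (fun s : Finset ι => ‖x‖ ^ 2 - ∑ l ∈ s, ‖Q l x‖ ^ 2) atTop (𝓝 (‖x‖ ^ 2 - ‖x‖ ^ 2)) :=
    tendsto_const_nhds.sub hx
  rw [sub_self] at h5
  have h6 : Tendsto (fun s : Finset ι => ‖x - ∑ l ∈ s, Q l x‖) atTop (𝓝 0) := by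
    have h7 : Tendsto (fun s : Finset ι => Real.sqrt (‖x - ∑ l ∈ s, Q l x‖ ^ 2)) atTop (𝓝 (Real.sqrt 0)) := by
      simp_rw [h1]
      exact (Real.continuous_sqrt.tendsto _).comp h5
    rw [Real.sqrt_zero] at h7
    refine h7.congr fun s => ?_
    exact Real.sqrt_sq (norm_nonneg _)
  have h8 : Tendsto (fun s : Finset ι => x - ∑ l ∈ s, Q l x) atTop (𝓝 0) := tendsto_zero_iff_norm_tendsto_zero.2 h6
  have h9 := (tendsto_const_nhds (x := x)).sub h8
  rw [sub_zero] at h9
  refine h9.congr fun s => ?_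
  abel

end Gen

section P0

variable {X : Type} [MeasurableSpace X] {μ : Measure X} {H : Type} [NormedAddCommGroup H]
  [InnerProductSpace ℂ H]

/-- The projections of `L²(X; H)` given by measurable sets. -/
noncomputable def xE (μ : Measure X) (H : Type) [NormedAddCommGroup H] [InnerProductSpace ℂ H]
    (A : Set X) : XL μ H →L[ℂ] XL μ H := mx μ H (A.indicator fun _ => (1 : ℂ))

theorem xE_apply {A : Set X} (hA : MeasurableSet A) (f : XL μ H) :
    ∀ᵐ x ∂μ, xE μ H A f x = A.indicator (fun _ => (1 : ℂ)) x • f x := mx_apply (BM.ind hA) f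

theorem xE_inter {A B : Set X} (hA : MeasurableSet A) (hB : MeasurableSet B) (f : XL μ H) :
    xE μ H A (xE μ H B f) = xE μ H (A ∩ B) f := by
  unfold xE
  rw [mx_mul (BM.ind hA) (BM.ind hB)]
  congr 2
  funext x
  by_cases h1 : x ∈ A <;> by_cases h2 : x ∈ B <;> simp [h1, h2]

theorem xE_symm {A : Set X} (hA : MeasurableSet A) (f g : XL μ H) :
    inner ℂ (xE μ H A f) g = inner ℂ f (xE μ H A g) := by
  unfold xE
  rw [inner_mx (BM.ind hA)]
  congr 3
  funext x
  by_cases h : x ∈ A <;> simp [h]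

theorem xE_univ (f : XL μ H) : xE μ H Set.univ f = f := by
  unfold xE
  conv_rhs => rw [← mx_one f]
  congr 2
  funext x
  simp

theorem xE_empty (f : XL μ H) : xE μ H ∅ f = 0 := by
  unfold xE
  have h := mx_const (μ := μ) 0 f
  rw [zero_smul] at h
  rw [← h]
  congr 2
  funext x
  simp

theorem norm_xE_sq {A : Set X} (hA : MeasurableSet A) (f : XL μ H) :
    ‖xE μ H A f‖ ^ 2 = ∫ x in A, ‖f x‖ ^ 2 ∂μ := by
  rw [xl_norm_sq, ← integral_indicator hA]
  refine integral_congr_ae ?_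
  filter_upwards [xE_apply hA f] with x hx
  rw [hx]
  by_cases h : x ∈ A
  · rw [Set.indicator_of_mem h, Set.indicator_of_mem h, one_smul]
  · rw [Set.indicator_of_notMem h, Set.indicator_of_notMem h, zero_smul, norm_zero]
    norm_num

/-- The projection valued measure of `L²(X; H)`. -/
noncomputable def pv0 (μ : Measure X) (H : Type) [NormedAddCommGroup H] [InnerProductSpace ℂ H] :
    PV X (XL μ H) where
  p := xE μ H
  univ := xE_univ
  inter A B hA hB f := xE_inter hA hB f
  symm A hA f g := xE_symm hA f g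
  sum I _ c hc f := by
    have hQ : IsPF (fun i => xE μ H (c ⁻¹' {i})) := by
      refine ⟨fun i f g => xE_symm (hc i) f g, fun i f => ?_, fun i j hij f => ?_⟩
      · rw [xE_inter (hc i) (hc i), Set.inter_self]
      · rw [xE_inter (hc i) (hc j)]
        have e : c ⁻¹' {i} ∩ c ⁻¹' {j} = ∅ := by
          ext x
          simp only [Set.mem_inter_iff, Set.mem_preimage, Set.mem_singleton_iff, Set.mem_empty_iff_false,
            iff_false, not_and]
          intro h1 h2
          exact hij (h1.symm.trans h2)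
        rw [e, xE_empty]
    refine hQ.hasSum_of_sq ?_
    simp_rw [norm_xE_sq (hc _)]
    rw [xl_norm_sq]
    have h1 := hasSum_integral_iUnion (μ := μ) (f := fun x => ‖f x‖ ^ 2) (s := fun i => c ⁻¹' {i})
      hc (fun i j hij => by
        change Disjoint (c ⁻¹' {i}) (c ⁻¹' {j})
        rw [Set.disjoint_left]
        intro x h1 h2
        exact hij (h1.symm.trans h2)) (xl_int f).integrableOn
    have h2 : (⋃ i, c ⁻¹' {i} : Set X) = Set.univ := by
      ext x
      simp
    rw [h2, setIntegral_univ] at h1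
    exact h1

end P0

section Ind

variable {Λ F : Type}

theorem norm_ind_le' (A : Set Λ) (v : L2 Λ) : ‖ind ℂ A v‖ ≤ ‖v‖ := by
  classical
  have h := norm_dg_le (T := fun i => if i ∈ A then ContinuousLinearMap.id ℂ ℂ else 0) zero_le_one
    (fun i x => by
      split_ifs
      · simp
      · simp) v
  rwa [one_mul] at h

/-- The square norms of the parts of a vector. -/
theorem hasSum_ind (P : Λ → F) (v : L2 Λ) :
    HasSum (fun g => ‖ind ℂ {l | P l = g} v‖ ^ 2) (‖v‖ ^ 2) := by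
  classical
  have h1 := lv_hasSum v
  have h2 := (Equiv.sigmaFiberEquiv P).hasSum_iff.2 h1
  refine h2.sigma fun g => ?_
  have h3 := lv_hasSum (ind ℂ {l | P l = g} v)
  have h4 : (fun l => ‖ind ℂ {l | P l = g} v l‖ ^ 2) = ({l | P l = g} : Set Λ).indicator fun l => ‖v l‖ ^ 2 := by
    funext l
    rw [ind_apply]
    by_cases h : l ∈ ({l | P l = g} : Set Λ)
    · rw [if_pos h, Set.indicator_of_mem h]
    · rw [if_neg h, Set.indicator_of_notMem h, norm_zero]
      norm_num
  rw [h4] at h3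
  exact (hasSum_subtype_iff_indicator (s := {l | P l = g})).2 h3

theorem ind_dl_of_mem {A : Set Λ} {l : Λ} (h : l ∈ A) : ind ℂ A (dl l) = (dl l : L2 Λ) := by
  classical
  apply lv_ext
  intro i
  rw [ind_apply]
  split_ifs with h1
  · rfl
  · rw [dl_apply, if_neg (fun e => h1 (by rw [e]; exact h))]

theorem ind_dl_of_notMem {A : Set Λ} {l : Λ} (h : l ∉ A) : ind ℂ A (dl l) = (0 : L2 Λ) := by
  classical
  apply lv_ext
  intro i
  rw [ind_apply]
  split_ifs with h1
  · rw [dl_apply, if_neg (fun e => h (by rw [← e]; exact h1))]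
    rfl
  · rfl

end Ind

section Imp

variable {F X Λ : Type} [Group F] [MeasurableSpace X] {μ : Measure X} [IsProbabilityMeasure μ]
  [MulAction F X] [MeasurableConstSMul F X] [SMulInvariantMeasure F X μ] [Group Λ] [Countable Λ]

/-- The field of projections `{l | p x l = g}` is measurable. -/
theorem fm_e {p : X → Λ → F} (hp : ∀ l g, MeasurableSet {x | p x l = g}) (g : F) :
    FM 1 fun x => ind ℂ {l | p x l = g} := by
  classical
  refine ⟨zero_le_one, fun v => ?_, fun x v => by rw [one_mul]; exact norm_ind_le' _ v⟩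
  have h1 : ∀ s : Finset Λ, StronglyMeasurable fun x =>
      ind ℂ {l | p x l = g} (∑ l ∈ s, v l • (dl l : L2 Λ)) := by
    intro s
    have h2 : (fun x => ind ℂ {l | p x l = g} (∑ l ∈ s, v l • (dl l : L2 Λ))) =
        ∑ l ∈ s, ({x | p x l = g} : Set X).indicator fun _ => v l • (dl l : L2 Λ) := by
      funext x
      rw [map_sum, Finset.sum_apply]
      refine Finset.sum_congr rfl fun l _ => ?_
      rw [map_smul]
      by_cases h : p x l = g
      · rw [ind_dl_of_mem (show l ∈ {l | p x l = g} from h), Set.indicator_of_mem (show x ∈ {x | p x l = g} from h)]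
      · rw [ind_dl_of_notMem (show l ∉ {l | p x l = g} from h),
          Set.indicator_of_notMem (show x ∉ {x | p x l = g} from h), smul_zero]
    rw [h2]
    exact Finset.stronglyMeasurable_sum _ fun l _ => stronglyMeasurable_const.indicator (hp l g)
  refine stronglyMeasurable_of_tendsto atTop h1 ?_
  rw [tendsto_pi_nhds]
  intro x
  exact ((ind ℂ {l | p x l = g}).continuous.tendsto _).comp (hasSum_dl v)

theorem fm_V (a : Cocy F X Λ) (f : F) : FM 1 fun x =>
    ((lamU (a.a f (f⁻¹ • x))).toContinuousLinearEquiv : L2 Λ →L[ℂ] L2 Λ) :=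
  FM.mea (c := fun x => a.a f (f⁻¹ • x)) (fun l => (measurable_const_smul f⁻¹) (a.meas f l))
    (w := fun l => ((lamU l).toContinuousLinearEquiv : L2 Λ →L[ℂ] L2 Λ)) zero_le_one
    fun l v => by
      rw [one_mul]
      exact (LinearIsometryEquiv.norm_map (lamU l) v).le

/-- `(V f φ) x = λ(a(f, f⁻¹ x)) φ(f⁻¹ x)`. -/
noncomputable def vop (μ : Measure X) [SMulInvariantMeasure F X μ] (a : Cocy F X Λ) (f : F) :
    XL μ (L2 Λ) →L[ℂ] XL μ (L2 Λ) :=
  (fop μ fun x => ((lamU (a.a f (f⁻¹ • x))).toContinuousLinearEquiv : L2 Λ →L[ℂ] L2 Λ)).comp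
    ((kp μ (L2 Λ) f).toContinuousLinearEquiv : XL μ (L2 Λ) →L[ℂ] XL μ (L2 Λ))

theorem vop_apply (a : Cocy F X Λ) (f : F) (φ : XL μ (L2 Λ)) :
    ∀ᵐ x ∂μ, vop μ a f φ x = lamU (a.a f (f⁻¹ • x)) (φ (f⁻¹ • x)) := by
  filter_upwards [fop_apply (fm_V a f) (kp μ (L2 Λ) f φ), kp_apply f φ] with x h1 h2
  change fop μ _ (kp μ (L2 Λ) f φ) x = _
  rw [h1, h2]
  rfl

theorem norm_vop (a : Cocy F X Λ) (f : F) (φ : XL μ (L2 Λ)) : ‖vop μ a f φ‖ = ‖φ‖ := by
  change ‖fop μ _ (kp μ (L2 Λ) f φ)‖ = _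
  rw [norm_fop (fm_V a f) (fun x v => LinearIsometryEquiv.norm_map (lamU (a.a f (f⁻¹ • x))) v),
    LinearIsometryEquiv.norm_map]

theorem vop_mul (a : Cocy F X Λ) (f g : F) (φ : XL μ (L2 Λ)) :
    vop μ a (f * g) φ = vop μ a f (vop μ a g φ) := by
  refine xl_ext ?_
  filter_upwards [vop_apply a (f * g) φ, vop_apply a f (vop μ a g φ),
    (measurePreserving_smul f⁻¹ μ).quasiMeasurePreserving.ae (vop_apply a g φ)] with x h1 h2 h3
  rw [h1, h2, h3]
  have h4 := a.mul f g (g⁻¹ • f⁻¹ • x)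
  rw [smul_inv_smul] at h4
  have h5 : (f * g)⁻¹ • x = g⁻¹ • f⁻¹ • x := by rw [mul_inv_rev, mul_smul]
  rw [h5, h4, lamU_mul]
  rfl

theorem vop_one (a : Cocy F X Λ) (φ : XL μ (L2 Λ)) : vop μ a 1 φ = φ := by
  refine xl_ext ?_
  filter_upwards [vop_apply a 1 φ] with x h1
  rw [h1, inv_one, one_smul, a.one, lamU_one]
  rfl

/-- The unitary representation `V`. -/
noncomputable def vrep (μ : Measure X) [IsProbabilityMeasure μ] [SMulInvariantMeasure F X μ] (a : Cocy F X Λ) :
    F →* (XL μ (L2 Λ) ≃ₗᵢ[ℂ] XL μ (L2 Λ)) where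
  toFun f :=
    { toFun := vop μ a f
      invFun := vop μ a f⁻¹
      map_add' := map_add _
      map_smul' := map_smul _
      left_inv := fun φ => by rw [← vop_mul, inv_mul_cancel, vop_one]
      right_inv := fun φ => by rw [← vop_mul, mul_inv_cancel, vop_one]
      norm_map' := norm_vop a f }
  map_one' := by
    ext1 φ
    exact vop_one a φ
  map_mul' f g := by
    ext1 φ
    exact vop_mul a f g φ

/-- The covariant system on `L²(X; ℓ²(Λ))`. -/
noncomputable def impX (μ : Measure X) [IsProbabilityMeasure μ] [SMulInvariantMeasure F X μ] [Countable F]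
    (a : Cocy F X Λ) (p : X → Λ → F) (hp : ∀ l g, MeasurableSet {x | p x l = g})
    (hpe : ∀ (f : F) (x : X) (l : Λ), p (f • x) (a.a f x * l) = f * p x l) :
    Imp F X (XL μ (L2 Λ)) where
  V := vrep μ a
  P0 := pv0 μ (L2 Λ)
  e g := fop μ fun x => ind ℂ {l | p x l = g}
  idem g φ := by
    refine xl_ext ?_
    filter_upwards [fop_apply (fm_e hp g) (fop μ (fun x => ind ℂ {l | p x l = g}) φ),
      fop_apply (fm_e hp g) φ] with x h1 h2
    rw [h1, h2]
    apply lv_ext
    intro l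
    classical
    rw [ind_apply, ind_apply]
    split_ifs <;> rfl
  orth f g hfg φ := by
    refine xl_ext ?_
    filter_upwards [fop_apply (fm_e hp f) (fop μ (fun x => ind ℂ {l | p x l = g}) φ),
      fop_apply (fm_e hp g) φ, Lp.coeFn_zero (L2 Λ) 2 μ] with x h1 h2 h3
    rw [h1, h2, h3]
    apply lv_ext
    intro l
    classical
    rw [ind_apply, ind_apply]
    split_ifs with h4 h5
    · exact absurd (h4.symm.trans h5) hfg
    · rfl
    · rfl
  symm g φ ψ := by
    rw [xl_inner, xl_inner]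
    refine integral_congr_ae ?_
    filter_upwards [fop_apply (fm_e hp g) φ, fop_apply (fm_e hp g) ψ] with x h1 h2
    rw [h1, h2, lp.inner_eq_tsum, lp.inner_eq_tsum]
    refine tsum_congr fun l => ?_
    classical
    rw [ind_apply, ind_apply]
    split_ifs
    · rfl
    · rw [inner_zero_left, inner_zero_right]
  sum φ := by
    have hQ : IsPF (fun g : F => fop μ fun x => ind ℂ {l | p x l = g}) := by
      refine ⟨fun g φ ψ => ?_, fun g φ => ?_, fun f g hfg φ => ?_⟩
      · rw [xl_inner, xl_inner]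
        refine integral_congr_ae ?_
        filter_upwards [fop_apply (fm_e hp g) φ, fop_apply (fm_e hp g) ψ] with x h1 h2
        rw [h1, h2, lp.inner_eq_tsum, lp.inner_eq_tsum]
        refine tsum_congr fun l => ?_
        classical
        rw [ind_apply, ind_apply]
        split_ifs
        · rfl
        · rw [inner_zero_left, inner_zero_right]
      · refine xl_ext ?_
        filter_upwards [fop_apply (fm_e hp g) (fop μ (fun x => ind ℂ {l | p x l = g}) φ),
          fop_apply (fm_e hp g) φ] with x h1 h2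
        rw [h1, h2]
        apply lv_ext
        intro l
        classical
        rw [ind_apply, ind_apply]
        split_ifs <;> rfl
      · refine xl_ext ?_
        filter_upwards [fop_apply (fm_e hp f) (fop μ (fun x => ind ℂ {l | p x l = g}) φ),
          fop_apply (fm_e hp g) φ, Lp.coeFn_zero (L2 Λ) 2 μ] with x h1 h2 h3
        rw [h1, h2, h3]
        apply lv_ext
        intro l
        classical
        rw [ind_apply, ind_apply]
        split_ifs with h4 h5
        · exact absurd (h4.symm.trans h5) hfg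
        · rfl
        · rfl
    refine hQ.hasSum_of_sq ?_
    have h1 : ∀ g : F, ‖fop μ (fun x => ind ℂ {l | p x l = g}) φ‖ ^ 2 =
        ∫ x, ‖ind ℂ {l | p x l = g} (φ x)‖ ^ 2 ∂μ := by
      intro g
      rw [xl_norm_sq]
      refine integral_congr_ae ?_
      filter_upwards [fop_apply (fm_e hp g) φ] with x hx
      rw [hx]
    simp_rw [h1]
    rw [xl_norm_sq]
    refine hasSum_integral_of_dominated_convergence (fun g x => ‖ind ℂ {l | p x l = g} (φ x)‖ ^ 2)
      (fun g => ?_) (fun g => ae_of_all _ fun x => ?_) (ae_of_all _ fun x => (hasSum_ind _ (φ x)).summable)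
      ?_ (ae_of_all _ fun x => hasSum_ind _ (φ x))
    · exact (((fm_e hp g).asm (Lp.aestronglyMeasurable φ)).norm).pow 2
    · rw [Real.norm_eq_abs, abs_of_nonneg (sq_nonneg _)]
    · have h2 : (fun x => ∑' g : F, ‖ind ℂ {l | p x l = g} (φ x)‖ ^ 2) = fun x => ‖φ x‖ ^ 2 :=
        funext fun x => (hasSum_ind (fun l => p x l) (φ x)).tsum_eq
      rw [h2]
      exact xl_int φ
  cov f g φ := by
    refine xl_ext ?_
    filter_upwards [vop_apply a f (fop μ (fun x => ind ℂ {l | p x l = g}) φ), vop_apply a f φ,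
      fop_apply (fm_e hp (f * g)) (vop μ a f φ),
      (measurePreserving_smul f⁻¹ μ).quasiMeasurePreserving.ae (fop_apply (fm_e hp g) φ)] with x h1 h2 h3 h4
    change vop μ a f (fop μ (fun x => ind ℂ {l | p x l = g}) φ) x =
      fop μ (fun x => ind ℂ {l | p x l = f * g}) (vop μ a f φ) x
    rw [h1, h3, h4, h2]
    apply lv_ext
    intro l
    classical
    rw [lamU_apply, ind_apply, ind_apply, lamU_apply]
    have h5 := hpe f (f⁻¹ • x) ((a.a f (f⁻¹ • x))⁻¹ * l)
    rw [smul_inv_smul, mul_inv_cancel_left] at h5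
    have h6 : ((a.a f (f⁻¹ • x))⁻¹ * l ∈ {l | p (f⁻¹ • x) l = g}) ↔ l ∈ {l | p x l = f * g} := by
      change p (f⁻¹ • x) ((a.a f (f⁻¹ • x))⁻¹ * l) = g ↔ p x l = f * g
      rw [h5, mul_right_inj]
    by_cases h7 : l ∈ {l | p x l = f * g}
    · rw [if_pos (h6.2 h7), if_pos h7]
    · rw [if_neg (fun h => h7 (h6.1 h)), if_neg h7]
  comm g D hD φ := by
    exact fop_mx (fm_e hp g) (BM.ind hD) φ

theorem impX_V [Countable F] (a : Cocy F X Λ) (p : X → Λ → F)
    (hp : ∀ l g, MeasurableSet {x | p x l = g})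
    (hpe : ∀ (f : F) (x : X) (l : Λ), p (f • x) (a.a f x * l) = f * p x l) (f : F) (φ : XL μ (L2 Λ)) :
    (impX μ a p hp hpe).V f φ = vop μ a f φ := rfl

theorem impX_P0 [Countable F] (a : Cocy F X Λ) (p : X → Λ → F)
    (hp : ∀ l g, MeasurableSet {x | p x l = g})
    (hpe : ∀ (f : F) (x : X) (l : Λ), p (f • x) (a.a f x * l) = f * p x l) (D : Set X) (φ : XL μ (L2 Λ)) :
    (impX μ a p hp hpe).P0.p D φ = xE μ (L2 Λ) D φ := rfl

end Imp

end Pool.Agent.Helper66.FR
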