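import Pool.Agent.Helper66.FR.Zt3
import Pool.Agent.Helper66.FR.Zt4

/-!
# Project FR (MP_0f6f3f_an): the intertwiner `T_oo : L²(X; ℓ²(Λ)) → UE μ (L2 G)`

`(T_oo b φ)_n (x) = U_{a(b_n, y)} w(φ(y))`, `y = b_n⁻¹ x`, `w : ℓ²(Λ) → ℓ²(G)`, `w δ_l = U_l δ₁`.
-/

set_option autoImplicit false
set_option linter.unusedSectionVars false

open MeasureTheory Filter Topology
open scoped ComplexConjugate ENNReal

namespace Pool.Agent.Helper66.FR

open Pool.Agent.Helper84.NI Pool.Agent.Helper84.FR Pool.Agent.Helper84.GVN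

section W

variable {G Λ : Type} [Group G] [Group Λ]

theorem bdd_lam_one : Bdd (lamR G) 1 (dl 1 : L2 G) := by
  refine ⟨zero_le_one, fun s a => ?_⟩
  have h1 : ∑ g ∈ s, a g • (lamR G) g (dl 1 : L2 G) = ∑ g ∈ s, a g • (dl g : L2 G) := by
    refine Finset.sum_congr rfl fun g _ => ?_
    change a g • lamU g (dl 1) = _
    rw [lamU_dl, mul_one]
  rw [h1, norm_sum_dl, one_pow, one_mul]

theorem ext_lam_one (E : Emb Λ G) (l : Λ) : ext (lamR G) E l (dl 1) = cf (E.U l) := by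
  have h := ext_kop (A := lamR G) E l bdd_lam_one (T := ContinuousLinearMap.id ℂ (L2 G)) (fun g => by
    change dl g = lamU g (dl 1)
    rw [lamU_dl, mul_one])
  exact h

theorem bdd_U_one (E : Emb Λ G) : Bdd E.U 1 (dl 1 : L2 G) := by
  refine ⟨zero_le_one, fun s a => ?_⟩
  have h := ext_bddL (A := lamR G) E bdd_lam_one s a
  simp_rw [ext_lam_one] at h
  exact h

/-- The operator `w : ℓ²(Λ) → ℓ²(G)`, `w δ_l = U_l δ₁`. -/
noncomputable def wop (E : Emb Λ G) : L2 Λ →L[ℂ] L2 G := (exists_kop (bdd_U_one E)).choose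

theorem wop_norm (E : Emb Λ G) (f : L2 Λ) : ‖wop E f‖ ≤ 1 * ‖f‖ := (exists_kop (bdd_U_one E)).choose_spec.1 f

theorem wop_dl (E : Emb Λ G) (l : Λ) : wop E (dl l) = cf (E.U l) :=
  (exists_kop (bdd_U_one E)).choose_spec.2.1 l

theorem wop_lam (E : Emb Λ G) (l : Λ) (f : L2 Λ) : wop E (lamU l f) = E.U l (wop E f) :=
  (exists_kop (bdd_U_one E)).choose_spec.2.2.1 l f

end W

section Ext

variable {X Λ Y : Type} [MeasurableSpace X] {μ : Measure X} [IsProbabilityMeasure μ]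
  [NormedAddCommGroup Y] [NormedSpace ℂ Y]

theorem ind_eq {H : Type} [NormedAddCommGroup H] [InnerProductSpace ℂ H] {s : Set X} (hs : MeasurableSet s)
    (hμs : μ s ≠ ∞) (v : H) : indicatorConstLp 2 hs hμs v = xE μ H s (cst μ v) := by
  refine xl_ext ?_
  filter_upwards [indicatorConstLp_coeFn (p := 2) (hs := hs) (hμs := hμs) (c := v), xE_apply hs (cst μ v),
    cst_apply (μ := μ) v] with x h1 h2 h3
  rw [h1, h2, h3]
  by_cases h : x ∈ s
  · rw [Set.indicator_of_mem h, Set.indicator_of_mem h, one_smul]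
  · rw [Set.indicator_of_notMem h, Set.indicator_of_notMem h, zero_smul]

/-- Closed conditions on `L²(X; H)`. -/
theorem xl_induction {H : Type} [NormedAddCommGroup H] [InnerProductSpace ℂ H] {P : XL μ H → Prop}
    (h1 : ∀ (s : Set X), MeasurableSet s → ∀ v : H, P (xE μ H s (cst μ v)))
    (h2 : ∀ f g, P f → P g → P (f + g)) (h3 : IsClosed {f | P f}) (f : XL μ H) : P f := by
  refine Lp.induction (p := 2) (by norm_num) (motive := P) (fun c s hs hμs => ?_)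
    (fun f g hf hg _ h4 h5 => h2 _ _ h4 h5) h3 f
  have h4 : ((Lp.simpleFunc.indicatorConst 2 hs hμs.ne c : Lp.simpleFunc H 2 μ) : Lp H 2 μ) =
      indicatorConstLp 2 hs hμs.ne c := Lp.simpleFunc.coe_indicatorConst hs hμs.ne c
  rw [h4, ind_eq]
  exact h1 s hs c

/-- Operators on `L²(X; ℓ²(Λ))` are determined by the vectors `1_s ⊗ δ_l`. -/
theorem xl_clm_ext {S T : XL μ (L2 Λ) →L[ℂ] Y}
    (h : ∀ (s : Set X), MeasurableSet s → ∀ l : Λ, S (xE μ (L2 Λ) s (cst μ (dl l))) =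
      T (xE μ (L2 Λ) s (cst μ (dl l)))) : S = T := by
  ext1 f
  refine xl_induction (P := fun f => S f = T f) (fun s hs v => ?_) (fun f g h1 h2 => by
    rw [map_add, map_add, h1, h2]) (isClosed_eq S.continuous T.continuous) f
  have h1 : (S.comp ((xE μ (L2 Λ) s).comp (cst μ).toContinuousLinearMap)) =
      (T.comp ((xE μ (L2 Λ) s).comp (cst μ).toContinuousLinearMap)) := clm_ext fun l => h s hs l
  exact DFunLike.congr_fun h1 v

end Ext

section Too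

variable {G1 X G Λ : Type} [Group G1] [MeasurableSpace X] {μ : Measure X} [MulAction G1 X]
  [MeasurableConstSMul G1 X] [SMulInvariantMeasure G1 X μ] [IsProbabilityMeasure μ]
  [Group G] [Group Λ] [Countable Λ] {E : Emb Λ G} {a : Cocy G1 X Λ} {b : ℕ → G1}

/-- Monomial functions. -/
noncomputable def mf (μ : Measure X) (q : X → ℂ) (c : X → Λ) : XL μ (L2 Λ) := sv μ fun x => q x • (dl (c x) : L2 Λ)

theorem mf_memLp {q : X → ℂ} {C : ℝ} (hq : BM C q) {c : X → Λ} (hc : Mea c) :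
    MemLp (fun x => q x • (dl (c x) : L2 Λ)) 2 μ := by
  refine memLp_bdd ((hq.1.stronglyMeasurable).smul (sm_mea hc fun l => (dl l : L2 Λ))) (C := C) fun x => ?_
  rw [norm_smul, norm_dl, mul_one]
  exact hq.2 x

theorem mf_apply {q : X → ℂ} {C : ℝ} (hq : BM C q) {c : X → Λ} (hc : Mea c) :
    ∀ᵐ x ∂μ, mf μ q c x = q x • (dl (c x) : L2 Λ) := sv_apply (mf_memLp hq hc)

omit [Countable Λ] in
theorem mea_const (l : Λ) : Mea fun _ : X => l := by
  intro k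
  by_cases h : l = k
  · have e : ((fun _ : X => l) ⁻¹' {k} : Set X) = Set.univ := by
      ext x
      simp [h]
    rw [e]
    exact MeasurableSet.univ
  · have e : ((fun _ : X => l) ⁻¹' {k} : Set X) = ∅ := by
      ext x
      simp [h]
    rw [e]
    exact MeasurableSet.empty

theorem xE_cst_dl {s : Set X} (hs : MeasurableSet s) (l : Λ) :
    xE μ (L2 Λ) s (cst μ (dl l)) = mf μ (s.indicator fun _ => (1 : ℂ)) fun _ => l := by
  refine xl_ext ?_
  filter_upwards [xE_apply hs (cst μ (dl l : L2 Λ)), cst_apply (μ := μ) (dl l : L2 Λ),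
    mf_apply (μ := μ) (BM.ind hs) (mea_const l)] with x h1 h2 h3
  rw [h1, h2, h3]

/-- The operator at level `g`: `(tg g φ)(x) = U_{a(g, g⁻¹ x)} w(φ(g⁻¹ x))`. -/
noncomputable def tg (μ : Measure X) [SMulInvariantMeasure G1 X μ] (a : Cocy G1 X Λ) (E : Emb Λ G) (g : G1) :
    XL μ (L2 Λ) →L[ℂ] XL μ (L2 G) :=
  ((fop μ fun x => ((E.U (a.a g (g⁻¹ • x))).toContinuousLinearEquiv : L2 G →L[ℂ] L2 G)).comp
    ((kp μ (L2 G) g).toContinuousLinearEquiv : XL μ (L2 G) →L[ℂ] XL μ (L2 G))).comp (cl μ (wop E))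

theorem fm_U (g : G1) : FM 1 fun x => ((E.U (a.a g (g⁻¹ • x))).toContinuousLinearEquiv : L2 G →L[ℂ] L2 G) :=
  FM.mea (mea_a g g⁻¹) (w := fun l => ((E.U l).toContinuousLinearEquiv : L2 G →L[ℂ] L2 G)) zero_le_one
    fun l v => by
      rw [one_mul]
      exact (LinearIsometryEquiv.norm_map (E.U l) v).le

theorem tg_apply (g : G1) (φ : XL μ (L2 Λ)) :
    ∀ᵐ x ∂μ, tg μ a E g φ x = E.U (a.a g (g⁻¹ • x)) (wop E (φ (g⁻¹ • x))) := by
  filter_upwards [fop_apply (fm_U (a := a) (E := E) g) (kp μ (L2 G) g (cl μ (wop E) φ)),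
    kp_apply g (cl μ (wop E) φ),
    (measurePreserving_smul g⁻¹ μ).quasiMeasurePreserving.ae (cl_apply (wop E) φ)] with x h1 h2 h3
  change fop μ _ (kp μ (L2 G) g (cl μ (wop E) φ)) x = _
  rw [h1, h2, h3]
  rfl

theorem norm_tg_le (g : G1) (φ : XL μ (L2 Λ)) : ‖tg μ a E g φ‖ ≤ 1 * ‖φ‖ := by
  change ‖fop μ _ (kp μ (L2 G) g (cl μ (wop E) φ))‖ ≤ _
  rw [norm_fop (fm_U g) (fun x v => LinearIsometryEquiv.norm_map (E.U (a.a g (g⁻¹ • x))) v),
    LinearIsometryEquiv.norm_map]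
  exact norm_cl_le_of zero_le_one (wop_norm E) φ

/-- The sequence `tg (b n) φ`. -/
noncomputable def tS (μ : Measure X) [SMulInvariantMeasure G1 X μ] [IsProbabilityMeasure μ] (a : Cocy G1 X Λ)
    (E : Emb Λ G) (b : ℕ → G1) (φ : XL μ (L2 Λ)) : BSeq (XL μ (L2 G)) :=
  ⟨fun n => tg μ a E (b n) φ, 1 * ‖φ‖, fun n => norm_tg_le (b n) φ⟩

/-- The operator with values in `UX`. -/
noncomputable def tU (μ : Measure X) [SMulInvariantMeasure G1 X μ] [IsProbabilityMeasure μ] (a : Cocy G1 X Λ)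
    (E : Emb Λ G) (b : ℕ → G1) : XL μ (L2 Λ) →L[ℂ] UX μ (L2 G) :=
  LinearMap.mkContinuous
    { toFun := fun φ => UP.mk (tS μ a E b φ)
      map_add' := fun φ ψ => by
        rw [← UP.mk_add]
        exact congrArg UP.mk (Subtype.ext (funext fun n => map_add (tg μ a E (b n)) φ ψ))
      map_smul' := fun c φ => by
        rw [RingHom.id_apply, ← UP.mk_smul]
        exact congrArg UP.mk (Subtype.ext (funext fun n => map_smul (tg μ a E (b n)) c φ)) } 1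
    (fun φ => UP.norm_mk_le _ fun n => norm_tg_le (b n) φ)

theorem tU_apply (b : ℕ → G1) (φ : XL μ (L2 Λ)) : tU μ a E b φ = UP.mk (tS μ a E b φ) := rfl

theorem tU_mem (b : ℕ → G1) (φ : XL μ (L2 Λ)) : tU μ a E b φ ∈ EI μ (L2 G) := by
  refine xl_induction (P := fun φ => tU μ a E b φ ∈ EI μ (L2 G)) (fun s hs v => ?_) (fun f g h1 h2 => by
    rw [map_add]
    exact (EI μ (L2 G)).add_mem h1 h2) (isClosed_EI.preimage (tU μ a E b).continuous) φ
  rw [tU_apply]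
  refine mk_mem_EI (c := ‖v‖) ⟨norm_nonneg _, fun n => ?_⟩
  filter_upwards [tg_apply (a := a) (E := E) (b n) (xE μ (L2 Λ) s (cst μ v)),
    (measurePreserving_smul (b n)⁻¹ μ).quasiMeasurePreserving.ae (xE_apply hs (cst μ v)),
    (measurePreserving_smul (b n)⁻¹ μ).quasiMeasurePreserving.ae (cst_apply (μ := μ) v)] with x h1 h2 h3
  change ‖tg μ a E (b n) (xE μ (L2 Λ) s (cst μ v)) x‖ ≤ _
  rw [h1, LinearIsometryEquiv.norm_map]
  refine (wop_norm E _).trans ?_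
  rw [one_mul, h2, h3, norm_smul]
  have h4 : ‖s.indicator (fun _ => (1 : ℂ)) ((b n)⁻¹ • x)‖ ≤ 1 := (BM.ind hs).2 _
  calc _ ≤ 1 * ‖v‖ := mul_le_mul_of_nonneg_right h4 (norm_nonneg _)
    _ = ‖v‖ := one_mul _

/-- The intertwiner `T_oo`. -/
noncomputable def Too (μ : Measure X) [SMulInvariantMeasure G1 X μ] [IsProbabilityMeasure μ] (a : Cocy G1 X Λ)
    (E : Emb Λ G) (b : ℕ → G1) : XL μ (L2 Λ) →L[ℂ] UE μ (L2 G) :=
  (tU μ a E b).codRestrict (EI μ (L2 G)) (tU_mem b)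

theorem val_Too (b : ℕ → G1) (φ : XL μ (L2 Λ)) : UE.val (Too μ a E b φ) = UP.mk (tS μ a E b φ) := rfl

theorem BMS.shift {C : ℝ} (h0 : 0 ≤ C) {q : X → ℂ} (hq : BM C q) (g : ℕ → G1) :
    BMS C fun n x => q ((g n)⁻¹ • x) := ⟨h0, fun _ => hq.comp (measurable_const_smul _)⟩

/-- `T_oo` on monomial functions. -/
theorem Too_mf (b : ℕ → G1) {q : X → ℂ} {C : ℝ} (h0 : 0 ≤ C) (hq : BM C q) {c : X → Λ} (hc : Mea c) :
    Too μ a E b (mf μ q c) = UE.mx μ (L2 G) (fun n x => q ((b n)⁻¹ • x))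
      (zt μ E fun n x => a.a (b n) ((b n)⁻¹ • x) * c ((b n)⁻¹ • x)) := by
  refine UE.eq ?_
  rw [val_Too, UE.val_mx (BMS.shift h0 hq b)]
  unfold zt
  rw [UE.val_mk]
  unfold ux
  rw [mapS_mk (BMS.shift h0 hq b).bo]
  refine congrArg UP.mk (Subtype.ext (funext fun n => xl_ext ?_))
  change ∀ᵐ x ∂μ, tg μ a E (b n) (mf μ q c) x = mx μ (L2 G) (fun x => q ((b n)⁻¹ • x))
    (zv μ E fun x => a.a (b n) ((b n)⁻¹ • x) * c ((b n)⁻¹ • x)) x
  filter_upwards [tg_apply (a := a) (E := E) (b n) (mf μ q c),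
    (measurePreserving_smul (b n)⁻¹ μ).quasiMeasurePreserving.ae (mf_apply (μ := μ) hq hc),
    mx_apply (hq.comp (measurable_const_smul (b n)⁻¹))
      (zv μ E fun x => a.a (b n) ((b n)⁻¹ • x) * c ((b n)⁻¹ • x)),
    zv_apply (μ := μ) (E := E) ((mea_a (a := a) (b n) (b n)⁻¹).mul (hc.comp_smul (b n)⁻¹))] with x h1 h2 h3 h4
  rw [h1, h2, h3, h4, map_smul, map_smul, wop_dl, map_mul]
  rfl

/-- The base vector `1 ⊗ δ₁`. -/
noncomputable def v0 (μ : Measure X) (Λ : Type) [Group Λ] : XL μ (L2 Λ) := mf μ (fun _ => 1) fun _ => 1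

theorem UE.mx_one (ξ : UE μ (L2 G)) : UE.mx μ (L2 G) (fun _ _ => 1) ξ = ξ := by
  refine UE.eq ?_
  rw [UE.val_mx (BMS.const 1), ux_one]

theorem Too_v0 (b : ℕ → G1) : Too μ a E b (v0 μ Λ) = vec μ a E b := by
  unfold v0
  rw [Too_mf b (C := ‖(1 : ℂ)‖) (norm_nonneg _) (BM.const 1) (mea_const 1), UE.mx_one]
  unfold vec
  congr 1
  funext n x
  rw [mul_one]

theorem UE.P_eq_mx {D : ℕ → Set X} (hD : ∀ n, MeasurableSet (D n)) (ξ : UE μ (L2 G)) :
    UE.P μ (L2 G) D ξ = UE.mx μ (L2 G) (fun n => (D n).indicator fun _ => (1 : ℂ)) ξ := by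
  refine UE.eq ?_
  rw [UE.val_P hD, UE.val_mx (BMS.ind hD)]
  rfl

theorem UE.mx_mx {C D : ℝ} {p q : ℕ → X → ℂ} (hp : BMS C p) (hq : BMS D q) (ξ : UE μ (L2 G)) :
    UE.mx μ (L2 G) p (UE.mx μ (L2 G) q ξ) = UE.mx μ (L2 G) (fun n x => p n x * q n x) ξ := by
  refine UE.eq ?_
  rw [UE.val_mx hp, UE.val_mx hq, UE.val_mx (hp.mul hq), ux_mul hp hq]

theorem UE.sS_mx (g : ℕ → G1) {C : ℝ} {p : ℕ → X → ℂ} (hp : BMS C p) (ξ : UE μ (L2 G)) :
    UE.sS μ (L2 G) g (UE.mx μ (L2 G) p ξ) =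
      UE.mx μ (L2 G) (fun n x => p n ((g n)⁻¹ • x)) (UE.sS μ (L2 G) g ξ) := by
  refine UE.eq ?_
  rw [UE.val_sS, UE.val_mx hp, UE.val_mx (C := C) ⟨hp.1, fun n => (hp.2 n).comp (measurable_const_smul _)⟩,
    UE.val_sS, us_ux g hp]

/-- `T_oo` intertwines the projections. -/
theorem Too_P0 (b : ℕ → G1) {D : Set X} (hD : MeasurableSet D) (φ : XL μ (L2 Λ)) :
    Too μ a E b (xE μ (L2 Λ) D φ) = (xmU μ b (L2 G)).py.p D (Too μ a E b φ) := by
  have h : (Too μ a E b).comp (xE μ (L2 Λ) D) = ((xmU μ b (L2 G)).py.p D).comp (Too μ a E b) := by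
    refine xl_clm_ext fun s hs l => ?_
    change Too μ a E b (xE μ (L2 Λ) D (xE μ (L2 Λ) s (cst μ (dl l)))) =
      (xmU μ b (L2 G)).py.p D (Too μ a E b (xE μ (L2 Λ) s (cst μ (dl l))))
    have hD' : ∀ n, MeasurableSet ((fun x => (b n)⁻¹ • x) ⁻¹' D) := fun n => (measurable_const_smul _) hD
    rw [xE_inter hD hs, xE_cst_dl (hD.inter hs), xE_cst_dl hs,
      Too_mf b zero_le_one (BM.ind (hD.inter hs)) (mea_const l), Too_mf b zero_le_one (BM.ind hs) (mea_const l),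
      xmU_py, UE.P_eq_mx hD', UE.mx_mx (BMS.ind hD') (BMS.shift zero_le_one (BM.ind hs) b)]
    congr 2
    funext n x
    by_cases h1 : (b n)⁻¹ • x ∈ D <;> by_cases h2 : (b n)⁻¹ • x ∈ s <;> simp [h1, h2]
  exact DFunLike.congr_fun h φ

/-- `opL` on weighted vectors. -/
theorem opL_mx_zt (h : cen b) {α : ℕ → X → Λ} (hα : ∀ n, Mea (α n)) {C : ℝ} {q : ℕ → X → ℂ} (hq : BMS C q) :
    opL (xmU μ b (L2 G)) (cres a (cen b)) (CRep.ext (AE μ G) E) h (UE.mx μ (L2 G) q (zt μ E α)) =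
      UE.mx μ (L2 G) (fun n x => q n ((h : G1)⁻¹ • x))
        (zt μ E fun n x => a.a (h : G1) ((h : G1)⁻¹ • x) * α n ((h : G1)⁻¹ • x)) := by
  have hm := (cres a (cen b)).meas h
  rw [opL_apply, xmU_S]
  have h1 : tw (xmU μ b (L2 G)).px (CRep.ext (AE μ G) E) ((cres a (cen b)).a h) (UE.mx μ (L2 G) q (zt μ E α)) =
      UE.mx μ (L2 G) q (tw (xmU μ b (L2 G)).px (CRep.ext (AE μ G) E) ((cres a (cen b)).a h) (zt μ E α)) := by
    refine (comm_tw (T := UE.mx μ (L2 G) q) (UC.ext (hom_rep b (lamR G)) E).x hm (fun l ξ => ?_)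
      (fun D hD ξ => ?_) (zt μ E α)).symm
    · exact map_ext (A := AE μ G) (A' := AE μ G) (T := UE.mx μ (L2 G) q) (fun g ξ => by
        rw [UE.rep_apply, UE.rep_apply, UE.map_mx _ hq]) E l ξ
    · rw [xmU_px]
      refine UE.eq ?_
      rw [UE.val_mx hq, UE.val_P fun _ => hD, UE.val_P fun _ => hD, UE.val_mx hq]
      exact ux_comm hq (BMS.ind fun _ => hD) _
  rw [h1, twx_zt b hα hm, UE.sS_mx _ hq, sS_zt _ fun n => hm.mul (hα n)]
  rfl

/-- `T_oo` intertwines `V` and `opL`. -/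
theorem Too_V {F : Type} [Group F] [MulAction F X] [MeasurableConstSMul F X] [SMulInvariantMeasure F X μ]
    {aF : Cocy F X Λ} (b : ℕ → G1) (f : F) (h : cen b) (hf : ∀ x : X, f⁻¹ • x = (h : G1)⁻¹ • x)
    (haf : ∀ x : X, aF.a f x = a.a (h : G1) x) (φ : XL μ (L2 Λ)) :
    Too μ a E b (vop μ aF f φ) =
      opL (xmU μ b (L2 G)) (cres a (cen b)) (CRep.ext (AE μ G) E) h (Too μ a E b φ) := by
  have h : (Too μ a E b).comp (vop μ aF f) =
      (opL (xmU μ b (L2 G)) (cres a (cen b)) (CRep.ext (AE μ G) E) h).comp (Too μ a E b) := by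
    refine xl_clm_ext fun s hs l => ?_
    change Too μ a E b (vop μ aF f (xE μ (L2 Λ) s (cst μ (dl l)))) =
      opL (xmU μ b (L2 G)) (cres a (cen b)) (CRep.ext (AE μ G) E) h
        (Too μ a E b (xE μ (L2 Λ) s (cst μ (dl l))))
    have h1 : vop μ aF f (xE μ (L2 Λ) s (cst μ (dl l))) =
        mf μ (fun x => s.indicator (fun _ => (1 : ℂ)) (f⁻¹ • x)) fun x => aF.a f (f⁻¹ • x) * l := by
      rw [xE_cst_dl hs]
      refine xl_ext ?_
      filter_upwards [vop_apply aF f (mf μ (s.indicator fun _ => (1 : ℂ)) fun _ => l),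
        (measurePreserving_smul f⁻¹ μ).quasiMeasurePreserving.ae
          (mf_apply (μ := μ) (BM.ind hs) (mea_const l)),
        mf_apply (μ := μ) ((BM.ind hs).comp (measurable_const_smul f⁻¹))
          (Mea.mul_const (Mea.comp_smul (aF.meas f) f⁻¹) l)] with x h2 h3 h4
      rw [h2, h3, h4, map_smul, lamU_dl]
    rw [h1, xE_cst_dl hs, Too_mf b zero_le_one ((BM.ind hs).comp (measurable_const_smul f⁻¹))
      (Mea.mul_const (Mea.comp_smul (aF.meas f) f⁻¹) l), Too_mf b zero_le_one (BM.ind hs) (mea_const l),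
      opL_mx_zt h (fun n => (mea_a (a := a) (b n) (b n)⁻¹).mul (mea_const l)) (BMS.shift zero_le_one (BM.ind hs) b)]
    have hcomm : ∀ n (x : X), (h : G1)⁻¹ • (b n)⁻¹ • x = (b n)⁻¹ • (h : G1)⁻¹ • x := by
      intro n x
      rw [← mul_smul, ← mul_smul, ← mul_inv_rev, ← mul_inv_rev, mem_cen.1 h.2 n]
    have e1 : (fun n x => s.indicator (fun _ => (1 : ℂ)) (f⁻¹ • (b n)⁻¹ • x)) =
        fun n x => s.indicator (fun _ => (1 : ℂ)) ((b n)⁻¹ • (h : G1)⁻¹ • x) := by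
      funext n x
      rw [hf, hcomm]
    have e2 : (fun n x => a.a (b n) ((b n)⁻¹ • x) * (aF.a f (f⁻¹ • (b n)⁻¹ • x) * l)) =
        fun n x => a.a (h : G1) ((h : G1)⁻¹ • x) * (a.a (b n) ((b n)⁻¹ • (h : G1)⁻¹ • x) * l) := by
      funext n x
      rw [hf, haf, ← mul_assoc, ← mul_assoc]
      congr 1
      have h5 := a.mul (h : G1) (b n) ((b n)⁻¹ • (h : G1)⁻¹ • x)
      rw [smul_inv_smul] at h5
      have h6 := a.mul (b n) (h : G1) ((h : G1)⁻¹ • (b n)⁻¹ • x)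
      rw [smul_inv_smul] at h6
      rw [← h5, ← h6, hcomm, mem_cen.1 h.2 n]
    rw [e1, e2]
  exact DFunLike.congr_fun h φ

end Too

end Pool.Agent.Helper66.FR
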