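import Pool.Agent.Helper66.FR.XP6

/-!
# Project FR (MP_0f6f3f_an): shifts and projections on `UE μ H`
-/

set_option autoImplicit false
set_option linter.unusedSectionVars false

open MeasureTheory Filter Topology
open scoped ComplexConjugate ENNReal

namespace Pool.Agent.Helper66.FR

open Pool.Agent.Helper84.NI Pool.Agent.Helper84.FR

section PVE

variable {X : Type} [MeasurableSpace X] {μ : Measure X} [IsProbabilityMeasure μ]
variable {H K : Type} [NormedAddCommGroup H] [InnerProductSpace ℂ H] [CompleteSpace H]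
  [NormedAddCommGroup K] [InnerProductSpace ℂ K] [CompleteSpace K]

theorem UE.hasSum_val {ι : Type} {f : ι → UE μ H} {a : UE μ H}
    (h : HasSum (fun i => UE.val (f i)) (UE.val a)) : HasSum f a :=
  (UE.val (μ := μ) (H := H)).isometry.isEmbedding.isInducing.hasSum_iff f a |>.1 h

/-- The projection valued measure given by a sequence of measure preserving maps. -/
noncomputable def pvE (μ : Measure X) [IsProbabilityMeasure μ] (H : Type) [NormedAddCommGroup H]
    [InnerProductSpace ℂ H] [CompleteSpace H] (e : ℕ → X → X) (he : ∀ n, MeasurePreserving (e n) μ μ) :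
    PV X (UE μ H) where
  p A := UE.P μ H fun n => e n ⁻¹' A
  univ ξ := by
    refine UE.eq ?_
    rw [UE.val_P fun n => (he n).measurable MeasurableSet.univ]
    exact uxP_univ _
  inter A B hA hB ξ := by
    refine UE.eq ?_
    rw [UE.val_P fun n => (he n).measurable hA, UE.val_P fun n => (he n).measurable hB,
      UE.val_P fun n => (he n).measurable (hA.inter hB),
      uxP_uxP (fun n => (he n).measurable hA) (fun n => (he n).measurable hB)]
    rfl
  symm A hA ξ η := by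
    rw [← UE.inner_val, ← UE.inner_val, UE.val_P fun n => (he n).measurable hA,
      UE.val_P fun n => (he n).measurable hA]
    exact inner_uxP (fun n => (he n).measurable hA) _ _
  sum I _ c hc ξ := by
    refine UE.hasSum_val ?_
    have h1 : ∀ i n, MeasurableSet (e n ⁻¹' (c ⁻¹' {i})) := fun i n => (he n).measurable (hc i)
    have h2 : (fun i => UE.val (UE.P μ H (fun n => e n ⁻¹' (c ⁻¹' {i})) ξ)) =
        fun i => uxP μ H (fun n => e n ⁻¹' (c ⁻¹' {i})) (UE.val ξ) := by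
      funext i
      rw [UE.val_P (h1 i)]
    rw [h2]
    refine hasSum_uxP (E := fun i n => e n ⁻¹' (c ⁻¹' {i})) h1 (fun i j hij n => ?_) (fun ε hε => ?_)
      (UE.val_mem ξ)
    · rw [Set.disjoint_left]
      intro y hy1 hy2
      exact hij (hy1.symm.trans hy2)
    · obtain ⟨s, hs⟩ := tight_of_partition (μ := μ) hc hε
      refine ⟨s, Eventually.of_forall fun n => ?_⟩
      have h3 : (⋃ i ∈ s, e n ⁻¹' (c ⁻¹' {i}))ᶜ = e n ⁻¹' (⋃ i ∈ s, c ⁻¹' {i})ᶜ := by
        rw [Set.preimage_compl, Set.preimage_iUnion₂]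
      rw [h3, (he n).measureReal_preimage
        (s.measurableSet_biUnion fun i _ => hc i).compl.nullMeasurableSet]
      exact hs

theorem pvE_apply {e : ℕ → X → X} (he : ∀ n, MeasurePreserving (e n) μ μ) (A : Set X) :
    (pvE μ H e he).p A = UE.P μ H fun n => e n ⁻¹' A := rfl

end PVE

section Xm

variable {G1 X : Type} [Group G1] [MeasurableSpace X] {μ : Measure X} [MulAction G1 X]
  [MeasurableConstSMul G1 X] [SMulInvariantMeasure G1 X μ] [IsProbabilityMeasure μ]
variable {H K : Type} [NormedAddCommGroup H] [InnerProductSpace ℂ H] [CompleteSpace H]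
  [NormedAddCommGroup K] [InnerProductSpace ℂ K] [CompleteSpace K]

/-- The shift of `UE μ H` by a sequence of group elements. -/
noncomputable def UE.sS (μ : Measure X) [SMulInvariantMeasure G1 X μ] (H : Type) [NormedAddCommGroup H]
    [InnerProductSpace ℂ H] (g : ℕ → G1) : UE μ H ≃ₗᵢ[ℂ] UE μ H where
  toFun := UE.lift ((us μ H g).toContinuousLinearEquiv : UX μ H →L[ℂ] UX μ H) fun _ hξ => us_mem_EI g hξ
  invFun := UE.lift ((us μ H fun n => (g n)⁻¹).toContinuousLinearEquiv : UX μ H →L[ℂ] UX μ H)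
    fun _ hξ => us_mem_EI _ hξ
  map_add' := _root_.map_add _
  map_smul' := _root_.map_smul _
  left_inv ξ := by
    refine UE.eq ?_
    change us μ H (fun n => (g n)⁻¹) (us μ H g (UE.val ξ)) = UE.val ξ
    rw [← us_mul]
    simp_rw [inv_mul_cancel]
    exact us_one _
  right_inv ξ := by
    refine UE.eq ?_
    change us μ H g (us μ H (fun n => (g n)⁻¹) (UE.val ξ)) = UE.val ξ
    rw [← us_mul]
    simp_rw [mul_inv_cancel]
    exact us_one _
  norm_map' ξ := (us μ H g).norm_map (UE.val ξ)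

@[simp] theorem UE.val_sS (g : ℕ → G1) (ξ : UE μ H) : UE.val (UE.sS μ H g ξ) = us μ H g (UE.val ξ) := rfl

theorem EB.kp {c : ℝ} {x : BSeq (XL μ H)} (hx : EB c x) (g : ℕ → G1) :
    EB c (bseqS (bo_uni fun n => kp μ H (g n)) x) := by
  refine ⟨hx.1, fun n => ?_⟩
  filter_upwards [(measurePreserving_smul (g n)⁻¹ μ).quasiMeasurePreserving.ae (hx.2 n),
    kp_apply (g n) (x.1 n)] with z h1 h2
  change ‖Pool.Agent.Helper66.FR.kp μ H (g n) (x.1 n) z‖ ≤ _
  rw [h2]
  exact h1

theorem UE.sS_mk (g : ℕ → G1) (x : BSeq (XL μ H)) {c : ℝ} (hx : EB c x) :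
    UE.sS μ H g (UE.mk x hx) = UE.mk (bseqS (bo_uni fun n => kp μ H (g n)) x) (hx.kp g) :=
  UE.eq (us_mk g x)

theorem UE.sS_mul (g h : ℕ → G1) (ξ : UE μ H) :
    UE.sS μ H (fun n => g n * h n) ξ = UE.sS μ H g (UE.sS μ H h ξ) := UE.eq (us_mul g h _)

theorem UE.sS_one (ξ : UE μ H) : UE.sS μ H (fun _ => (1 : G1)) ξ = ξ := UE.eq (us_one _)

theorem UE.map_sS (T : H →L[ℂ] K) (g : ℕ → G1) (ξ : UE μ H) :
    UE.map μ T (UE.sS μ H g ξ) = UE.sS μ K g (UE.map μ T ξ) := UE.eq (uxm_us T g _)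

theorem UE.sS_P (g : ℕ → G1) {E : ℕ → Set X} (hE : ∀ n, MeasurableSet (E n)) (ξ : UE μ H) :
    UE.sS μ H g (UE.P μ H E ξ) = UE.P μ H (fun n => (fun x => (g n)⁻¹ • x) ⁻¹' E n) (UE.sS μ H g ξ) := by
  refine UE.eq ?_
  rw [UE.val_sS, UE.val_P hE, UE.val_P fun n => (measurable_const_smul _) (hE n), UE.val_sS, us_uxP g hE]

/-- The centraliser of a sequence. -/
abbrev cen (b : ℕ → G1) : Subgroup G1 := Subgroup.centralizer (Set.range b)

theorem mem_cen {b : ℕ → G1} {h : G1} : h ∈ cen b ↔ ∀ n, b n * h = h * b n := by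
  unfold cen
  rw [Subgroup.mem_centralizer_iff]
  exact ⟨fun h1 n => h1 _ ⟨n, rfl⟩, fun h1 g => by
    rintro ⟨n, rfl⟩
    exact h1 n⟩

/-- Shifts and projections on `UE μ H`. -/
noncomputable def xmU (μ : Measure X) [SMulInvariantMeasure G1 X μ] [IsProbabilityMeasure μ]
    (b : ℕ → G1) (H : Type) [NormedAddCommGroup H]
    [InnerProductSpace ℂ H] [CompleteSpace H] : XM (cen b) X (UE μ H) where
  S :=
    { toFun := fun h => UE.sS μ H fun _ => (h : G1)
      map_one' := by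
        ext ξ : 1
        exact UE.sS_one ξ
      map_mul' := fun g h => by
        ext ξ : 1
        exact UE.sS_mul (fun _ => (g : G1)) (fun _ => (h : G1)) ξ }
  px := pvE μ H (fun _ x => x) fun _ => MeasurePreserving.id μ
  py := pvE μ H (fun n x => (b n)⁻¹ • x) fun n => measurePreserving_smul _ μ
  comm A B hA hB ξ := by
    have hB' : ∀ n, MeasurableSet ((fun x => (b n)⁻¹ • x) ⁻¹' B) := fun n =>
      (measurable_const_smul _) hB
    change UE.P μ H (fun _ => A) (UE.P μ H (fun n => (fun x => (b n)⁻¹ • x) ⁻¹' B) ξ) =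
      UE.P μ H (fun n => (fun x => (b n)⁻¹ • x) ⁻¹' B) (UE.P μ H (fun _ => A) ξ)
    refine UE.eq ?_
    rw [UE.val_P fun _ => hA, UE.val_P hB', UE.val_P hB', UE.val_P fun _ => hA]
    exact ux_comm (BMS.ind fun _ => hA) (BMS.ind hB') _
  Sx h A hA ξ := by
    rw [pvE_apply]
    exact UE.sS_P _ (fun _ => hA) ξ
  Sy h A hA ξ := by
    have hA' : ∀ n, MeasurableSet ((fun x => (b n)⁻¹ • x) ⁻¹' A) := fun n =>
      (measurable_const_smul _) hA
    rw [pvE_apply]
    change UE.sS μ H (fun _ => (h : G1)) (UE.P μ H (fun n => (fun x => (b n)⁻¹ • x) ⁻¹' A) ξ) =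
      UE.P μ H (fun n => (fun x => (b n)⁻¹ • x) ⁻¹' ((fun x => h⁻¹ • x) ⁻¹' A))
        (UE.sS μ H (fun _ => (h : G1)) ξ)
    rw [UE.sS_P _ hA']
    have e : (fun n => (fun x => ((h : G1))⁻¹ • x) ⁻¹' ((fun x => (b n)⁻¹ • x) ⁻¹' A)) =
        fun n => (fun x => (b n)⁻¹ • x) ⁻¹' ((fun x => h⁻¹ • x) ⁻¹' A) := by
      funext n
      ext x
      have h1 : (b n)⁻¹ * ((h : G1))⁻¹ = ((h : G1))⁻¹ * (b n)⁻¹ := by
        rw [← mul_inv_rev, ← mul_inv_rev, mem_cen.1 h.2 n]
      change (b n)⁻¹ • ((h : G1))⁻¹ • x ∈ A ↔ ((h : G1))⁻¹ • (b n)⁻¹ • x ∈ A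
      rw [← mul_smul, ← mul_smul, h1]
    rw [e]

theorem xmU_S (b : ℕ → G1) (h : cen b) (ξ : UE μ H) :
    (xmU μ b H).S h ξ = UE.sS μ H (fun _ => (h : G1)) ξ := rfl

theorem xmU_px (b : ℕ → G1) (A : Set X) : (xmU μ b H).px.p A = UE.P μ H fun _ => A := rfl

theorem xmU_py (b : ℕ → G1) (A : Set X) :
    (xmU μ b H).py.p A = UE.P μ H fun n => (fun x => (b n)⁻¹ • x) ⁻¹' A := rfl

/-- Constant fields are morphisms. -/
theorem xmU_hom (b : ℕ → G1) (T : H →L[ℂ] K) : (xmU μ b H).Hom (xmU μ b K) (UE.map μ T) where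
  S h ξ := UE.map_sS T _ ξ
  x A hA ξ := by
    rw [xmU_px, xmU_px]
    exact UE.map_P T (fun _ => hA) ξ
  y A hA ξ := by
    rw [xmU_py, xmU_py]
    exact UE.map_P T (fun n => (measurable_const_smul _) hA) ξ

/-- Constant fields of commuting representations. -/
theorem xmU_mrep {G : Type} [Group G] (b : ℕ → G1) {A B : G →* (H ≃ₗᵢ[ℂ] H)} (hAB : Comm2 A B) :
    MRep (xmU μ b H) (UE.rep μ A) (UE.rep μ B) where
  comm2 g h ξ := by
    rw [UE.rep_apply, UE.rep_apply, UE.rep_apply, UE.rep_apply, ← UE.map_comp, ← UE.map_comp]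
    congr 2
    ext x
    exact hAB g h x
  hA g := xmU_hom b _
  hB g := xmU_hom b _

end Xm

end Pool.Agent.Helper66.FR
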