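import Pool.Agent.Helper66.FR.Zt2
import Pool.Agent.Helper66.FR.Tw
import Pool.Agent.Helper84.NI.ZA

/-!
# Project FR (MP_0f6f3f_an): the vectors `vec b` and the operators `opL`, `opR`
-/

set_option autoImplicit false
set_option linter.unusedSectionVars false

open MeasureTheory Filter Topology
open scoped ComplexConjugate ENNReal

namespace Pool.Agent.Helper66.FR

open Pool.Agent.Helper84.NI Pool.Agent.Helper84.FR Pool.Agent.Helper84.GVN

section Tw

variable {G1 X G Λ : Type} [Group G1] [MeasurableSpace X] {μ : Measure X} [MulAction G1 X]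
  [MeasurableConstSMul G1 X] [SMulInvariantMeasure G1 X μ] [IsProbabilityMeasure μ]
  [Group G] [Group Λ] [Countable Λ] {E : Emb Λ G} {α β : ℕ → X → Λ}

/-- The cocycle restricted to a subgroup. -/
def cres (a : Cocy G1 X Λ) (S : Subgroup G1) : Cocy S X Λ where
  a h x := a.a h x
  meas h := a.meas h
  mul g h x := a.mul g h x

theorem cres_a (a : Cocy G1 X Λ) (S : Subgroup G1) (h : S) (x : X) : (cres a S).a h x = a.a h x := rfl

theorem hom_rep (b : ℕ → G1) (A : G →* (L2 G ≃ₗᵢ[ℂ] L2 G)) (g : G) :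
    (xmU μ b (L2 G)).Hom (xmU μ b (L2 G)) ((UE.rep μ A g).toContinuousLinearEquiv :
      UE μ (L2 G) →L[ℂ] UE μ (L2 G)) := xmU_hom b _

/-- Twisted products over the position. -/
theorem twx_zt (b : ℕ → G1) (hα : ∀ n, Mea (α n)) {c : X → Λ} (hc : Mea c) :
    tw (xmU μ b (L2 G)).px (CRep.ext (AE μ G) E) c (zt μ E α) = zt μ E fun n x => c x * α n x := by
  have hP : PCom (xmU μ b (L2 G)).px (CRep.ext (AE μ G) E) := (UC.ext (hom_rep b (lamR G)) E).x
  have hca : ∀ n, Mea fun x => c x * α n x := fun n => hc.mul (hα n)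
  have h1 := hasSum_tw hP hc (zt μ E α)
  have h2 := (xmU μ b (L2 G)).px.sum Λ c hc (zt μ E fun n x => c x * α n x)
  have h3 : (fun l => (xmU μ b (L2 G)).px.p (c ⁻¹' {l}) ((CRep.ext (AE μ G) E).U l (zt μ E α))) =
      fun l => (xmU μ b (L2 G)).px.p (c ⁻¹' {l}) (zt μ E fun n x => c x * α n x) := by
    funext l
    change (xmU μ b (L2 G)).px.p (c ⁻¹' {l}) (ext (AE μ G) E l (zt μ E α)) = _
    rw [ext_A_zt hα, xmU_px]
    refine P_zt_congr (fun n => Mea.const_mul (hα n) l) hca (fun _ => hc l) fun n x hx => ?_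
    have h4 : c x = l := hx
    rw [h4]
  rw [h3] at h1
  exact h1.unique h2

/-- Twisted products over the source point. -/
theorem twy_zt (b : ℕ → G1) (hα : ∀ n, Mea (α n)) {c : X → Λ} (hc : Mea c) :
    tw (xmU μ b (L2 G)).py (CRep.ext (BE μ G) E.conj) c (zt μ E α) =
      zt μ E fun n x => α n x * (c ((b n)⁻¹ • x))⁻¹ := by
  have hP : PCom (xmU μ b (L2 G)).py (CRep.ext (BE μ G) E.conj) := (UC.ext (hom_rep b (rhoR G)) E.conj).y
  have hcb : ∀ n, Mea fun x => c ((b n)⁻¹ • x) := fun n => hc.comp_smul _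
  have hca : ∀ n, Mea fun x => α n x * (c ((b n)⁻¹ • x))⁻¹ := fun n => (hα n).mul (hcb n).inv
  have h1 := hasSum_tw hP hc (zt μ E α)
  have h2 := (xmU μ b (L2 G)).py.sum Λ c hc (zt μ E fun n x => α n x * (c ((b n)⁻¹ • x))⁻¹)
  have h3 : (fun l => (xmU μ b (L2 G)).py.p (c ⁻¹' {l}) ((CRep.ext (BE μ G) E.conj).U l (zt μ E α))) =
      fun l => (xmU μ b (L2 G)).py.p (c ⁻¹' {l}) (zt μ E fun n x => α n x * (c ((b n)⁻¹ • x))⁻¹) := by
    funext l
    change (xmU μ b (L2 G)).py.p (c ⁻¹' {l}) (ext (BE μ G) E.conj l (zt μ E α)) = _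
    rw [ext_B_zt hα, xmU_py]
    refine P_zt_congr (fun n => Mea.mul_const (hα n) l⁻¹) hca
      (fun n => (measurable_const_smul _) (hc l)) fun n x hx => ?_
    have h4 : c ((b n)⁻¹ • x) = l := hx
    rw [h4]
  rw [h3] at h1
  exact h1.unique h2

theorem kp_zv (g : G1) {c : X → Λ} (hc : Mea c) :
    kp μ (L2 G) g (zv μ E c) = zv μ E fun x => c (g⁻¹ • x) :=
  kp_sv (sm_mea hc fun l => cf (E.U l)) (fun x => (norm_cf (E.U (c x))).le) g

theorem sS_zt (g : ℕ → G1) (hα : ∀ n, Mea (α n)) :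
    UE.sS μ (L2 G) g (zt μ E α) = zt μ E fun n x => α n ((g n)⁻¹ • x) := by
  unfold zt
  rw [UE.sS_mk]
  refine UE.mk_congr _ _ fun n => ?_
  change ∀ᵐ z ∂μ, kp μ (L2 G) (g n) (zv μ E (α n)) z = zv μ E (fun x => α n ((g n)⁻¹ • x)) z
  rw [kp_zv (g n) (hα n)]
  exact ae_of_all _ fun _ => rfl

end Tw

section Vec

variable {G1 X G Λ : Type} [Group G1] [MeasurableSpace X] {μ : Measure X} [MulAction G1 X]
  [MeasurableConstSMul G1 X] [SMulInvariantMeasure G1 X μ] [IsProbabilityMeasure μ]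
  [Group G] [Group Λ] [Countable Λ] {E : Emb Λ G} {a : Cocy G1 X Λ} {b : ℕ → G1}

/-- The function `x ↦ U_{a(g, g⁻¹ x)} δ₁`. -/
noncomputable def zx (μ : Measure X) (a : Cocy G1 X Λ) (E : Emb Λ G) (g : G1) : XL μ (L2 G) :=
  sv μ fun x => cf (E.U (a.a g (g⁻¹ • x)))

theorem zx_eq (g : G1) : zx μ a E g = zv μ E fun x => a.a g (g⁻¹ • x) := rfl

theorem mea_a (g h : G1) : Mea fun x => a.a g (h • x) := (a.meas g).comp_smul h

theorem norm_zx (g : G1) : ‖zx μ a E g‖ = 1 := norm_zv (mea_a g g⁻¹)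

theorem zx_bound (g : G1) : ∀ᵐ x ∂μ, ‖zx μ a E g x‖ ≤ 1 :=
  sv_bound zero_le_one fun x => (norm_cf (E.U (a.a g (g⁻¹ • x)))).le

/-- The class of the functions `x ↦ U_{a(b_n, b_n⁻¹ x)} δ₁`. -/
noncomputable def vec (μ : Measure X) [IsProbabilityMeasure μ] (a : Cocy G1 X Λ) (E : Emb Λ G)
    (b : ℕ → G1) : UE μ (L2 G) := zt μ E fun n x => a.a (b n) ((b n)⁻¹ • x)

theorem vec_eq (b : ℕ → G1) : vec μ a E b = UE.mk (⟨fun n => zx μ a E (b n), 1, fun n => (norm_zx (b n)).le⟩ :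
    BSeq (XL μ (L2 G))) (c := 1) ⟨zero_le_one, fun n => zx_bound (b n)⟩ := rfl

theorem norm_vec (b : ℕ → G1) : ‖vec μ a E b‖ = 1 := norm_zt fun _ => mea_a _ _

theorem bdd_A_vec (b : ℕ → G1) : Bdd (AE μ G) 1 (vec μ a E b) := bdd_A fun _ => mea_a _ _

theorem bdd_B_vec (b : ℕ → G1) : Bdd (BE μ G) 1 (vec μ a E b) := bdd_B fun _ => mea_a _ _

/-- The left operators on `vec b`. -/
theorem opL_vec (h : cen b) :
    opL (xmU μ b (L2 G)) (cres a (cen b)) (CRep.ext (AE μ G) E) h (vec μ a E b) =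
      vec μ a E fun n => (h : G1) * b n := by
  rw [opL_apply, xmU_S]
  unfold vec
  rw [twx_zt b (fun _ => mea_a _ _) ((cres a (cen b)).meas h),
    sS_zt _ fun n => ((cres a (cen b)).meas h).mul (mea_a _ _)]
  congr 1
  funext n x
  rw [cres_a]
  have h1 := a.mul (h : G1) (b n) ((b n)⁻¹ • (h : G1)⁻¹ • x)
  rw [smul_inv_smul] at h1
  rw [← h1, mul_inv_rev, mul_smul]

/-- The right operators on `vec b`. -/
theorem opR_vec (h : cen b) :
    opR (xmU μ b (L2 G)) (cres a (cen b)) (CRep.ext (BE μ G) E.conj) h (vec μ a E b) =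
      vec μ a E fun n => b n * (h : G1)⁻¹ := by
  rw [opR_apply]
  unfold vec
  rw [twy_zt b (fun _ => mea_a _ _) ((cres a (cen b)).meas h)]
  congr 1
  funext n x
  rw [cres_a]
  have h1 := a.mul (b n) (h : G1)⁻¹ ((h : G1) • (b n)⁻¹ • x)
  rw [inv_smul_smul] at h1
  have h2 := a.inv (h : G1) ((h : G1) • (b n)⁻¹ • x)
  rw [inv_smul_smul] at h2
  rw [h2] at h1
  rw [← h1]
  congr 1
  rw [mul_inv_rev, inv_inv, mul_smul]

/-- `vec b` is central for the centraliser of `b`. -/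
theorem vec_central (h : cen b) :
    opL (xmU μ b (L2 G)) (cres a (cen b)) (CRep.ext (AE μ G) E) h⁻¹ (vec μ a E b) =
      opR (xmU μ b (L2 G)) (cres a (cen b)) (CRep.ext (BE μ G) E.conj) h (vec μ a E b) := by
  rw [opL_vec, opR_vec]
  congr 1
  funext n
  have h1 := mem_cen.1 (h⁻¹).2 n
  exact h1.symm

/-- The mass of `vec b` over a set of positions. -/
theorem norm_px_vec {D : Set X} (hD : MeasurableSet D) :
    ‖(xmU μ b (L2 G)).px.p D (vec μ a E b)‖ ^ 2 ≤ (μ D).toReal := by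
  rw [xmU_px]
  have h := UE.norm_P_small (μ := μ) (D := fun _ => D) (fun _ => hD)
    (ztS_eb (E := E) fun n x => a.a (b n) ((b n)⁻¹ • x)) (Real.sqrt_nonneg (μ D).toReal) (fun _ => by
      rw [Real.sq_sqrt ENNReal.toReal_nonneg]
      rfl)
  rw [one_mul] at h
  have h2 := pow_le_pow_left₀ (norm_nonneg _) h 2
  rw [Real.sq_sqrt ENNReal.toReal_nonneg] at h2
  exact h2

/-- The boundedness of `vec b` over sets of source points. -/
theorem bddX_vec {D : Set X} (hD : MeasurableSet D) :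
    Bdd (BE μ G) (Real.sqrt (μ D).toReal) ((xmU μ b (L2 G)).py.p D (vec μ a E b)) := by
  rw [xmU_py]
  refine bdd_B_P (fun _ => mea_a _ _) (fun n => (measurable_const_smul _) hD) (Real.sqrt_nonneg _) fun n => ?_
  rw [Real.sq_sqrt ENNReal.toReal_nonneg, measureReal_def,
    (measurePreserving_smul (b n)⁻¹ μ).measure_preimage hD.nullMeasurableSet]

end Vec

end Pool.Agent.Helper66.FR
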