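import Pool.Agent.Helper84.NI.UP

/-!
# Project FR (MP_0f6f3f_an): Hilbert space valued `L²` spaces

`XL μ H = L²(X, μ; H)`; constant fields of operators (`cl`), multiplication by bounded measurable
functions (`mx`), composition with measure preserving maps (`sh`).
-/

set_option autoImplicit false

open MeasureTheory Filter Topology
open scoped ComplexConjugate ENNReal

namespace Pool.Agent.Helper66.FR

section XL

variable {X : Type} [MeasurableSpace X] {μ : Measure X}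
variable {H K L : Type} [NormedAddCommGroup H] [InnerProductSpace ℂ H]
  [NormedAddCommGroup K] [InnerProductSpace ℂ K] [NormedAddCommGroup L] [InnerProductSpace ℂ L]

/-- `L²(X; H)`. -/
abbrev XL (μ : Measure X) (H : Type) [NormedAddCommGroup H] : Type := Lp H 2 μ

omit [InnerProductSpace ℂ H] in
theorem xl_ext {f g : XL μ H} (h : ∀ᵐ x ∂μ, f x = g x) : f = g := Lp.ext h

theorem xl_inner (f g : XL μ H) : inner ℂ f g = ∫ x, inner ℂ (f x) (g x) ∂μ := L2.inner_def f g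

theorem xl_int_inner (f g : XL μ H) : Integrable (fun x => inner ℂ (f x) (g x)) μ :=
  L2.integrable_inner f g

theorem xl_int (f : XL μ H) : Integrable (fun x => ‖f x‖ ^ 2) μ := by
  have h := (xl_int_inner f f).re
  refine h.congr (Filter.Eventually.of_forall fun x => ?_)
  exact inner_self_eq_norm_sq (𝕜 := ℂ) (f x)

theorem xl_norm_sq (f : XL μ H) : ‖f‖ ^ 2 = ∫ x, ‖f x‖ ^ 2 ∂μ := by
  rw [norm_sq_eq_re_inner (𝕜 := ℂ) f, xl_inner]
  have h := integral_re (xl_int_inner f f) (𝕜 := ℂ)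
  rw [← h]
  refine integral_congr_ae (Filter.Eventually.of_forall fun x => ?_)
  exact inner_self_eq_norm_sq (𝕜 := ℂ) (f x)

/-- The constant field of operators `T`. -/
noncomputable def cl (μ : Measure X) (T : H →L[ℂ] K) : XL μ H →L[ℂ] XL μ K := T.compLpL 2 μ

theorem cl_apply (T : H →L[ℂ] K) (f : XL μ H) : ∀ᵐ x ∂μ, cl μ T f x = T (f x) :=
  T.coeFn_compLpL f

theorem cl_comp (S : K →L[ℂ] L) (T : H →L[ℂ] K) (f : XL μ H) : cl μ (S.comp T) f = cl μ S (cl μ T f) := by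
  refine xl_ext ?_
  filter_upwards [cl_apply (S.comp T) f, cl_apply T f, cl_apply S (cl μ T f)] with x h1 h2 h3
  rw [h1, h3, h2]
  rfl

theorem cl_id (f : XL μ H) : cl μ (ContinuousLinearMap.id ℂ H) f = f := by
  refine xl_ext ?_
  filter_upwards [cl_apply (ContinuousLinearMap.id ℂ H) f] with x h1
  rw [h1]
  rfl

theorem cl_add (S T : H →L[ℂ] K) : cl μ (S + T) = cl μ S + cl μ T :=
  ContinuousLinearMap.add_compLpL S T

theorem cl_smul (c : ℂ) (T : H →L[ℂ] K) : cl μ (c • T) = c • cl μ T :=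
  ContinuousLinearMap.smul_compLpL c T

theorem cl_zero : cl μ (0 : H →L[ℂ] K) = 0 := by
  have h := cl_smul (μ := μ) 0 (0 : H →L[ℂ] K)
  rwa [zero_smul, zero_smul] at h

theorem cl_sub (S T : H →L[ℂ] K) : cl μ (S - T) = cl μ S - cl μ T := by
  have h : S - T = S + (-1 : ℂ) • T := by
    rw [neg_one_smul, sub_eq_add_neg]
  rw [h, cl_add, cl_smul, neg_one_smul, sub_eq_add_neg]

theorem cl_sum {ι : Type} (s : Finset ι) (T : ι → H →L[ℂ] K) :
    cl μ (∑ i ∈ s, T i) = ∑ i ∈ s, cl μ (T i) := by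
  classical
  induction s using Finset.induction_on with
  | empty => rw [Finset.sum_empty, Finset.sum_empty, cl_zero]
  | insert a s ha ih => rw [Finset.sum_insert ha, Finset.sum_insert ha, cl_add, ih]

/-- Pointwise inequalities between sums of squares of norms can be integrated. -/
theorem xl_sum_sq_le {ι κ : Type} (s : Finset ι) (t : Finset κ) {f : ι → XL μ K} {g : κ → XL μ L}
    (h : ∀ᵐ x ∂μ, ∑ i ∈ s, ‖f i x‖ ^ 2 ≤ ∑ j ∈ t, ‖g j x‖ ^ 2) :
    ∑ i ∈ s, ‖f i‖ ^ 2 ≤ ∑ j ∈ t, ‖g j‖ ^ 2 := by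
  simp_rw [xl_norm_sq]
  rw [← integral_finsetSum s fun i _ => xl_int (f i), ← integral_finsetSum t fun i _ => xl_int (g i)]
  exact integral_mono_ae (integrable_finsetSum s fun i _ => xl_int (f i))
    (integrable_finsetSum t fun i _ => xl_int (g i)) h

theorem xl_norm_le {f : XL μ K} {g : XL μ L} {C : ℝ} (hC : 0 ≤ C) (h : ∀ᵐ x ∂μ, ‖f x‖ ≤ C * ‖g x‖) :
    ‖f‖ ≤ C * ‖g‖ := by
  have h1 : ∀ᵐ x ∂μ, ‖f x‖ ^ 2 ≤ C ^ 2 * ‖g x‖ ^ 2 := by
    filter_upwards [h] with x hx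
    rw [← mul_pow]
    exact pow_le_pow_left₀ (norm_nonneg _) hx 2
  have h2 : ‖f‖ ^ 2 ≤ (C * ‖g‖) ^ 2 := by
    rw [mul_pow, xl_norm_sq, xl_norm_sq, ← integral_const_mul]
    exact integral_mono_ae (xl_int f) ((xl_int g).const_mul _) h1
  exact le_of_sq_le_sq h2 (mul_nonneg hC (norm_nonneg _))

theorem cl_sum_sq_le {ι : Type} (s : Finset ι) (T : ι → H →L[ℂ] K) {C : ℝ}
    (hT : ∀ x, ∑ i ∈ s, ‖T i x‖ ^ 2 ≤ C * ‖x‖ ^ 2) (f : XL μ H) :
    ∑ i ∈ s, ‖cl μ (T i) f‖ ^ 2 ≤ C * ‖f‖ ^ 2 := by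
  simp_rw [xl_norm_sq]
  rw [← integral_finsetSum s fun i _ => xl_int (cl μ (T i) f), ← integral_const_mul]
  refine integral_mono_ae (integrable_finsetSum s fun i _ => xl_int (cl μ (T i) f))
    ((xl_int f).const_mul _) ?_
  have h : ∀ᵐ x ∂μ, ∀ i ∈ s, cl μ (T i) f x = T i (f x) :=
    (Finset.eventually_all s).2 fun i _ => cl_apply (T i) f
  filter_upwards [h] with x hx
  rw [Finset.sum_congr rfl fun i hi => by rw [hx i hi]]
  exact hT (f x)

theorem cl_sum_sq_eq {ι : Type} (s : Finset ι) (T : ι → H →L[ℂ] K)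
    (hT : ∀ x, ∑ i ∈ s, ‖T i x‖ ^ 2 = ‖x‖ ^ 2) (f : XL μ H) :
    ∑ i ∈ s, ‖cl μ (T i) f‖ ^ 2 = ‖f‖ ^ 2 := by
  simp_rw [xl_norm_sq]
  rw [← integral_finsetSum s fun i _ => xl_int (cl μ (T i) f)]
  refine integral_congr_ae ?_
  have h : ∀ᵐ x ∂μ, ∀ i ∈ s, cl μ (T i) f x = T i (f x) :=
    (Finset.eventually_all s).2 fun i _ => cl_apply (T i) f
  filter_upwards [h] with x hx
  rw [Finset.sum_congr rfl fun i hi => by rw [hx i hi]]
  exact hT (f x)

theorem norm_cl_le_of {T : H →L[ℂ] K} {C : ℝ} (hC : 0 ≤ C) (hT : ∀ x, ‖T x‖ ≤ C * ‖x‖) (f : XL μ H) :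
    ‖cl μ T f‖ ≤ C * ‖f‖ := by
  refine xl_norm_le hC ?_
  filter_upwards [cl_apply T f] with x hx
  rw [hx]
  exact hT _

theorem norm_cl_le (T : H →L[ℂ] K) (f : XL μ H) : ‖cl μ T f‖ ≤ ‖T‖ * ‖f‖ :=
  norm_cl_le_of (norm_nonneg _) T.le_opNorm f

theorem opNorm_cl_le (T : H →L[ℂ] K) : ‖cl μ T‖ ≤ ‖T‖ :=
  ContinuousLinearMap.opNorm_le_bound _ (norm_nonneg _) (norm_cl_le T)

theorem inner_cl [CompleteSpace H] [CompleteSpace K] (T : H →L[ℂ] K) (f : XL μ H) (g : XL μ K) :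
    inner ℂ (cl μ T f) g = inner ℂ f (cl μ (ContinuousLinearMap.adjoint T) g) := by
  rw [xl_inner, xl_inner]
  refine integral_congr_ae ?_
  filter_upwards [cl_apply T f, cl_apply (ContinuousLinearMap.adjoint T) g] with x h1 h2
  rw [h1, h2, ContinuousLinearMap.adjoint_inner_right]

theorem adjoint_cl [CompleteSpace H] [CompleteSpace K] (T : H →L[ℂ] K) :
    ContinuousLinearMap.adjoint (cl μ T) = cl μ (ContinuousLinearMap.adjoint T) := by
  symm
  rw [ContinuousLinearMap.eq_adjoint_iff]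
  intro f g
  have h := inner_cl (μ := μ) (ContinuousLinearMap.adjoint T) f g
  rwa [ContinuousLinearMap.adjoint_adjoint] at h

/-- Positivity passes to constant fields. -/
theorem cl_re_inner_nonneg {T S : H →L[ℂ] K} (h : ∀ x, 0 ≤ (inner ℂ (S x) (T x)).re) (f : XL μ H) :
    0 ≤ (inner ℂ (cl μ S f) (cl μ T f)).re := by
  rw [xl_inner]
  have h1 := integral_re (xl_int_inner (cl μ S f) (cl μ T f)) (𝕜 := ℂ)
  have h2 : (∫ x, inner ℂ (cl μ S f x) (cl μ T f x) ∂μ).re =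
    ∫ x, (inner ℂ (cl μ S f x) (cl μ T f x)).re ∂μ := h1.symm
  rw [h2]
  refine integral_nonneg_of_ae ?_
  filter_upwards [cl_apply T f, cl_apply S f] with x h1 h2
  rw [h1, h2]
  exact h _

/-- The constant field of unitaries. -/
noncomputable def clU (μ : Measure X) (T : H ≃ₗᵢ[ℂ] K) : XL μ H ≃ₗᵢ[ℂ] XL μ K where
  toFun := cl μ (T.toContinuousLinearEquiv : H →L[ℂ] K)
  invFun := cl μ (T.symm.toContinuousLinearEquiv : K →L[ℂ] H)
  map_add' := _root_.map_add _
  map_smul' := _root_.map_smul _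
  left_inv f := by
    rw [← cl_comp]
    convert! cl_id f using 2
    ext x
    simp
  right_inv f := by
    rw [← cl_comp]
    convert! cl_id f using 2
    ext x
    simp
  norm_map' f := by
    change ‖cl μ (T.toContinuousLinearEquiv : H →L[ℂ] K) f‖ = ‖f‖
    have h := cl_sum_sq_eq {()} (fun _ => (T.toContinuousLinearEquiv : H →L[ℂ] K)) (by
      intro x
      simp) f
    simp only [Finset.sum_singleton] at h
    exact (sq_eq_sq₀ (norm_nonneg _) (norm_nonneg _)).1 h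

theorem clU_apply (T : H ≃ₗᵢ[ℂ] K) (f : XL μ H) :
    clU μ T f = cl μ (T.toContinuousLinearEquiv : H →L[ℂ] K) f := rfl

theorem clU_apply_ae (T : H ≃ₗᵢ[ℂ] K) (f : XL μ H) : ∀ᵐ x ∂μ, clU μ T f x = T (f x) :=
  cl_apply _ f

/-- The constant field of isometries. -/
noncomputable def clI (μ : Measure X) (T : H →ₗᵢ[ℂ] K) : XL μ H →ₗᵢ[ℂ] XL μ K where
  toLinearMap := (cl μ T.toContinuousLinearMap).toLinearMap
  norm_map' f := by
    change ‖cl μ T.toContinuousLinearMap f‖ = ‖f‖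
    have h := cl_sum_sq_eq {()} (fun _ => T.toContinuousLinearMap) (by
      intro x
      simp) f
    simp only [Finset.sum_singleton] at h
    exact (sq_eq_sq₀ (norm_nonneg _) (norm_nonneg _)).1 h

theorem clI_apply (T : H →ₗᵢ[ℂ] K) (f : XL μ H) : clI μ T f = cl μ T.toContinuousLinearMap f := rfl

/-- The constant field of a unitary representation. -/
noncomputable def clR {G : Type} [Group G] (μ : Measure X) (A : G →* (H ≃ₗᵢ[ℂ] H)) :
    G →* (XL μ H ≃ₗᵢ[ℂ] XL μ H) where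
  toFun g := clU μ (A g)
  map_one' := by
    ext1 f
    rw [clU_apply, map_one]
    exact cl_id f
  map_mul' g h := by
    ext1 f
    rw [LinearIsometryEquiv.coe_mul, Function.comp_apply, clU_apply, clU_apply, clU_apply, ← cl_comp,
      map_mul]
    rfl

theorem clR_apply {G : Type} [Group G] (A : G →* (H ≃ₗᵢ[ℂ] H)) (g : G) (f : XL μ H) :
    clR μ A g f = cl μ ((A g).toContinuousLinearEquiv : H →L[ℂ] H) f := rfl

end XL

end Pool.Agent.Helper66.FR
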