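import Pool.Agent.Helper66.FR.XP1

/-!
# Project FR (MP_0f6f3f_an): multiplication operators and shifts on `L²(X; H)`
-/

set_option autoImplicit false

open MeasureTheory Filter Topology
open scoped ComplexConjugate ENNReal

namespace Pool.Agent.Helper66.FR

section Mx

variable {X : Type} [MeasurableSpace X] {μ : Measure X}
variable {H K : Type} [NormedAddCommGroup H] [InnerProductSpace ℂ H]
  [NormedAddCommGroup K] [InnerProductSpace ℂ K]

/-- A measurable function bounded by `C`. -/
def BM (C : ℝ) (p : X → ℂ) : Prop := Measurable p ∧ ∀ x, ‖p x‖ ≤ C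

theorem BM.mul {C D : ℝ} {p q : X → ℂ} (hp : BM C p) (hq : BM D q) : BM (C * D) (fun x => p x * q x) := by
  refine ⟨hp.1.mul hq.1, fun x => ?_⟩
  rw [norm_mul]
  exact mul_le_mul (hp.2 x) (hq.2 x) (norm_nonneg _) ((norm_nonneg _).trans (hp.2 x))

theorem BM.add {C D : ℝ} {p q : X → ℂ} (hp : BM C p) (hq : BM D q) : BM (C + D) (fun x => p x + q x) :=
  ⟨hp.1.add hq.1, fun x => (norm_add_le _ _).trans (add_le_add (hp.2 x) (hq.2 x))⟩

theorem BM.conj {C : ℝ} {p : X → ℂ} (hp : BM C p) : BM C (fun x => conj (p x)) :=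
  ⟨Complex.continuous_conj.measurable.comp hp.1, fun x => by rw [RCLike.norm_conj]; exact hp.2 x⟩

theorem BM.comp {C : ℝ} {p : X → ℂ} (hp : BM C p) {e : X → X} (he : Measurable e) : BM C (fun x => p (e x)) :=
  ⟨hp.1.comp he, fun _ => hp.2 _⟩

theorem BM.mono {C D : ℝ} {p : X → ℂ} (hp : BM C p) (h : C ≤ D) : BM D p :=
  ⟨hp.1, fun x => (hp.2 x).trans h⟩

theorem BM.const (c : ℂ) : BM ‖c‖ (fun _ : X => c) := ⟨measurable_const, fun _ => le_rfl⟩

theorem BM.ind {E : Set X} (hE : MeasurableSet E) : BM 1 (E.indicator fun _ => (1 : ℂ)) := by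
  refine ⟨measurable_const.indicator hE, fun x => ?_⟩
  by_cases h : x ∈ E
  · rw [Set.indicator_of_mem h, norm_one]
  · rw [Set.indicator_of_notMem h, norm_zero]
    exact zero_le_one

omit [InnerProductSpace ℂ H] in
theorem memLp_smul [NormedSpace ℂ H] {C : ℝ} {p : X → ℂ} (hp : BM C p) (f : XL μ H) :
    MemLp (fun x => p x • f x) 2 μ :=
  (Lp.memLp f).smul (memLp_top_of_bound hp.1.aestronglyMeasurable C (ae_of_all _ hp.2))

open Classical in
/-- Multiplication by a bounded measurable function (zero if the function is not of this kind). -/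
noncomputable def mx (μ : Measure X) (H : Type) [NormedAddCommGroup H] [InnerProductSpace ℂ H]
    (p : X → ℂ) : XL μ H →L[ℂ] XL μ H :=
  if h : ∃ C, BM C p then
    LinearMap.mkContinuous
      { toFun := fun f => (memLp_smul h.choose_spec f).toLp _
        map_add' := fun f g => by
          refine xl_ext ?_
          filter_upwards [(memLp_smul h.choose_spec (f + g)).coeFn_toLp,
            (memLp_smul h.choose_spec f).coeFn_toLp, (memLp_smul h.choose_spec g).coeFn_toLp,
            Lp.coeFn_add ((memLp_smul h.choose_spec f).toLp _) ((memLp_smul h.choose_spec g).toLp _),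
            Lp.coeFn_add f g] with x h1 h2 h3 h4 h5
          rw [h1, h4, Pi.add_apply, h2, h3, h5, Pi.add_apply, smul_add]
        map_smul' := fun c f => by
          refine xl_ext ?_
          filter_upwards [(memLp_smul h.choose_spec (c • f)).coeFn_toLp,
            (memLp_smul h.choose_spec f).coeFn_toLp,
            Lp.coeFn_smul c ((memLp_smul h.choose_spec f).toLp _), Lp.coeFn_smul c f] with x h1 h2 h4 h5
          rw [h1, RingHom.id_apply, h4, Pi.smul_apply, h2, h5, Pi.smul_apply, smul_comm] }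
      (max h.choose 0) (by
        intro f
        refine xl_norm_le (le_max_right _ _) ?_
        filter_upwards [(memLp_smul h.choose_spec f).coeFn_toLp] with x h1
        change ‖((memLp_smul h.choose_spec f).toLp _ : XL μ H) x‖ ≤ _
        rw [h1, norm_smul]
        exact mul_le_mul_of_nonneg_right ((h.choose_spec.2 x).trans (le_max_left _ _)) (norm_nonneg _))
  else 0

theorem mx_apply {C : ℝ} {p : X → ℂ} (hp : BM C p) (f : XL μ H) : ∀ᵐ x ∂μ, mx μ H p f x = p x • f x := by
  have h : ∃ C, BM C p := ⟨C, hp⟩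
  unfold mx
  rw [dif_pos h]
  exact (memLp_smul h.choose_spec f).coeFn_toLp

theorem norm_mx_le {C : ℝ} (hC : 0 ≤ C) {p : X → ℂ} (hp : BM C p) (f : XL μ H) :
    ‖mx μ H p f‖ ≤ C * ‖f‖ := by
  refine xl_norm_le hC ?_
  filter_upwards [mx_apply hp f] with x hx
  rw [hx, norm_smul]
  exact mul_le_mul_of_nonneg_right (hp.2 x) (norm_nonneg _)

theorem mx_mul {C D : ℝ} {p q : X → ℂ} (hp : BM C p) (hq : BM D q) (f : XL μ H) :
    mx μ H p (mx μ H q f) = mx μ H (fun x => p x * q x) f := by
  refine xl_ext ?_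
  filter_upwards [mx_apply hp (mx μ H q f), mx_apply hq f, mx_apply (hp.mul hq) f] with x h1 h2 h3
  rw [h1, h2, h3, mul_smul]

theorem mx_comm {C D : ℝ} {p q : X → ℂ} (hp : BM C p) (hq : BM D q) (f : XL μ H) :
    mx μ H p (mx μ H q f) = mx μ H q (mx μ H p f) := by
  rw [mx_mul hp hq, mx_mul hq hp]
  simp_rw [mul_comm]

theorem mx_add {C D : ℝ} {p q : X → ℂ} (hp : BM C p) (hq : BM D q) (f : XL μ H) :
    mx μ H (fun x => p x + q x) f = mx μ H p f + mx μ H q f := by
  refine xl_ext ?_
  filter_upwards [mx_apply hp f, mx_apply hq f, mx_apply (hp.add hq) f,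
    Lp.coeFn_add (mx μ H p f) (mx μ H q f)] with x h1 h2 h3 h4
  rw [h3, h4, Pi.add_apply, h1, h2, add_smul]

theorem mx_one (f : XL μ H) : mx μ H (fun _ => 1) f = f := by
  refine xl_ext ?_
  filter_upwards [mx_apply (BM.const 1) f] with x h1
  rw [h1, one_smul]

theorem mx_const (c : ℂ) (f : XL μ H) : mx μ H (fun _ => c) f = c • f := by
  refine xl_ext ?_
  filter_upwards [mx_apply (BM.const c) f, Lp.coeFn_smul c f] with x h1 h2
  rw [h1, h2, Pi.smul_apply]

theorem mx_congr {C D : ℝ} {p q : X → ℂ} (hp : BM C p) (hq : BM D q) (h : ∀ᵐ x ∂μ, p x = q x)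
    (f : XL μ H) : mx μ H p f = mx μ H q f := by
  refine xl_ext ?_
  filter_upwards [mx_apply hp f, mx_apply hq f, h] with x h1 h2 h3
  rw [h1, h2, h3]

theorem cl_mx (T : H →L[ℂ] K) {C : ℝ} {p : X → ℂ} (hp : BM C p) (f : XL μ H) :
    cl μ T (mx μ H p f) = mx μ K p (cl μ T f) := by
  refine xl_ext ?_
  filter_upwards [cl_apply T (mx μ H p f), cl_apply T f, mx_apply hp f, mx_apply hp (cl μ T f)]
    with x h1 h2 h3 h4
  rw [h1, h3, h4, h2, map_smul]

theorem inner_mx {C : ℝ} {p : X → ℂ} (hp : BM C p) (f g : XL μ H) :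
    inner ℂ (mx μ H p f) g = inner ℂ f (mx μ H (fun x => conj (p x)) g) := by
  rw [xl_inner, xl_inner]
  refine integral_congr_ae ?_
  filter_upwards [mx_apply hp f, mx_apply hp.conj g] with x h1 h2
  rw [h1, h2, inner_smul_left, inner_smul_right]

/-- Composition with a measure preserving map. -/
noncomputable def sh {e : X → X} (he : MeasurePreserving e μ μ) : XL μ H →ₗᵢ[ℂ] XL μ H :=
  Lp.compMeasurePreservingₗᵢ ℂ e he

theorem sh_apply {e : X → X} (he : MeasurePreserving e μ μ) (f : XL μ H) :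
    ∀ᵐ x ∂μ, sh he f x = f (e x) :=
  Lp.coeFn_compMeasurePreserving f he

theorem sh_mx {e : X → X} (he : MeasurePreserving e μ μ) {C : ℝ} {p : X → ℂ} (hp : BM C p)
    (f : XL μ H) : sh he (mx μ H p f) = mx μ H (fun x => p (e x)) (sh he f) := by
  refine xl_ext ?_
  filter_upwards [sh_apply he (mx μ H p f), sh_apply he f, mx_apply (hp.comp he.measurable) (sh he f),
    he.quasiMeasurePreserving.ae (mx_apply hp f)] with x h1 h2 h3 h4
  rw [h1, h4, h3, h2]

theorem cl_sh (T : H →L[ℂ] K) {e : X → X} (he : MeasurePreserving e μ μ) (f : XL μ H) :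
    cl μ T (sh he f) = sh he (cl μ T f) := by
  refine xl_ext ?_
  filter_upwards [cl_apply T (sh he f), sh_apply he f, sh_apply he (cl μ T f),
    he.quasiMeasurePreserving.ae (cl_apply T f)] with x h1 h2 h3 h4
  rw [h1, h2, h3, h4]

theorem sh_sh {e e' : X → X} (he : MeasurePreserving e μ μ) (he' : MeasurePreserving e' μ μ)
    {e'' : X → X} (he'' : MeasurePreserving e'' μ μ) (h : ∀ᵐ x ∂μ, e (e' x) = e'' x) (f : XL μ H) :
    sh he' (sh he f) = sh he'' f := by
  refine xl_ext ?_
  filter_upwards [sh_apply he' (sh he f), he'.quasiMeasurePreserving.ae (sh_apply he f),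
    sh_apply he'' f, h] with x h1 h2 h3 h4
  rw [h1, h2, h3, h4]

theorem sh_id {e : X → X} (he : MeasurePreserving e μ μ) (h : ∀ᵐ x ∂μ, e x = x) (f : XL μ H) :
    sh he f = f := by
  refine xl_ext ?_
  filter_upwards [sh_apply he f, h] with x h1 h2
  rw [h1, h2]

/-- Composition with a measure preserving map which is invertible almost everywhere. -/
noncomputable def shU {e e' : X → X} (he : MeasurePreserving e μ μ) (he' : MeasurePreserving e' μ μ)
    (h : ∀ᵐ x ∂μ, e (e' x) = x) (h' : ∀ᵐ x ∂μ, e' (e x) = x) : XL μ H ≃ₗᵢ[ℂ] XL μ H where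
  toFun := sh he
  invFun := sh he'
  map_add' := _root_.map_add _
  map_smul' := _root_.map_smul _
  left_inv f := by
    rw [sh_sh he he' (MeasurePreserving.id μ) h, sh_id (MeasurePreserving.id μ) (ae_of_all _ fun _ => rfl)]
  right_inv f := by
    rw [sh_sh he' he (MeasurePreserving.id μ) h', sh_id (MeasurePreserving.id μ) (ae_of_all _ fun _ => rfl)]
  norm_map' f := (sh he).norm_map f

end Mx

section Cst

variable {X : Type} [MeasurableSpace X] {μ : Measure X} [IsProbabilityMeasure μ]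
variable {H K : Type} [NormedAddCommGroup H] [InnerProductSpace ℂ H]
  [NormedAddCommGroup K] [InnerProductSpace ℂ K]

/-- A bounded measurable function with values in `H`, as an element of `L²(X; H)`. -/
noncomputable def bv {f : X → H} (hf : AEStronglyMeasurable f μ) {C : ℝ} (hC : ∀ x, ‖f x‖ ≤ C) : XL μ H :=
  (MemLp.of_bound hf C (ae_of_all _ hC)).toLp f

omit [InnerProductSpace ℂ H] in
theorem bv_apply {f : X → H} (hf : AEStronglyMeasurable f μ) {C : ℝ} (hC : ∀ x, ‖f x‖ ≤ C) :
    ∀ᵐ x ∂μ, bv hf hC x = f x := MemLp.coeFn_toLp _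

/-- Constant functions. -/
noncomputable def cst (μ : Measure X) [IsProbabilityMeasure μ] : H →ₗᵢ[ℂ] XL μ H where
  toLinearMap := (Lp.constL 2 μ ℂ : H →L[ℂ] Lp H 2 μ).toLinearMap
  norm_map' h := by
    change ‖Lp.const 2 μ h‖ = ‖h‖
    have h1 := Lp.norm_const (p := 2) (μ := μ) (c := h) two_ne_zero
    rw [h1]
    simp

theorem cst_apply (h : H) : ∀ᵐ x ∂μ, cst μ h x = h := Lp.coeFn_const 2 μ h

theorem cl_cst (T : H →L[ℂ] K) (h : H) : cl μ T (cst μ h) = cst μ (T h) := by
  refine xl_ext ?_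
  filter_upwards [cl_apply T (cst μ h), cst_apply (μ := μ) h, cst_apply (μ := μ) (T h)] with x h1 h2 h3
  rw [h1, h2, h3]

theorem sh_cst {e : X → X} (he : MeasurePreserving e μ μ) (h : H) : sh he (cst μ h) = cst μ h := by
  refine xl_ext ?_
  filter_upwards [sh_apply he (cst μ h), he.quasiMeasurePreserving.ae (cst_apply (μ := μ) h),
    cst_apply (μ := μ) h] with x h1 h2 h3
  rw [h1, h2, h3]

end Cst

end Pool.Agent.Helper66.FR
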