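import Pool.Agent.Helper84.NI.UP

/-!
# Project FR (MP_0f6f3f_an): sequences of operators on Hilbert space ultrapowers
-/

set_option autoImplicit false

open Filter Topology

namespace Pool.Agent.Helper66.FR

open Pool.Agent.Helper84.NI

section MapS

variable {H K L : Type} [NormedAddCommGroup H] [InnerProductSpace ℂ H]
  [NormedAddCommGroup K] [InnerProductSpace ℂ K] [NormedAddCommGroup L] [InnerProductSpace ℂ L]

/-- A sequence of operators which is bounded by `C`. -/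
def BO (C : ℝ) (T : ℕ → (H →L[ℂ] K)) : Prop := 0 ≤ C ∧ ∀ n x, ‖T n x‖ ≤ C * ‖x‖

theorem BO.const (T : H →L[ℂ] K) : BO ‖T‖ (fun _ => T) := ⟨norm_nonneg _, fun _ x => T.le_opNorm x⟩

theorem BO.comp {C D : ℝ} {S : ℕ → (K →L[ℂ] L)} {T : ℕ → (H →L[ℂ] K)} (hS : BO C S) (hT : BO D T) :
    BO (C * D) (fun n => (S n).comp (T n)) := by
  refine ⟨mul_nonneg hS.1 hT.1, fun n x => (hS.2 n _).trans ?_⟩
  rw [mul_assoc]
  exact mul_le_mul_of_nonneg_left (hT.2 n x) hS.1

theorem BO.add {C D : ℝ} {S T : ℕ → (H →L[ℂ] K)} (hS : BO C S) (hT : BO D T) :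
    BO (C + D) (fun n => S n + T n) := by
  refine ⟨add_nonneg hS.1 hT.1, fun n x => (norm_add_le _ _).trans ?_⟩
  rw [add_mul]
  exact add_le_add (hS.2 n x) (hT.2 n x)

theorem BO.opNorm_le {C : ℝ} {T : ℕ → (H →L[ℂ] K)} (hT : BO C T) (n : ℕ) : ‖T n‖ ≤ C :=
  ContinuousLinearMap.opNorm_le_bound _ hT.1 (hT.2 n)

theorem BO.adj [CompleteSpace H] [CompleteSpace K] {C : ℝ} {T : ℕ → (H →L[ℂ] K)} (hT : BO C T) :
    BO C (fun n => ContinuousLinearMap.adjoint (T n)) := by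
  refine ⟨hT.1, fun n x => ((ContinuousLinearMap.adjoint (T n)).le_opNorm x).trans ?_⟩
  rw [LinearIsometryEquiv.norm_map]
  exact mul_le_mul_of_nonneg_right (hT.opNorm_le n) (norm_nonneg _)

/-- A bounded sequence of operators applied to a bounded sequence. -/
noncomputable def bseqS {C : ℝ} {T : ℕ → (H →L[ℂ] K)} (hT : BO C T) (x : BSeq H) : BSeq K :=
  ⟨fun n => T n (x.1 n), by
    obtain ⟨D, hD⟩ := x.2
    exact ⟨C * D, fun n => (hT.2 n _).trans (mul_le_mul_of_nonneg_left (hD n) hT.1)⟩⟩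

theorem norm_bseqS {C : ℝ} {T : ℕ → (H →L[ℂ] K)} (hT : BO C T) (x : BSeq H) :
    ‖UP.mk (bseqS hT x)‖ ≤ C * ‖UP.mk x‖ :=
  le_of_tendsto_of_tendsto' (UP.tendsto_norm _) ((UP.tendsto_norm x).const_mul _)
    fun n => hT.2 n _

/-- The linear map on sequences. -/
noncomputable def seqS {C : ℝ} {T : ℕ → (H →L[ℂ] K)} (hT : BO C T) : SeqT H →L[ℂ] SeqT K :=
  LinearMap.mkContinuous
    { toFun := fun x => (bseqS hT x : BSeq K)
      map_add' := fun x y => Subtype.ext (funext fun n => map_add (T n) _ _)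
      map_smul' := fun c x => Subtype.ext (funext fun n => map_smul (T n) _ _) } C (by
    intro x
    have h := norm_bseqS hT x
    have e1 : ‖UP.mk (bseqS hT x)‖ = ‖(show SeqT K from bseqS hT x)‖ :=
      UniformSpace.Completion.norm_coe (E := SeqT K) _
    have e2 : ‖UP.mk x‖ = ‖x‖ := UniformSpace.Completion.norm_coe (E := SeqT H) _
    rw [e1, e2] at h
    exact h)

open Classical in
/-- The operator on ultrapowers defined by a bounded sequence of operators. -/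
noncomputable def mapS (T : ℕ → (H →L[ℂ] K)) : UP H →L[ℂ] UP K :=
  if h : ∃ C, BO C T then ContinuousLinearMap.completion (seqS h.choose_spec) else 0

theorem mapS_mk {C : ℝ} {T : ℕ → (H →L[ℂ] K)} (hT : BO C T) (x : BSeq H) :
    mapS T (UP.mk x) = UP.mk (bseqS hT x) := by
  have h : ∃ C, BO C T := ⟨C, hT⟩
  unfold mapS
  rw [dif_pos h]
  exact UniformSpace.Completion.map_coe (seqS h.choose_spec).uniformContinuous x

theorem mapS_const (T : H →L[ℂ] K) (ξ : UP H) : mapS (fun _ => T) ξ = UP.map T ξ := by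
  refine UP.ext_fun (mapS _).continuous (UP.map T).continuous (fun x => ?_) ξ
  rw [mapS_mk (BO.const T), UP.map_mk]
  rfl

theorem mapS_comp {C D : ℝ} {S : ℕ → (K →L[ℂ] L)} {T : ℕ → (H →L[ℂ] K)} (hS : BO C S) (hT : BO D T)
    (ξ : UP H) : mapS S (mapS T ξ) = mapS (fun n => (S n).comp (T n)) ξ := by
  refine UP.ext_fun ((mapS S).continuous.comp (mapS T).continuous) (mapS _).continuous (fun x => ?_) ξ
  simp only [Function.comp_apply]
  rw [mapS_mk hT, mapS_mk hS, mapS_mk (hS.comp hT)]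
  rfl

theorem mapS_add {C D : ℝ} {S T : ℕ → (H →L[ℂ] K)} (hS : BO C S) (hT : BO D T) (ξ : UP H) :
    mapS (fun n => S n + T n) ξ = mapS S ξ + mapS T ξ := by
  refine UP.ext_fun (g := fun ξ => mapS S ξ + mapS T ξ) (mapS _).continuous (by fun_prop)
    (fun x => ?_) ξ
  simp only [mapS_mk (hS.add hT), mapS_mk hS, mapS_mk hT, ← UP.mk_add]
  rfl

theorem mk_congr {x y : BSeq H} (h : ∀ᶠ n in (hyperfilter ℕ : Filter ℕ), x.1 n = y.1 n) :
    UP.mk x = UP.mk y := by
  have h1 := UP.tendsto_norm (x + (-1 : ℂ) • y)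
  have h2 : Tendsto (fun n => ‖(x + (-1 : ℂ) • y).1 n‖) (hyperfilter ℕ : Filter ℕ) (𝓝 0) := by
    refine (tendsto_const_nhds (x := (0 : ℝ))).congr' ?_
    filter_upwards [h] with n hn
    change 0 = ‖x.1 n + (-1 : ℂ) • y.1 n‖
    rw [hn, neg_one_smul, add_neg_cancel, norm_zero]
  have h3 := tendsto_nhds_unique h1 h2
  rw [norm_eq_zero, UP.mk_add, UP.mk_smul, neg_one_smul, ← sub_eq_add_neg, sub_eq_zero] at h3
  exact h3

theorem mapS_congr {C D : ℝ} {S T : ℕ → (H →L[ℂ] K)} (hS : BO C S) (hT : BO D T)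
    (h : ∀ᶠ n in (hyperfilter ℕ : Filter ℕ), ∀ x, S n x = T n x) (ξ : UP H) : mapS S ξ = mapS T ξ := by
  refine UP.ext_fun (mapS _).continuous (mapS _).continuous (fun x => ?_) ξ
  rw [mapS_mk hS, mapS_mk hT]
  refine mk_congr ?_
  filter_upwards [h] with n hn
  exact hn _

theorem norm_mapS_le {C : ℝ} {T : ℕ → (H →L[ℂ] K)} (hT : BO C T) (ξ : UP H) :
    ‖mapS T ξ‖ ≤ C * ‖ξ‖ := by
  refine UP.induction ξ (isClosed_le (mapS T).continuous.norm
    (continuous_const.mul continuous_norm)) (fun x => ?_)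
  rw [mapS_mk hT]
  exact norm_bseqS hT x

/-- Inequalities between sums of squares of norms pass to the ultrapower. -/
theorem mapS_sum_sq_le {ι κ : Type} (s : Finset ι) (t : Finset κ) {T : ι → ℕ → (H →L[ℂ] K)}
    {S : κ → ℕ → (H →L[ℂ] L)} {C : ι → ℝ} {C' : κ → ℝ} (hT : ∀ i, BO (C i) (T i))
    (hS : ∀ j, BO (C' j) (S j)) {c : ℝ}
    (h : ∀ n x, ∑ i ∈ s, ‖T i n x‖ ^ 2 ≤ c * ∑ j ∈ t, ‖S j n x‖ ^ 2) (ξ : UP H) :
    ∑ i ∈ s, ‖mapS (T i) ξ‖ ^ 2 ≤ c * ∑ j ∈ t, ‖mapS (S j) ξ‖ ^ 2 := by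
  refine UP.induction (p := fun ξ => ∑ i ∈ s, ‖mapS (T i) ξ‖ ^ 2 ≤ c * ∑ j ∈ t, ‖mapS (S j) ξ‖ ^ 2) ξ
    (isClosed_le (by fun_prop) (by fun_prop)) (fun x => ?_)
  have e1 : ∀ i, mapS (T i) (UP.mk x) = UP.mk (bseqS (hT i) x) := fun i => mapS_mk (hT i) x
  have e2 : ∀ j, mapS (S j) (UP.mk x) = UP.mk (bseqS (hS j) x) := fun j => mapS_mk (hS j) x
  simp only [e1, e2]
  refine le_of_tendsto_of_tendsto' (tendsto_finsetSum _ fun i _ =>
    (UP.tendsto_norm (bseqS (hT i) x)).pow 2) ((tendsto_finsetSum _ fun j _ =>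
    (UP.tendsto_norm (bseqS (hS j) x)).pow 2).const_mul c)
    fun n => h n (x.1 n)

theorem inner_mapS [CompleteSpace H] [CompleteSpace K] {C : ℝ} {T : ℕ → (H →L[ℂ] K)} (hT : BO C T)
    (ξ : UP H) (η : UP K) :
    inner ℂ (mapS T ξ) η = inner ℂ ξ (mapS (fun n => ContinuousLinearMap.adjoint (T n)) η) := by
  refine UP.ext_fun (f := fun ξ => inner ℂ (mapS T ξ) η)
    (g := fun ξ => inner ℂ ξ (mapS (fun n => ContinuousLinearMap.adjoint (T n)) η)) (by fun_prop)
    (by fun_prop) (fun x => ?_) ξ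
  refine UP.ext_fun (f := fun η => inner ℂ (mapS T (UP.mk x)) η)
    (g := fun η => inner ℂ (UP.mk x) (mapS (fun n => ContinuousLinearMap.adjoint (T n)) η))
    (by fun_prop) (by fun_prop) (fun y => ?_) η
  simp only [mapS_mk hT, mapS_mk hT.adj]
  refine tendsto_nhds_unique (UP.tendsto_inner _ _) ((UP.tendsto_inner _ _).congr fun n => ?_)
  exact (ContinuousLinearMap.adjoint_inner_right (T n) (x.1 n) (y.1 n))

theorem bo_iso (T : ℕ → (H →ₗᵢ[ℂ] K)) : BO 1 (fun n => (T n).toContinuousLinearMap) :=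
  ⟨zero_le_one, fun n x => by
    rw [one_mul]
    exact ((T n).norm_map x).le⟩

/-- The ultraproduct of a sequence of isometries. -/
noncomputable def mapSI (T : ℕ → (H →ₗᵢ[ℂ] K)) : UP H →ₗᵢ[ℂ] UP K where
  toLinearMap := (mapS fun n => (T n).toContinuousLinearMap).toLinearMap
  norm_map' ξ := by
    change ‖mapS (fun n => (T n).toContinuousLinearMap) ξ‖ = ‖ξ‖
    refine UP.ext_fun (f := fun ξ => ‖mapS (fun n => (T n).toContinuousLinearMap) ξ‖)
      (g := fun ξ => ‖ξ‖) (by fun_prop) (by fun_prop) (fun x => ?_) ξ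
    simp only [mapS_mk (bo_iso T)]
    refine tendsto_nhds_unique (UP.tendsto_norm _) ((UP.tendsto_norm x).congr fun n => ?_)
    exact ((T n).norm_map _).symm

theorem mapSI_apply (T : ℕ → (H →ₗᵢ[ℂ] K)) (ξ : UP H) :
    mapSI T ξ = mapS (fun n => (T n).toContinuousLinearMap) ξ := rfl

theorem bo_uni (T : ℕ → (H ≃ₗᵢ[ℂ] K)) :
    BO 1 (fun n => ((T n).toContinuousLinearEquiv : H →L[ℂ] K)) :=
  bo_iso fun n => (T n).toLinearIsometry

/-- The ultraproduct of a sequence of unitaries. -/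
noncomputable def mapSU (T : ℕ → (H ≃ₗᵢ[ℂ] K)) : UP H ≃ₗᵢ[ℂ] UP K where
  toFun := mapS fun n => ((T n).toContinuousLinearEquiv : H →L[ℂ] K)
  invFun := mapS fun n => ((T n).symm.toContinuousLinearEquiv : K →L[ℂ] H)
  map_add' := _root_.map_add _
  map_smul' := _root_.map_smul _
  left_inv ξ := by
    rw [mapS_comp (bo_uni fun n => (T n).symm) (bo_uni T)]
    refine (mapS_congr ((bo_uni fun n => (T n).symm).comp (bo_uni T))
      (BO.const (ContinuousLinearMap.id ℂ H)) (Eventually.of_forall ?_) ξ).trans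
      ((mapS_const _ ξ).trans (UP.map_id ξ))
    intro n x
    simp
  right_inv ξ := by
    rw [mapS_comp (bo_uni T) (bo_uni fun n => (T n).symm)]
    refine (mapS_congr ((bo_uni T).comp (bo_uni fun n => (T n).symm))
      (BO.const (ContinuousLinearMap.id ℂ K)) (Eventually.of_forall ?_) ξ).trans
      ((mapS_const _ ξ).trans (UP.map_id ξ))
    intro n x
    simp
  norm_map' ξ := (mapSI fun n => (T n).toLinearIsometry).norm_map ξ

theorem mapSU_apply (T : ℕ → (H ≃ₗᵢ[ℂ] K)) (ξ : UP H) :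
    mapSU T ξ = mapS (fun n => ((T n).toContinuousLinearEquiv : H →L[ℂ] K)) ξ := rfl

/-- The ultraproduct of a sequence of unitary representations. -/
noncomputable def mapSR {G : Type} [Group G] (A : ℕ → (G →* (H ≃ₗᵢ[ℂ] H))) : G →* (UP H ≃ₗᵢ[ℂ] UP H) where
  toFun g := mapSU fun n => A n g
  map_one' := by
    ext ξ : 1
    rw [mapSU_apply]
    refine (mapS_congr (bo_uni _) (BO.const (ContinuousLinearMap.id ℂ H)) (Eventually.of_forall ?_) ξ).trans
      ((mapS_const _ ξ).trans (UP.map_id ξ))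
    intro n x
    rw [map_one]
    rfl
  map_mul' g h := by
    ext ξ : 1
    rw [LinearIsometryEquiv.coe_mul, Function.comp_apply, mapSU_apply, mapSU_apply, mapSU_apply,
      mapS_comp (bo_uni _) (bo_uni _)]
    refine mapS_congr (bo_uni _) ((bo_uni _).comp (bo_uni _)) (Eventually.of_forall ?_) ξ
    intro n x
    rw [map_mul]
    rfl

theorem mapSR_apply {G : Type} [Group G] (A : ℕ → (G →* (H ≃ₗᵢ[ℂ] H))) (g : G) (ξ : UP H) :
    mapSR A g ξ = mapS (fun n => ((A n g).toContinuousLinearEquiv : H →L[ℂ] H)) ξ := rfl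

end MapS

end Pool.Agent.Helper66.FR
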