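import Pool.Agent.Helper66.FR.XP2
import Pool.Agent.Helper66.FR.XP3

/-!
# Project FR (MP_0f6f3f_an): the ultrapower of `L²(X; H)`

`UX μ H` is the ultrapower of `L²(X; H)`; operators: `uxm T` (constant field), `ux p` (multiplication by
a bounded sequence of bounded measurable functions), `us g` (shift by a sequence of group elements).
-/

set_option autoImplicit false

open MeasureTheory Filter Topology
open scoped ComplexConjugate ENNReal

namespace Pool.Agent.Helper66.FR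

open Pool.Agent.Helper84.NI

section UX

variable {X : Type} [MeasurableSpace X] {μ : Measure X}
variable {H K L : Type} [NormedAddCommGroup H] [InnerProductSpace ℂ H]
  [NormedAddCommGroup K] [InnerProductSpace ℂ K] [NormedAddCommGroup L] [InnerProductSpace ℂ L]

/-- The ultrapower of `L²(X; H)`. -/
abbrev UX (μ : Measure X) (H : Type) [NormedAddCommGroup H] [InnerProductSpace ℂ H] : Type :=
  UP (XL μ H)

/-- The operator on `UX` given by a constant field of operators. -/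
noncomputable def uxm (μ : Measure X) (T : H →L[ℂ] K) : UX μ H →L[ℂ] UX μ K := UP.map (cl μ T)

theorem uxm_comp (S : K →L[ℂ] L) (T : H →L[ℂ] K) (ξ : UX μ H) :
    uxm μ (S.comp T) ξ = uxm μ S (uxm μ T ξ) := by
  unfold uxm
  rw [← UP.map_comp]
  congr 2
  ext1 f
  exact cl_comp S T f

theorem uxm_id (ξ : UX μ H) : uxm μ (ContinuousLinearMap.id ℂ H) ξ = ξ := by
  unfold uxm
  have h : cl μ (ContinuousLinearMap.id ℂ H) = ContinuousLinearMap.id ℂ (XL μ H) := by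
    ext1 f
    exact cl_id f
  rw [h, UP.map_id]

theorem uxm_add (S T : H →L[ℂ] K) (ξ : UX μ H) : uxm μ (S + T) ξ = uxm μ S ξ + uxm μ T ξ := by
  unfold uxm
  rw [cl_add, UP.map_add]

theorem uxm_smul (c : ℂ) (T : H →L[ℂ] K) (ξ : UX μ H) : uxm μ (c • T) ξ = c • uxm μ T ξ := by
  unfold uxm
  rw [cl_smul, UP.map_smul]

theorem uxm_sub (S T : H →L[ℂ] K) (ξ : UX μ H) : uxm μ (S - T) ξ = uxm μ S ξ - uxm μ T ξ := by
  unfold uxm
  rw [cl_sub, UP.map_sub]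

theorem uxm_zero (ξ : UX μ H) : uxm μ (0 : H →L[ℂ] K) ξ = 0 := by
  unfold uxm
  rw [cl_zero, UP.map_zero]

theorem uxm_sum {ι : Type} (s : Finset ι) (T : ι → H →L[ℂ] K) (ξ : UX μ H) :
    uxm μ (∑ i ∈ s, T i) ξ = ∑ i ∈ s, uxm μ (T i) ξ := by
  unfold uxm
  rw [cl_sum, UP.map_sum]

theorem norm_uxm_le (T : H →L[ℂ] K) (ξ : UX μ H) : ‖uxm μ T ξ‖ ≤ ‖T‖ * ‖ξ‖ :=
  (UP.norm_map_le _ ξ).trans (mul_le_mul_of_nonneg_right (opNorm_cl_le T) (norm_nonneg _))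

theorem norm_uxm_le_of {T : H →L[ℂ] K} {C : ℝ} (hC : 0 ≤ C) (hT : ∀ x, ‖T x‖ ≤ C * ‖x‖) (ξ : UX μ H) :
    ‖uxm μ T ξ‖ ≤ C * ‖ξ‖ :=
  UP.norm_map_le_of hC (norm_cl_le_of hC hT) ξ

theorem uxm_sum_sq_le {ι : Type} (s : Finset ι) (T : ι → H →L[ℂ] K) {C : ℝ}
    (hT : ∀ x, ∑ i ∈ s, ‖T i x‖ ^ 2 ≤ C * ‖x‖ ^ 2) (ξ : UX μ H) :
    ∑ i ∈ s, ‖uxm μ (T i) ξ‖ ^ 2 ≤ C * ‖ξ‖ ^ 2 :=
  UP.sum_sq_le s (fun i => cl μ (T i)) (cl_sum_sq_le s T hT) ξ

theorem uxm_sum_sq_eq {ι : Type} (s : Finset ι) (T : ι → H →L[ℂ] K)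
    (hT : ∀ x, ∑ i ∈ s, ‖T i x‖ ^ 2 = ‖x‖ ^ 2) (ξ : UX μ H) :
    ∑ i ∈ s, ‖uxm μ (T i) ξ‖ ^ 2 = ‖ξ‖ ^ 2 :=
  UP.sum_sq_eq s (fun i => cl μ (T i)) (cl_sum_sq_eq s T hT) ξ

theorem inner_uxm [CompleteSpace H] [CompleteSpace K] (T : H →L[ℂ] K) (ξ : UX μ H) (η : UX μ K) :
    inner ℂ (uxm μ T ξ) η = inner ℂ ξ (uxm μ (ContinuousLinearMap.adjoint T) η) := by
  unfold uxm
  rw [UP.inner_map, adjoint_cl]

theorem uxm_mk (T : H →L[ℂ] K) (x : BSeq (XL μ H)) :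
    uxm μ T (UP.mk x) = UP.mk (BSeq.map (cl μ T) x) := UP.map_mk _ _

/-- Positivity passes to `UX`. -/
theorem uxm_re_inner_nonneg {T S : H →L[ℂ] K} (h : ∀ x, 0 ≤ (inner ℂ (S x) (T x)).re) (ξ : UX μ H) :
    0 ≤ (inner ℂ (uxm μ S ξ) (uxm μ T ξ)).re := by
  refine UP.induction (p := fun ξ => 0 ≤ (inner ℂ (uxm μ S ξ) (uxm μ T ξ)).re) ξ ?_ fun x => ?_
  · exact isClosed_le continuous_const (Complex.continuous_re.comp (by fun_prop))
  · rw [uxm_mk, uxm_mk]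
    have h1 := (Complex.continuous_re.tendsto _).comp (UP.tendsto_inner (BSeq.map (cl μ S) x)
      (BSeq.map (cl μ T) x))
    exact ge_of_tendsto' h1 fun n => cl_re_inner_nonneg h (x.1 n)

/-- The unitary of `UX` given by a constant field. -/
noncomputable def uxU (μ : Measure X) (T : H ≃ₗᵢ[ℂ] K) : UX μ H ≃ₗᵢ[ℂ] UX μ K := UP.mapU (clU μ T)

theorem uxU_apply (T : H ≃ₗᵢ[ℂ] K) (ξ : UX μ H) :
    uxU μ T ξ = uxm μ (T.toContinuousLinearEquiv : H →L[ℂ] K) ξ := rfl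

/-- The isometry of `UX` given by a constant field. -/
noncomputable def uxI (μ : Measure X) (T : H →ₗᵢ[ℂ] K) : UX μ H →ₗᵢ[ℂ] UX μ K := UP.mapI (clI μ T)

theorem uxI_apply (T : H →ₗᵢ[ℂ] K) (ξ : UX μ H) : uxI μ T ξ = uxm μ T.toContinuousLinearMap ξ := rfl

/-- The representation on `UX` given by a constant field. -/
noncomputable def uxR {G : Type} [Group G] (μ : Measure X) (A : G →* (H ≃ₗᵢ[ℂ] H)) :
    G →* (UX μ H ≃ₗᵢ[ℂ] UX μ H) := UP.rep (clR μ A)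

theorem uxR_apply {G : Type} [Group G] (A : G →* (H ≃ₗᵢ[ℂ] H)) (g : G) (ξ : UX μ H) :
    uxR μ A g ξ = uxm μ ((A g).toContinuousLinearEquiv : H →L[ℂ] H) ξ := rfl

/-- Intertwining relations pass to `UX`. -/
theorem uxm_uxR {G : Type} [Group G] {A : G →* (H ≃ₗᵢ[ℂ] H)} {A' : G →* (K ≃ₗᵢ[ℂ] K)} {T : H →L[ℂ] K}
    (hT : ∀ g x, T (A g x) = A' g (T x)) (g : G) (ξ : UX μ H) :
    uxm μ T (uxR μ A g ξ) = uxR μ A' g (uxm μ T ξ) := by
  rw [uxR_apply, uxR_apply, ← uxm_comp, ← uxm_comp]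
  congr 2
  ext1 x
  exact hT g x

/-- A bounded sequence of bounded measurable functions. -/
def BMS (C : ℝ) (p : ℕ → X → ℂ) : Prop := 0 ≤ C ∧ ∀ n, BM C (p n)

theorem BMS.mul {C D : ℝ} {p q : ℕ → X → ℂ} (hp : BMS C p) (hq : BMS D q) :
    BMS (C * D) (fun n x => p n x * q n x) := ⟨mul_nonneg hp.1 hq.1, fun n => (hp.2 n).mul (hq.2 n)⟩

theorem BMS.add {C D : ℝ} {p q : ℕ → X → ℂ} (hp : BMS C p) (hq : BMS D q) :
    BMS (C + D) (fun n x => p n x + q n x) := ⟨add_nonneg hp.1 hq.1, fun n => (hp.2 n).add (hq.2 n)⟩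

theorem BMS.conj {C : ℝ} {p : ℕ → X → ℂ} (hp : BMS C p) : BMS C (fun n x => conj (p n x)) :=
  ⟨hp.1, fun n => (hp.2 n).conj⟩

theorem BMS.const (c : ℂ) : BMS ‖c‖ (fun (_ : ℕ) (_ : X) => c) := ⟨norm_nonneg _, fun _ => BM.const c⟩

theorem BMS.ind {E : ℕ → Set X} (hE : ∀ n, MeasurableSet (E n)) :
    BMS 1 (fun n => (E n).indicator fun _ => (1 : ℂ)) := ⟨zero_le_one, fun n => BM.ind (hE n)⟩

theorem BMS.bo {C : ℝ} {p : ℕ → X → ℂ} (hp : BMS C p) : BO C (fun n => mx μ H (p n)) :=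
  ⟨hp.1, fun n f => norm_mx_le hp.1 (hp.2 n) f⟩

/-- Multiplication by a bounded sequence of bounded measurable functions. -/
noncomputable def ux (μ : Measure X) (H : Type) [NormedAddCommGroup H] [InnerProductSpace ℂ H]
    (p : ℕ → X → ℂ) : UX μ H →L[ℂ] UX μ H := mapS fun n => mx μ H (p n)

theorem norm_ux_le {C : ℝ} {p : ℕ → X → ℂ} (hp : BMS C p) (ξ : UX μ H) : ‖ux μ H p ξ‖ ≤ C * ‖ξ‖ :=
  norm_mapS_le hp.bo ξ

theorem ux_mul {C D : ℝ} {p q : ℕ → X → ℂ} (hp : BMS C p) (hq : BMS D q) (ξ : UX μ H) :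
    ux μ H p (ux μ H q ξ) = ux μ H (fun n x => p n x * q n x) ξ := by
  unfold ux
  rw [mapS_comp hp.bo hq.bo]
  refine mapS_congr (hp.bo.comp hq.bo) (hp.mul hq).bo (Eventually.of_forall fun n x => ?_) ξ
  exact mx_mul (hp.2 n) (hq.2 n) x

theorem ux_comm {C D : ℝ} {p q : ℕ → X → ℂ} (hp : BMS C p) (hq : BMS D q) (ξ : UX μ H) :
    ux μ H p (ux μ H q ξ) = ux μ H q (ux μ H p ξ) := by
  rw [ux_mul hp hq, ux_mul hq hp]
  simp_rw [mul_comm]

theorem ux_add {C D : ℝ} {p q : ℕ → X → ℂ} (hp : BMS C p) (hq : BMS D q) (ξ : UX μ H) :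
    ux μ H (fun n x => p n x + q n x) ξ = ux μ H p ξ + ux μ H q ξ := by
  unfold ux
  rw [← mapS_add hp.bo hq.bo]
  refine mapS_congr (hp.add hq).bo (hp.bo.add hq.bo) (Eventually.of_forall fun n x => ?_) ξ
  exact mx_add (hp.2 n) (hq.2 n) x

theorem ux_const (c : ℂ) (ξ : UX μ H) : ux μ H (fun _ _ => c) ξ = c • ξ := by
  unfold ux
  have h := mapS_congr (BMS.const c).bo (BO.const (c • ContinuousLinearMap.id ℂ (XL μ H)))
    (Eventually.of_forall fun n x => by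
      rw [mx_const]
      rfl) ξ
  rw [h, mapS_const, UP.map_smul, UP.map_id]

theorem ux_one (ξ : UX μ H) : ux μ H (fun _ _ => 1) ξ = ξ := by
  rw [ux_const, one_smul]

/-- Functions which agree almost everywhere (eventually along the hyperfilter). -/
theorem ux_congr {C D : ℝ} {p q : ℕ → X → ℂ} (hp : BMS C p) (hq : BMS D q)
    (h : ∀ᶠ n in (hyperfilter ℕ : Filter ℕ), ∀ᵐ x ∂μ, p n x = q n x) (ξ : UX μ H) :
    ux μ H p ξ = ux μ H q ξ := by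
  unfold ux
  refine mapS_congr hp.bo hq.bo ?_ ξ
  filter_upwards [h] with n hn x
  exact mx_congr (hp.2 n) (hq.2 n) hn x

theorem uxm_ux (T : H →L[ℂ] K) {C : ℝ} {p : ℕ → X → ℂ} (hp : BMS C p) (ξ : UX μ H) :
    uxm μ T (ux μ H p ξ) = ux μ K p (uxm μ T ξ) := by
  unfold ux uxm
  rw [← mapS_const (cl μ T), ← mapS_const (cl μ T), mapS_comp (BO.const (cl μ T)) hp.bo,
    mapS_comp hp.bo (BO.const (cl μ T))]
  refine mapS_congr ((BO.const (cl μ T)).comp hp.bo) (hp.bo.comp (BO.const (cl μ T)))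
    (Eventually.of_forall fun n x => ?_) ξ
  exact cl_mx T (hp.2 n) x

theorem inner_ux [CompleteSpace H] {C : ℝ} {p : ℕ → X → ℂ} (hp : BMS C p) (ξ η : UX μ H) :
    inner ℂ (ux μ H p ξ) η = inner ℂ ξ (ux μ H (fun n x => conj (p n x)) η) := by
  unfold ux
  rw [inner_mapS hp.bo]
  congr 1
  refine mapS_congr hp.bo.adj hp.conj.bo (Eventually.of_forall fun n x => ?_) η
  refine ext_inner_left ℂ fun y => ?_
  rw [ContinuousLinearMap.adjoint_inner_right, inner_mx (hp.2 n)]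

theorem uxR_ux {G : Type} [Group G] (A : G →* (H ≃ₗᵢ[ℂ] H)) (g : G) {C : ℝ} {p : ℕ → X → ℂ}
    (hp : BMS C p) (ξ : UX μ H) : uxR μ A g (ux μ H p ξ) = ux μ H p (uxR μ A g ξ) := by
  rw [uxR_apply, uxR_apply, uxm_ux _ hp]

end UX

section Sets

variable {X : Type} [MeasurableSpace X] {μ : Measure X}
variable {H K : Type} [NormedAddCommGroup H] [InnerProductSpace ℂ H]
  [NormedAddCommGroup K] [InnerProductSpace ℂ K]

/-- The projection given by a sequence of measurable sets. -/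
noncomputable def uxP (μ : Measure X) (H : Type) [NormedAddCommGroup H] [InnerProductSpace ℂ H]
    (E : ℕ → Set X) : UX μ H →L[ℂ] UX μ H := ux μ H fun n => (E n).indicator fun _ => (1 : ℂ)

theorem uxP_uxP {E F : ℕ → Set X} (hE : ∀ n, MeasurableSet (E n)) (hF : ∀ n, MeasurableSet (F n))
    (ξ : UX μ H) : uxP μ H E (uxP μ H F ξ) = uxP μ H (fun n => E n ∩ F n) ξ := by
  unfold uxP
  rw [ux_mul (BMS.ind hE) (BMS.ind hF)]
  congr 2
  funext n x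
  by_cases h1 : x ∈ E n <;> by_cases h2 : x ∈ F n <;> simp [h1, h2]

theorem uxP_idem {E : ℕ → Set X} (hE : ∀ n, MeasurableSet (E n)) (ξ : UX μ H) :
    uxP μ H E (uxP μ H E ξ) = uxP μ H E ξ := by
  rw [uxP_uxP hE hE]
  simp_rw [Set.inter_self]

theorem uxP_disj {E F : ℕ → Set X} (hE : ∀ n, MeasurableSet (E n)) (hF : ∀ n, MeasurableSet (F n))
    (h : ∀ n, Disjoint (E n) (F n)) (ξ : UX μ H) : uxP μ H E (uxP μ H F ξ) = 0 := by
  rw [uxP_uxP hE hF]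
  simp_rw [Set.disjoint_iff_inter_eq_empty.1 (h _)]
  unfold uxP
  have h1 := ux_const (μ := μ) 0 ξ
  rw [zero_smul] at h1
  rw [← h1]
  congr 2
  funext n x
  simp

theorem uxP_univ (ξ : UX μ H) : uxP μ H (fun _ => Set.univ) ξ = ξ := by
  unfold uxP
  have h1 := ux_one (μ := μ) ξ
  conv_rhs => rw [← h1]
  congr 2
  funext n x
  simp

theorem uxP_add_compl {E : ℕ → Set X} (hE : ∀ n, MeasurableSet (E n)) (ξ : UX μ H) :
    uxP μ H E ξ + uxP μ H (fun n => (E n)ᶜ) ξ = ξ := by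
  unfold uxP
  rw [← ux_add (BMS.ind hE) (BMS.ind fun n => (hE n).compl)]
  have h1 := ux_one (μ := μ) ξ
  conv_rhs => rw [← h1]
  congr 2
  funext n x
  by_cases h : x ∈ E n <;> simp [h]

theorem inner_uxP [CompleteSpace H] {E : ℕ → Set X} (hE : ∀ n, MeasurableSet (E n)) (ξ η : UX μ H) :
    inner ℂ (uxP μ H E ξ) η = inner ℂ ξ (uxP μ H E η) := by
  unfold uxP
  rw [inner_ux (BMS.ind hE)]
  congr 3
  funext n x
  by_cases h : x ∈ E n <;> simp [h]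

theorem norm_uxP_le {E : ℕ → Set X} (hE : ∀ n, MeasurableSet (E n)) (ξ : UX μ H) :
    ‖uxP μ H E ξ‖ ≤ ‖ξ‖ := by
  have h := norm_ux_le (μ := μ) (BMS.ind hE) ξ
  rwa [one_mul] at h

theorem inner_uxP_disj [CompleteSpace H] {E F : ℕ → Set X} (hE : ∀ n, MeasurableSet (E n))
    (hF : ∀ n, MeasurableSet (F n)) (h : ∀ n, Disjoint (E n) (F n)) (ξ η : UX μ H) :
    inner ℂ (uxP μ H E ξ) (uxP μ H F η) = 0 := by
  rw [inner_uxP hE, uxP_disj hE hF h, inner_zero_right]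

theorem uxm_uxP (T : H →L[ℂ] K) {E : ℕ → Set X} (hE : ∀ n, MeasurableSet (E n)) (ξ : UX μ H) :
    uxm μ T (uxP μ H E ξ) = uxP μ K E (uxm μ T ξ) := uxm_ux T (BMS.ind hE) ξ

theorem uxR_uxP {G : Type} [Group G] (A : G →* (H ≃ₗᵢ[ℂ] H)) (g : G) {E : ℕ → Set X}
    (hE : ∀ n, MeasurableSet (E n)) (ξ : UX μ H) :
    uxR μ A g (uxP μ H E ξ) = uxP μ H E (uxR μ A g ξ) := uxR_ux A g (BMS.ind hE) ξ

theorem uxP_union {E F : ℕ → Set X} (hE : ∀ n, MeasurableSet (E n)) (hF : ∀ n, MeasurableSet (F n))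
    (h : ∀ n, Disjoint (E n) (F n)) (ξ : UX μ H) :
    uxP μ H (fun n => E n ∪ F n) ξ = uxP μ H E ξ + uxP μ H F ξ := by
  unfold uxP
  rw [← ux_add (BMS.ind hE) (BMS.ind hF)]
  congr 2
  funext n x
  by_cases h1 : x ∈ E n
  · have h2 : x ∉ F n := Set.disjoint_left.1 (h n) h1
    simp [h1, h2]
  · by_cases h2 : x ∈ F n <;> simp [h1, h2]

theorem uxP_biUnion {ι : Type} (s : Finset ι) {E : ι → ℕ → Set X} (hE : ∀ i n, MeasurableSet (E i n))
    (h : ∀ i j, i ≠ j → ∀ n, Disjoint (E i n) (E j n)) (ξ : UX μ H) :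
    uxP μ H (fun n => ⋃ i ∈ s, E i n) ξ = ∑ i ∈ s, uxP μ H (E i) ξ := by
  classical
  induction s using Finset.induction_on with
  | empty =>
    rw [Finset.sum_empty]
    have h1 := ux_const (μ := μ) 0 ξ
    rw [zero_smul] at h1
    rw [← h1]
    unfold uxP
    congr 2
    funext n x
    simp
  | insert a s ha ih =>
    rw [Finset.sum_insert ha, ← ih, ← uxP_union (hE a) (fun n => s.measurableSet_biUnion fun i _ => hE i n)]
    · congr 2
      funext n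
      rw [Finset.set_biUnion_insert]
    · intro n
      rw [Set.disjoint_iUnion₂_right]
      intro i hi
      exact h a i (fun e => ha (e ▸ hi)) n

/-- Bessel inequality. -/
theorem sum_uxP_sq_le [CompleteSpace H] {ι : Type} (s : Finset ι) {E : ι → ℕ → Set X}
    (hE : ∀ i n, MeasurableSet (E i n)) (h : ∀ i j, i ≠ j → ∀ n, Disjoint (E i n) (E j n)) (ξ : UX μ H) :
    ∑ i ∈ s, ‖uxP μ H (E i) ξ‖ ^ 2 ≤ ‖ξ‖ ^ 2 := by
  have h1 : ‖∑ i ∈ s, uxP μ H (E i) ξ‖ ^ 2 = ∑ i ∈ s, ‖uxP μ H (E i) ξ‖ ^ 2 := by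
    classical
    have ho : ∀ i ∈ s, ∀ j ∈ s, i ≠ j → inner ℂ (uxP μ H (E i) ξ) (uxP μ H (E j) ξ) = 0 :=
      fun i _ j _ hij => inner_uxP_disj (hE i) (hE j) (h i j hij) ξ ξ
    rw [@norm_sq_eq_re_inner ℂ, sum_inner, map_sum]
    refine Finset.sum_congr rfl fun i hi => ?_
    rw [inner_sum, Finset.sum_eq_single i]
    · exact inner_self_eq_norm_sq (𝕜 := ℂ) _
    · intro j hj hji
      exact ho i hi j hj hji.symm
    · intro hi'
      exact absurd hi hi'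
  rw [← h1, ← uxP_biUnion s hE h]
  exact pow_le_pow_left₀ (norm_nonneg _)
    (norm_uxP_le (fun n => s.measurableSet_biUnion fun i _ => hE i n) ξ) 2

end Sets

end Pool.Agent.Helper66.FR
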