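import Pool.Agent.Helper66.FR.XP4
import Pool.Agent.Helper84.NI.Cen

/-!
# Project FR (MP_0f6f3f_an): shifts and the equi-integrable subspace of `UX μ H`
-/

set_option autoImplicit false

open MeasureTheory Filter Topology
open scoped ComplexConjugate ENNReal

namespace Pool.Agent.Helper66.FR

open Pool.Agent.Helper84.NI

section Kp

variable {G1 X : Type} [Group G1] [MeasurableSpace X] {μ : Measure X} [MulAction G1 X]
  [MeasurableConstSMul G1 X] [SMulInvariantMeasure G1 X μ]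
variable {H K : Type} [NormedAddCommGroup H] [InnerProductSpace ℂ H]
  [NormedAddCommGroup K] [InnerProductSpace ℂ K]

/-- The Koopman operator: `(kp g f) x = f (g⁻¹ x)`. -/
noncomputable def kp (μ : Measure X) [SMulInvariantMeasure G1 X μ] (H : Type) [NormedAddCommGroup H]
    [InnerProductSpace ℂ H] (g : G1) : XL μ H ≃ₗᵢ[ℂ] XL μ H :=
  shU (measurePreserving_smul g⁻¹ μ) (measurePreserving_smul g μ)
    (ae_of_all _ fun x => inv_smul_smul g x) (ae_of_all _ fun x => smul_inv_smul g x)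

theorem kp_apply (g : G1) (f : XL μ H) : ∀ᵐ x ∂μ, kp μ H g f x = f (g⁻¹ • x) :=
  sh_apply (measurePreserving_smul g⁻¹ μ) f

theorem kp_mul (g h : G1) (f : XL μ H) : kp μ H (g * h) f = kp μ H g (kp μ H h f) := by
  refine xl_ext ?_
  filter_upwards [kp_apply (g * h) f, kp_apply g (kp μ H h f),
    (measurePreserving_smul g⁻¹ μ).quasiMeasurePreserving.ae (kp_apply h f)] with x h1 h2 h3
  rw [h1, h2, h3, mul_inv_rev, mul_smul]

theorem kp_one (f : XL μ H) : kp μ H (1 : G1) f = f := by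
  refine xl_ext ?_
  filter_upwards [kp_apply (1 : G1) f] with x h1
  rw [h1, inv_one, one_smul]

theorem kp_mx (g : G1) {C : ℝ} {p : X → ℂ} (hp : BM C p) (f : XL μ H) :
    kp μ H g (mx μ H p f) = mx μ H (fun x => p (g⁻¹ • x)) (kp μ H g f) :=
  sh_mx (measurePreserving_smul g⁻¹ μ) hp f

theorem cl_kp (T : H →L[ℂ] K) (g : G1) (f : XL μ H) : cl μ T (kp μ H g f) = kp μ K g (cl μ T f) :=
  cl_sh T (measurePreserving_smul g⁻¹ μ) f

/-- The shift of `UX μ H` by a sequence of group elements. -/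
noncomputable def us (μ : Measure X) [SMulInvariantMeasure G1 X μ] (H : Type) [NormedAddCommGroup H]
    [InnerProductSpace ℂ H] (g : ℕ → G1) : UX μ H ≃ₗᵢ[ℂ] UX μ H := mapSU fun n => kp μ H (g n)

theorem us_apply (g : ℕ → G1) (ξ : UX μ H) :
    us μ H g ξ = mapS (fun n => ((kp μ H (g n)).toContinuousLinearEquiv : XL μ H →L[ℂ] XL μ H)) ξ := rfl

theorem us_mk (g : ℕ → G1) (x : BSeq (XL μ H)) :
    us μ H g (UP.mk x) = UP.mk (bseqS (bo_uni fun n => kp μ H (g n)) x) := mapS_mk _ x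

theorem us_mul (g h : ℕ → G1) (ξ : UX μ H) : us μ H (fun n => g n * h n) ξ = us μ H g (us μ H h ξ) := by
  rw [us_apply, us_apply, us_apply, mapS_comp (bo_uni _) (bo_uni _)]
  refine mapS_congr (bo_uni _) ((bo_uni _).comp (bo_uni _)) (Eventually.of_forall fun n x => ?_) ξ
  exact kp_mul _ _ _

theorem us_one (ξ : UX μ H) : us μ H (fun _ => (1 : G1)) ξ = ξ := by
  rw [us_apply]
  refine (mapS_congr (bo_uni _) (BO.const (ContinuousLinearMap.id ℂ (XL μ H)))
    (Eventually.of_forall ?_) ξ).trans ((mapS_const _ ξ).trans (UP.map_id ξ))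
  intro n x
  exact kp_one _

theorem us_ux (g : ℕ → G1) {C : ℝ} {p : ℕ → X → ℂ} (hp : BMS C p) (ξ : UX μ H) :
    us μ H g (ux μ H p ξ) = ux μ H (fun n x => p n ((g n)⁻¹ • x)) (us μ H g ξ) := by
  have hp' : BMS C (fun n x => p n ((g n)⁻¹ • x)) :=
    ⟨hp.1, fun n => (hp.2 n).comp (measurable_const_smul _)⟩
  rw [us_apply, us_apply]
  unfold ux
  rw [mapS_comp (bo_uni _) hp.bo, mapS_comp hp'.bo (bo_uni _)]
  refine mapS_congr ((bo_uni _).comp hp.bo) (hp'.bo.comp (bo_uni _)) (Eventually.of_forall fun n x => ?_) ξ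
  exact kp_mx _ (hp.2 n) x

theorem us_uxP (g : ℕ → G1) {E : ℕ → Set X} (hE : ∀ n, MeasurableSet (E n)) (ξ : UX μ H) :
    us μ H g (uxP μ H E ξ) = uxP μ H (fun n => (fun x => (g n)⁻¹ • x) ⁻¹' E n) (us μ H g ξ) :=
  us_ux g (BMS.ind hE) ξ

theorem uxm_us (T : H →L[ℂ] K) (g : ℕ → G1) (ξ : UX μ H) :
    uxm μ T (us μ H g ξ) = us μ K g (uxm μ T ξ) := by
  rw [us_apply, us_apply]
  unfold uxm
  rw [← mapS_const (cl μ T), ← mapS_const (cl μ T), mapS_comp (BO.const (cl μ T)) (bo_uni _),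
    mapS_comp (bo_uni _) (BO.const (cl μ T))]
  refine mapS_congr ((BO.const (cl μ T)).comp (bo_uni _)) ((bo_uni _).comp (BO.const (cl μ T)))
    (Eventually.of_forall fun n x => ?_) ξ
  exact cl_kp T _ x

theorem uxR_us {G : Type} [Group G] (A : G →* (H ≃ₗᵢ[ℂ] H)) (k : G) (g : ℕ → G1) (ξ : UX μ H) :
    uxR μ A k (us μ H g ξ) = us μ H g (uxR μ A k ξ) := by
  rw [uxR_apply, uxR_apply, uxm_us]

end Kp

section EI

variable {X : Type} [MeasurableSpace X] {μ : Measure X}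
variable {H K : Type} [NormedAddCommGroup H] [InnerProductSpace ℂ H]
  [NormedAddCommGroup K] [InnerProductSpace ℂ K]

/-- `x` is a sequence of functions with norm at most `c` almost everywhere. -/
def EB (c : ℝ) (x : BSeq (XL μ H)) : Prop := 0 ≤ c ∧ ∀ n, ∀ᵐ y ∂μ, ‖x.1 n y‖ ≤ c

variable (μ H) in
/-- Classes of uniformly bounded sequences of functions. -/
noncomputable def EI0 : Submodule ℂ (UX μ H) where
  carrier := {ξ | ∃ (c : ℝ) (x : BSeq (XL μ H)), EB c x ∧ UP.mk x = ξ}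
  add_mem' := by
    rintro _ _ ⟨c, x, hx, rfl⟩ ⟨d, y, hy, rfl⟩
    refine ⟨c + d, x + y, ⟨add_nonneg hx.1 hy.1, fun n => ?_⟩, UP.mk_add x y⟩
    filter_upwards [hx.2 n, hy.2 n, Lp.coeFn_add (x.1 n) (y.1 n)] with z h1 h2 h3
    change ‖((x.1 n + y.1 n : XL μ H) : X → H) z‖ ≤ _
    rw [h3]
    exact (norm_add_le _ _).trans (add_le_add h1 h2)
  zero_mem' := by
    refine ⟨0, 0, ⟨le_rfl, fun n => ?_⟩, ?_⟩
    · filter_upwards [Lp.coeFn_zero H 2 μ] with z h
      change ‖((0 : XL μ H) : X → H) z‖ ≤ _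
      rw [h]
      simp
    · have h := UP.mk_smul (0 : ℂ) (0 : BSeq (XL μ H))
      rwa [zero_smul, zero_smul] at h
  smul_mem' := by
    rintro a _ ⟨c, x, hx, rfl⟩
    refine ⟨‖a‖ * c, a • x, ⟨mul_nonneg (norm_nonneg _) hx.1, fun n => ?_⟩, UP.mk_smul a x⟩
    filter_upwards [hx.2 n, Lp.coeFn_smul a (x.1 n)] with z h1 h3
    change ‖((a • x.1 n : XL μ H) : X → H) z‖ ≤ _
    rw [h3, Pi.smul_apply, norm_smul]
    exact mul_le_mul_of_nonneg_left h1 (norm_nonneg _)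

variable (μ H) in
/-- The equi-integrable subspace. -/
noncomputable def EI : Submodule ℂ (UX μ H) := (EI0 μ H).topologicalClosure

theorem isClosed_EI : IsClosed (EI μ H : Set (UX μ H)) := Submodule.isClosed_topologicalClosure _

theorem mk_mem_EI {c : ℝ} {x : BSeq (XL μ H)} (hx : EB c x) : UP.mk x ∈ EI μ H :=
  Submodule.le_topologicalClosure _ ⟨c, x, hx, rfl⟩

/-- A bounded operator which preserves classes of uniformly bounded sequences preserves `EI`. -/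
theorem map_mem_EI {T : UX μ H →L[ℂ] UX μ K}
    (hT : ∀ c (x : BSeq (XL μ H)), EB c x → T (UP.mk x) ∈ EI μ K) {ξ : UX μ H} (hξ : ξ ∈ EI μ H) :
    T ξ ∈ EI μ K := by
  have h1 : ξ ∈ closure (EI0 μ H : Set (UX μ H)) := hξ
  refine closure_minimal (t := {ξ | T ξ ∈ EI μ K}) ?_ (isClosed_EI.preimage T.continuous) h1
  rintro _ ⟨c, x, hx, rfl⟩
  exact hT c x hx

theorem uxm_mem_EI (T : H →L[ℂ] K) {ξ : UX μ H} (hξ : ξ ∈ EI μ H) : uxm μ T ξ ∈ EI μ K := by
  refine map_mem_EI (fun c x hx => ?_) hξ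
  rw [uxm_mk]
  refine mk_mem_EI (c := ‖T‖ * c) ⟨mul_nonneg (norm_nonneg _) hx.1, fun n => ?_⟩
  filter_upwards [hx.2 n, cl_apply T (x.1 n)] with z h1 h2
  change ‖cl μ T (x.1 n) z‖ ≤ _
  rw [h2]
  exact (T.le_opNorm _).trans (mul_le_mul_of_nonneg_left h1 (norm_nonneg _))

theorem ux_mem_EI {C : ℝ} {p : ℕ → X → ℂ} (hp : BMS C p) {ξ : UX μ H} (hξ : ξ ∈ EI μ H) :
    ux μ H p ξ ∈ EI μ H := by
  refine map_mem_EI (fun c x hx => ?_) hξ
  unfold ux
  rw [mapS_mk hp.bo]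
  refine mk_mem_EI (c := C * c) ⟨mul_nonneg hp.1 hx.1, fun n => ?_⟩
  filter_upwards [hx.2 n, mx_apply (hp.2 n) (x.1 n)] with z h1 h2
  change ‖mx μ H (p n) (x.1 n) z‖ ≤ _
  rw [h2, norm_smul]
  exact mul_le_mul ((hp.2 n).2 z) h1 (norm_nonneg _) hp.1

theorem uxP_mem_EI {E : ℕ → Set X} (hE : ∀ n, MeasurableSet (E n)) {ξ : UX μ H} (hξ : ξ ∈ EI μ H) :
    uxP μ H E ξ ∈ EI μ H := ux_mem_EI (BMS.ind hE) hξ

theorem uxR_mem_EI {G : Type} [Group G] (A : G →* (H ≃ₗᵢ[ℂ] H)) (g : G) {ξ : UX μ H}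
    (hξ : ξ ∈ EI μ H) : uxR μ A g ξ ∈ EI μ H := uxm_mem_EI _ hξ

theorem us_mem_EI {G1 : Type} [Group G1] [MulAction G1 X] [MeasurableConstSMul G1 X]
    [SMulInvariantMeasure G1 X μ] (g : ℕ → G1) {ξ : UX μ H} (hξ : ξ ∈ EI μ H) :
    us μ H g ξ ∈ EI μ H := by
  refine map_mem_EI (T := ((us μ H g).toContinuousLinearEquiv : UX μ H →L[ℂ] UX μ H))
    (fun c x hx => ?_) hξ
  change us μ H g (UP.mk x) ∈ _
  rw [us_mk]
  refine mk_mem_EI (c := c) ⟨hx.1, fun n => ?_⟩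
  filter_upwards [(measurePreserving_smul (g n)⁻¹ μ).quasiMeasurePreserving.ae (hx.2 n),
    kp_apply (g n) (x.1 n)] with z h1 h2
  change ‖kp μ H (g n) (x.1 n) z‖ ≤ _
  rw [h2]
  exact h1

/-- A closed subspace which is invariant under a unitary representation is invariant under `ext`. -/
theorem ext_mem_of_inv {G Λ V : Type} [Group G] [Group Λ] [NormedAddCommGroup V] [InnerProductSpace ℂ V]
    [CompleteSpace V] {A : G →* (V ≃ₗᵢ[ℂ] V)} {W : Submodule ℂ V} (hc : IsClosed (W : Set V))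
    (hW : ∀ g, ∀ x ∈ W, A g x ∈ W) (E : Emb Λ G) (l : Λ) {x : V} (hx : x ∈ W) : ext A E l x ∈ W := by
  have : CompleteSpace W := hc.completeSpace_coe
  have hinv : ∀ g (x : V), A g (A g⁻¹ x) = x := by
    intro g x
    rw [← Function.comp_apply (f := A g), ← LinearIsometryEquiv.coe_mul, ← map_mul, mul_inv_cancel,
      map_one]
    rfl
  have hP : ∀ g x, W.starProjection (A g x) = A g (W.starProjection x) := by
    intro g x
    refine Submodule.eq_starProjection_of_mem_orthogonal (hW g _ (W.starProjection_apply_mem x)) ?_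
    rw [← map_sub, Submodule.mem_orthogonal]
    intro y hy
    have h1 : inner ℂ y (A g (x - W.starProjection x)) =
        inner ℂ (A g⁻¹ y) (x - W.starProjection x) := by
      conv_lhs => rw [← hinv g y]
      rw [LinearIsometryEquiv.inner_map_map]
    rw [h1]
    exact (Submodule.mem_orthogonal _ _).1 (W.sub_starProjection_mem_orthogonal x) _ (hW g⁻¹ y hy)
  have h1 := map_ext hP E l x
  rw [Submodule.starProjection_eq_self_iff.2 hx] at h1
  rw [← h1]
  exact W.starProjection_apply_mem _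

theorem ext_mem_EI {G Λ : Type} [Group G] [Group Λ] [CompleteSpace H] (A : G →* (H ≃ₗᵢ[ℂ] H))
    (E : Emb Λ G) (l : Λ) {ξ : UX μ H} (hξ : ξ ∈ EI μ H) : ext (uxR μ A) E l ξ ∈ EI μ H :=
  ext_mem_of_inv isClosed_EI (fun g _ hx => uxR_mem_EI A g hx) E l hξ

/-- A countable family of sequences of sets is tight. -/
def Tight {ι : Type} (μ : Measure X) (E : ι → ℕ → Set X) : Prop :=
  ∀ ε : ℝ, 0 < ε → ∃ s : Finset ι, ∀ᶠ n in (hyperfilter ℕ : Filter ℕ), μ.real (⋃ i ∈ s, E i n)ᶜ ≤ ε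

/-- On equi-integrable vectors, small sets can be neglected. -/
theorem norm_uxP_small [IsFiniteMeasure μ] {E : ℕ → Set X} (hE : ∀ n, MeasurableSet (E n)) {c δ : ℝ}
    {x : BSeq (XL μ H)} (hx : EB c x) (hδ : 0 ≤ δ)
    (h : ∀ᶠ n in (hyperfilter ℕ : Filter ℕ), μ.real (E n) ≤ δ ^ 2) :
    ‖uxP μ H E (UP.mk x)‖ ≤ c * δ := by
  unfold uxP ux
  rw [mapS_mk (BMS.ind hE).bo]
  refine le_of_tendsto (UP.tendsto_norm _) ?_
  filter_upwards [h] with n hn
  change ‖mx μ H ((E n).indicator fun _ => (1 : ℂ)) (x.1 n)‖ ≤ c * δ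
  have h1 : ‖mx μ H ((E n).indicator fun _ => (1 : ℂ)) (x.1 n)‖ ^ 2 ≤ (c * δ) ^ 2 := by
    rw [xl_norm_sq]
    have h2 : ∀ᵐ z ∂μ, ‖mx μ H ((E n).indicator fun _ => (1 : ℂ)) (x.1 n) z‖ ^ 2 ≤
        (E n).indicator (fun _ => c ^ 2) z := by
      filter_upwards [hx.2 n, mx_apply (BM.ind (hE n)) (x.1 n)] with z h3 h4
      rw [h4]
      by_cases hz : z ∈ E n
      · rw [Set.indicator_of_mem hz, Set.indicator_of_mem hz, one_smul]
        exact pow_le_pow_left₀ (norm_nonneg _) h3 2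
      · rw [Set.indicator_of_notMem hz, Set.indicator_of_notMem hz, zero_smul, norm_zero]
        norm_num
    refine (integral_mono_ae (xl_int _) ((integrable_const _).indicator (hE n)) h2).trans ?_
    rw [integral_indicator_const _ (hE n), smul_eq_mul, mul_pow, mul_comm]
    exact mul_le_mul_of_nonneg_left hn (sq_nonneg c)
  exact le_of_sq_le_sq h1 (mul_nonneg hx.1 hδ)

/-- A tight partition sums to the identity on the equi-integrable subspace. -/
theorem hasSum_uxP [CompleteSpace H] [IsFiniteMeasure μ] {ι : Type} {E : ι → ℕ → Set X}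
    (hE : ∀ i n, MeasurableSet (E i n)) (h : ∀ i j, i ≠ j → ∀ n, Disjoint (E i n) (E j n))
    (ht : Tight μ E) {ξ : UX μ H} (hξ : ξ ∈ EI μ H) : HasSum (fun i => uxP μ H (E i) ξ) ξ := by
  classical
  -- partial sums are projections
  have hs : ∀ (s : Finset ι) (ξ : UX μ H), ξ - ∑ i ∈ s, uxP μ H (E i) ξ =
      uxP μ H (fun n => (⋃ i ∈ s, E i n)ᶜ) ξ := by
    intro s ξ
    have h1 := uxP_add_compl (μ := μ) (H := H) (E := fun n => ⋃ i ∈ s, E i n)
      (fun n => s.measurableSet_biUnion fun i _ => hE i n) ξ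
    rw [uxP_biUnion s hE h] at h1
    rw [sub_eq_iff_eq_add', h1]
  rw [HasSum, Metric.tendsto_nhds]
  intro ε hε
  have h1 : ξ ∈ closure (EI0 μ H : Set (UX μ H)) := hξ
  obtain ⟨_, ⟨c, x, hx, rfl⟩, hd⟩ := Metric.mem_closure_iff.1 h1 (ε / 2) (half_pos hε)
  have hδ : 0 < ε / (4 * (c + 1)) := by
    have := hx.1
    positivity
  obtain ⟨s0, hs0⟩ := ht ((ε / (4 * (c + 1))) ^ 2) (pow_pos hδ 2)
  filter_upwards [eventually_ge_atTop s0] with s hss
  rw [dist_comm, dist_eq_norm]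
  have hm : ∀ n, MeasurableSet (⋃ i ∈ s, E i n)ᶜ := fun n =>
    (s.measurableSet_biUnion fun i _ => hE i n).compl
  rw [hs s ξ]
  have h2 : uxP μ H (fun n => (⋃ i ∈ s, E i n)ᶜ) ξ =
      uxP μ H (fun n => (⋃ i ∈ s, E i n)ᶜ) (ξ - UP.mk x) +
        uxP μ H (fun n => (⋃ i ∈ s, E i n)ᶜ) (UP.mk x) := by
    rw [← map_add, sub_add_cancel]
  rw [h2]
  have h3 : ‖uxP μ H (fun n => (⋃ i ∈ s, E i n)ᶜ) (UP.mk x)‖ ≤ c * (ε / (4 * (c + 1))) := by
    refine norm_uxP_small hm hx hδ.le ?_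
    filter_upwards [hs0] with n hn
    refine le_trans (measureReal_mono ?_) hn
    rw [Set.compl_subset_compl]
    exact Set.biUnion_mono hss fun _ _ => le_rfl
  have h4 : c * (ε / (4 * (c + 1))) < ε / 2 := by
    have h5 := hx.1
    rw [← mul_div_assoc, div_lt_div_iff₀ (by positivity) two_pos]
    nlinarith
  refine (norm_add_le _ _).trans_lt ?_
  have h6 := norm_uxP_le hm (ξ - UP.mk x)
  rw [dist_eq_norm] at hd
  linarith

end EI

end Pool.Agent.Helper66.FR
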