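import Pool.Agent.Helper66.FR.XP5
import Pool.Agent.Helper84.FR.PV

/-!
# Project FR (MP_0f6f3f_an): the equi-integrable space as a type

`UE μ H` is the equi-integrable subspace `EI μ H` of `UX μ H`, as a Hilbert space; it is a functor in `H`
(`UE.map`, `UE.mapU`, `UE.mapI`, `UE.rep`), and `xmU μ b H` is the structure `XM (cen b) X (UE μ H)`.
-/

set_option autoImplicit false
set_option linter.unusedSectionVars false

open MeasureTheory Filter Topology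
open scoped ComplexConjugate ENNReal

namespace Pool.Agent.Helper66.FR

open Pool.Agent.Helper84.NI Pool.Agent.Helper84.FR

section UE

variable {X : Type} [MeasurableSpace X]

/-- The equi-integrable part of the ultrapower of `L²(X; H)`. -/
def UE (μ : Measure X) (H : Type) [NormedAddCommGroup H] [InnerProductSpace ℂ H] : Type := EI μ H

variable {μ : Measure X}
variable {H K L : Type} [NormedAddCommGroup H] [InnerProductSpace ℂ H]
  [NormedAddCommGroup K] [InnerProductSpace ℂ K] [NormedAddCommGroup L] [InnerProductSpace ℂ L]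

noncomputable instance : NormedAddCommGroup (UE μ H) := inferInstanceAs (NormedAddCommGroup (EI μ H))

noncomputable instance : InnerProductSpace ℂ (UE μ H) := inferInstanceAs (InnerProductSpace ℂ (EI μ H))

instance : CompleteSpace (UE μ H) := isClosed_EI.completeSpace_coe

/-- The inclusion in `UX μ H`. -/
noncomputable def UE.val : UE μ H →ₗᵢ[ℂ] UX μ H := (EI μ H).subtypeₗᵢ

theorem UE.val_mem (ξ : UE μ H) : UE.val ξ ∈ EI μ H := ξ.2

theorem UE.val_injective : Function.Injective (UE.val : UE μ H → UX μ H) := UE.val.injective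

theorem UE.eq {ξ η : UE μ H} (h : UE.val ξ = UE.val η) : ξ = η := UE.val_injective h

/-- An element of `UE`. -/
noncomputable def UE.of (ξ : UX μ H) (h : ξ ∈ EI μ H) : UE μ H := ⟨ξ, h⟩

@[simp] theorem UE.val_of (ξ : UX μ H) (h : ξ ∈ EI μ H) : UE.val (UE.of ξ h) = ξ := rfl

/-- The class of a uniformly bounded sequence. -/
noncomputable def UE.mk (x : BSeq (XL μ H)) {c : ℝ} (hx : EB c x) : UE μ H := UE.of (UP.mk x) (mk_mem_EI hx)

@[simp] theorem UE.val_mk (x : BSeq (XL μ H)) {c : ℝ} (hx : EB c x) : UE.val (UE.mk x hx) = UP.mk x := rfl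

theorem UE.tendsto_norm (x : BSeq (XL μ H)) {c : ℝ} (hx : EB c x) :
    Tendsto (fun n => ‖x.1 n‖) (hyperfilter ℕ : Filter ℕ) (𝓝 ‖UE.mk x hx‖) := UP.tendsto_norm x

theorem UE.tendsto_inner (x y : BSeq (XL μ H)) {c d : ℝ} (hx : EB c x) (hy : EB d y) :
    Tendsto (fun n => inner ℂ (x.1 n) (y.1 n)) (hyperfilter ℕ : Filter ℕ)
      (𝓝 (inner ℂ (UE.mk x hx) (UE.mk y hy))) := UP.tendsto_inner x y

theorem ei_closure (ξ : EI μ H) :
    ξ ∈ closure {η : EI μ H | (η : UX μ H) ∈ (EI0 μ H : Set (UX μ H))} := by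
  rw [closure_subtype]
  refine closure_mono ?_ (show (ξ : UX μ H) ∈ closure (EI0 μ H : Set (UX μ H)) from ξ.2)
  intro y hy
  exact ⟨⟨y, Submodule.le_topologicalClosure _ hy⟩, hy, rfl⟩

/-- Induction principle for closed properties. -/
theorem UE.induction {p : UE μ H → Prop} (ξ : UE μ H) (hc : IsClosed {ξ | p ξ})
    (h : ∀ (x : BSeq (XL μ H)) (c : ℝ) (hx : EB c x), p (UE.mk x hx)) : p ξ := by
  have h2 := ei_closure (show EI μ H from ξ)
  refine closure_minimal (t := {ξ : UE μ H | p ξ}) ?_ hc h2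
  rintro ⟨y, hy⟩ ⟨c, x, hx, hxy⟩
  have h3 := h x c hx
  have h4 : (UE.mk x hx : UE μ H) = (⟨y, hy⟩ : EI μ H) := Subtype.ext hxy
  rw [h4] at h3
  exact h3

/-- Two continuous maps agreeing on classes of sequences agree. -/
theorem UE.ext_fun {Y : Type} [TopologicalSpace Y] [T2Space Y] {f g : UE μ H → Y} (hf : Continuous f)
    (hg : Continuous g) (h : ∀ (x : BSeq (XL μ H)) (c : ℝ) (hx : EB c x), f (UE.mk x hx) = g (UE.mk x hx))
    (ξ : UE μ H) : f ξ = g ξ :=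
  UE.induction ξ (isClosed_eq hf hg) h

/-- Restriction of an operator which preserves the equi-integrable vectors. -/
noncomputable def UE.lift (T : UX μ H →L[ℂ] UX μ K) (hT : ∀ ξ ∈ EI μ H, T ξ ∈ EI μ K) :
    UE μ H →L[ℂ] UE μ K :=
  (T.comp (EI μ H).subtypeL).codRestrict (EI μ K) fun ξ => hT _ ξ.2

@[simp] theorem UE.val_lift (T : UX μ H →L[ℂ] UX μ K) (hT : ∀ ξ ∈ EI μ H, T ξ ∈ EI μ K) (ξ : UE μ H) :
    UE.val (UE.lift T hT ξ) = T (UE.val ξ) := rfl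

/-- The operator given by a constant field of operators. -/
noncomputable def UE.map (μ : Measure X) (T : H →L[ℂ] K) : UE μ H →L[ℂ] UE μ K :=
  UE.lift (uxm μ T) fun _ hξ => uxm_mem_EI T hξ

@[simp] theorem UE.val_map (T : H →L[ℂ] K) (ξ : UE μ H) : UE.val (UE.map μ T ξ) = uxm μ T (UE.val ξ) := rfl

theorem EB.map {c : ℝ} {x : BSeq (XL μ H)} (hx : EB c x) (T : H →L[ℂ] K) :
    EB (‖T‖ * c) (BSeq.map (cl μ T) x) := by
  refine ⟨mul_nonneg (norm_nonneg _) hx.1, fun n => ?_⟩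
  filter_upwards [hx.2 n, cl_apply T (x.1 n)] with z h1 h2
  change ‖cl μ T (x.1 n) z‖ ≤ _
  rw [h2]
  exact (T.le_opNorm _).trans (mul_le_mul_of_nonneg_left h1 (norm_nonneg _))

theorem UE.map_mk (T : H →L[ℂ] K) (x : BSeq (XL μ H)) {c : ℝ} (hx : EB c x) :
    UE.map μ T (UE.mk x hx) = UE.mk (BSeq.map (cl μ T) x) (hx.map T) := UE.eq (uxm_mk T x)

theorem UE.map_comp (S : K →L[ℂ] L) (T : H →L[ℂ] K) (ξ : UE μ H) :
    UE.map μ (S.comp T) ξ = UE.map μ S (UE.map μ T ξ) := UE.eq (uxm_comp S T _)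

theorem UE.map_id (ξ : UE μ H) : UE.map μ (ContinuousLinearMap.id ℂ H) ξ = ξ := UE.eq (uxm_id _)

theorem UE.map_add (S T : H →L[ℂ] K) (ξ : UE μ H) :
    UE.map μ (S + T) ξ = UE.map μ S ξ + UE.map μ T ξ := by
  refine UE.eq ?_
  rw [UE.val_map, uxm_add, _root_.map_add]
  rfl

theorem UE.map_smul (c : ℂ) (T : H →L[ℂ] K) (ξ : UE μ H) : UE.map μ (c • T) ξ = c • UE.map μ T ξ := by
  refine UE.eq ?_
  rw [UE.val_map, uxm_smul, _root_.map_smul]
  rfl

theorem UE.map_sub (S T : H →L[ℂ] K) (ξ : UE μ H) :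
    UE.map μ (S - T) ξ = UE.map μ S ξ - UE.map μ T ξ := by
  refine UE.eq ?_
  rw [UE.val_map, uxm_sub, _root_.map_sub]
  rfl

theorem UE.map_zero (ξ : UE μ H) : UE.map μ (0 : H →L[ℂ] K) ξ = 0 := by
  refine UE.eq ?_
  rw [UE.val_map, uxm_zero, _root_.map_zero]

theorem UE.map_sum {ι : Type} (s : Finset ι) (T : ι → H →L[ℂ] K) (ξ : UE μ H) :
    UE.map μ (∑ i ∈ s, T i) ξ = ∑ i ∈ s, UE.map μ (T i) ξ := by
  refine UE.eq ?_
  rw [UE.val_map, uxm_sum, _root_.map_sum]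
  rfl

theorem UE.norm_val (ξ : UE μ H) : ‖UE.val ξ‖ = ‖ξ‖ := UE.val.norm_map ξ

theorem UE.inner_val (ξ η : UE μ H) : inner ℂ (UE.val ξ) (UE.val η) = inner ℂ ξ η := UE.val.inner_map_map ξ η

theorem UE.norm_map_le (T : H →L[ℂ] K) (ξ : UE μ H) : ‖UE.map μ T ξ‖ ≤ ‖T‖ * ‖ξ‖ := norm_uxm_le T (UE.val ξ)

theorem UE.norm_map_le_of {T : H →L[ℂ] K} {C : ℝ} (hC : 0 ≤ C) (hT : ∀ x, ‖T x‖ ≤ C * ‖x‖) (ξ : UE μ H) :
    ‖UE.map μ T ξ‖ ≤ C * ‖ξ‖ := norm_uxm_le_of hC hT (UE.val ξ)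

theorem UE.sum_sq_le {ι : Type} (s : Finset ι) (T : ι → H →L[ℂ] K) {C : ℝ}
    (hT : ∀ x, ∑ i ∈ s, ‖T i x‖ ^ 2 ≤ C * ‖x‖ ^ 2) (ξ : UE μ H) :
    ∑ i ∈ s, ‖UE.map μ (T i) ξ‖ ^ 2 ≤ C * ‖ξ‖ ^ 2 := uxm_sum_sq_le s T hT (UE.val ξ)

theorem UE.sum_sq_eq {ι : Type} (s : Finset ι) (T : ι → H →L[ℂ] K)
    (hT : ∀ x, ∑ i ∈ s, ‖T i x‖ ^ 2 = ‖x‖ ^ 2) (ξ : UE μ H) :
    ∑ i ∈ s, ‖UE.map μ (T i) ξ‖ ^ 2 = ‖ξ‖ ^ 2 := uxm_sum_sq_eq s T hT (UE.val ξ)

theorem UE.inner_map [CompleteSpace H] [CompleteSpace K] (T : H →L[ℂ] K) (ξ : UE μ H) (η : UE μ K) :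
    inner ℂ (UE.map μ T ξ) η = inner ℂ ξ (UE.map μ (ContinuousLinearMap.adjoint T) η) :=
  inner_uxm T (UE.val ξ) (UE.val η)

theorem UE.re_inner_nonneg {T S : H →L[ℂ] K} (h : ∀ x, 0 ≤ (inner ℂ (S x) (T x)).re) (ξ : UE μ H) :
    0 ≤ (inner ℂ (UE.map μ S ξ) (UE.map μ T ξ)).re := uxm_re_inner_nonneg h (UE.val ξ)

/-- The unitary given by a constant field. -/
noncomputable def UE.mapU (μ : Measure X) (T : H ≃ₗᵢ[ℂ] K) : UE μ H ≃ₗᵢ[ℂ] UE μ K where
  toFun := UE.map μ (T.toContinuousLinearEquiv : H →L[ℂ] K)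
  invFun := UE.map μ (T.symm.toContinuousLinearEquiv : K →L[ℂ] H)
  map_add' := _root_.map_add _
  map_smul' := _root_.map_smul _
  left_inv ξ := by
    rw [← UE.map_comp]
    convert! UE.map_id ξ using 2
    ext x
    simp
  right_inv ξ := by
    rw [← UE.map_comp]
    convert! UE.map_id ξ using 2
    ext x
    simp
  norm_map' ξ := (uxU μ T).norm_map (UE.val ξ)

theorem UE.mapU_apply (T : H ≃ₗᵢ[ℂ] K) (ξ : UE μ H) :
    UE.mapU μ T ξ = UE.map μ (T.toContinuousLinearEquiv : H →L[ℂ] K) ξ := rfl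

/-- The isometry given by a constant field. -/
noncomputable def UE.mapI (μ : Measure X) (T : H →ₗᵢ[ℂ] K) : UE μ H →ₗᵢ[ℂ] UE μ K where
  toLinearMap := (UE.map μ T.toContinuousLinearMap).toLinearMap
  norm_map' ξ := (uxI μ T).norm_map (UE.val ξ)

theorem UE.mapI_apply (T : H →ₗᵢ[ℂ] K) (ξ : UE μ H) :
    UE.mapI μ T ξ = UE.map μ T.toContinuousLinearMap ξ := rfl

/-- The representation given by a constant field. -/
noncomputable def UE.rep {G : Type} [Group G] (μ : Measure X) (A : G →* (H ≃ₗᵢ[ℂ] H)) :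
    G →* (UE μ H ≃ₗᵢ[ℂ] UE μ H) where
  toFun g := UE.mapU μ (A g)
  map_one' := by
    ext ξ : 1
    rw [UE.mapU_apply, map_one]
    exact UE.map_id ξ
  map_mul' g h := by
    ext ξ : 1
    rw [LinearIsometryEquiv.coe_mul, Function.comp_apply, UE.mapU_apply, UE.mapU_apply, UE.mapU_apply,
      ← UE.map_comp, map_mul]
    rfl

theorem UE.rep_apply {G : Type} [Group G] (A : G →* (H ≃ₗᵢ[ℂ] H)) (g : G) (ξ : UE μ H) :
    UE.rep μ A g ξ = UE.map μ ((A g).toContinuousLinearEquiv : H →L[ℂ] H) ξ := rfl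

/-- Intertwining relations pass to `UE`. -/
theorem UE.map_rep {G : Type} [Group G] {A : G →* (H ≃ₗᵢ[ℂ] H)} {A' : G →* (K ≃ₗᵢ[ℂ] K)} {T : H →L[ℂ] K}
    (hT : ∀ g x, T (A g x) = A' g (T x)) (g : G) (ξ : UE μ H) :
    UE.map μ T (UE.rep μ A g ξ) = UE.rep μ A' g (UE.map μ T ξ) := UE.eq (uxm_uxR hT g (UE.val ξ))

/-- The projection given by a sequence of measurable sets. -/
noncomputable def UE.P (μ : Measure X) (H : Type) [NormedAddCommGroup H] [InnerProductSpace ℂ H]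
    (E : ℕ → Set X) : UE μ H →L[ℂ] UE μ H := by
  classical exact
  if h : ∀ n, MeasurableSet (E n) then UE.lift (uxP μ H E) fun _ hξ => uxP_mem_EI h hξ else 0

theorem UE.val_P {E : ℕ → Set X} (hE : ∀ n, MeasurableSet (E n)) (ξ : UE μ H) :
    UE.val (UE.P μ H E ξ) = uxP μ H E (UE.val ξ) := by
  unfold UE.P
  rw [dif_pos hE]
  rfl

theorem UE.map_P (T : H →L[ℂ] K) {E : ℕ → Set X} (hE : ∀ n, MeasurableSet (E n)) (ξ : UE μ H) :
    UE.map μ T (UE.P μ H E ξ) = UE.P μ K E (UE.map μ T ξ) := by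
  refine UE.eq ?_
  rw [UE.val_map, UE.val_P hE, UE.val_P hE, UE.val_map, uxm_uxP T hE]

/-- Multiplication by a bounded sequence of bounded measurable functions. -/
noncomputable def UE.mx (μ : Measure X) (H : Type) [NormedAddCommGroup H] [InnerProductSpace ℂ H]
    (p : ℕ → X → ℂ) : UE μ H →L[ℂ] UE μ H := by
  classical exact
  if h : ∃ C, BMS C p then UE.lift (ux μ H p) fun _ hξ => ux_mem_EI h.choose_spec hξ else 0

theorem UE.val_mx {C : ℝ} {p : ℕ → X → ℂ} (hp : BMS C p) (ξ : UE μ H) :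
    UE.val (UE.mx μ H p ξ) = ux μ H p (UE.val ξ) := by
  unfold UE.mx
  rw [dif_pos ⟨C, hp⟩]
  rfl

theorem UE.map_mx (T : H →L[ℂ] K) {C : ℝ} {p : ℕ → X → ℂ} (hp : BMS C p) (ξ : UE μ H) :
    UE.map μ T (UE.mx μ H p ξ) = UE.mx μ K p (UE.map μ T ξ) := by
  refine UE.eq ?_
  rw [UE.val_map, UE.val_mx hp, UE.val_mx hp, UE.val_map, uxm_ux T hp]

/-- A constant sequence of sets which is a countable partition is tight. -/
theorem tight_of_partition [IsFiniteMeasure μ] {I : Type} [Countable I] {c : X → I}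
    (hc : ∀ i, MeasurableSet (c ⁻¹' {i})) {ε : ℝ} (hε : 0 < ε) :
    ∃ s : Finset I, μ.real (⋃ i ∈ s, c ⁻¹' {i})ᶜ ≤ ε := by
  classical
  have h1 : Tendsto (fun s : Finset I => μ (⋃ i ∈ s, c ⁻¹' {i})) atTop (𝓝 (μ (⋃ i, c ⁻¹' {i}))) := by
    have h2 : Monotone fun s : Finset I => ⋃ i ∈ s, c ⁻¹' {i} := by
      intro s t hst
      exact Set.biUnion_mono hst fun _ _ => le_rfl
    have h3 : ⋃ i, c ⁻¹' {i} = ⋃ s : Finset I, ⋃ i ∈ s, c ⁻¹' {i} := by
      ext x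
      simp only [Set.mem_iUnion, Set.mem_preimage, Set.mem_singleton_iff, exists_prop]
      exact ⟨fun ⟨i, hi⟩ => ⟨{i}, i, by simp, hi⟩, fun ⟨_, i, _, hi⟩ => ⟨i, hi⟩⟩
    rw [h3]
    exact tendsto_measure_iUnion_atTop h2
  have h4 : (⋃ i, c ⁻¹' {i} : Set X) = Set.univ := by
    ext x
    simp
  rw [h4] at h1
  have h5 : Tendsto (fun s : Finset I => μ.real (⋃ i ∈ s, c ⁻¹' {i})) atTop (𝓝 (μ.real Set.univ)) :=
    (ENNReal.tendsto_toReal (measure_ne_top μ _)).comp h1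
  obtain ⟨s, hs⟩ := ((h5.eventually (lt_mem_nhds (show μ.real Set.univ - ε < μ.real Set.univ by linarith)))).exists
  refine ⟨s, ?_⟩
  have h6 := measureReal_compl (μ := μ) (s.measurableSet_biUnion fun i _ => hc i)
  rw [h6]
  linarith

end UE

end Pool.Agent.Helper66.FR
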