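import Pool.Agent.Helper66.FR.XP7

/-!
# Project FR (MP_0f6f3f_an): fields of operators on `L²(X; H)`
-/

set_option autoImplicit false
set_option linter.unusedSectionVars false

open MeasureTheory Filter Topology
open scoped ComplexConjugate ENNReal

namespace Pool.Agent.Helper66.FR

open Pool.Agent.Helper84.NI Pool.Agent.Helper84.FR

section Sv

variable {X : Type} [MeasurableSpace X] {μ : Measure X}
variable {H K L : Type} [NormedAddCommGroup H] [InnerProductSpace ℂ H]
  [NormedAddCommGroup K] [InnerProductSpace ℂ K] [NormedAddCommGroup L] [InnerProductSpace ℂ L]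

/-- The class of a square integrable function (zero if the function is not square integrable). -/
noncomputable def sv (μ : Measure X) (f : X → H) : XL μ H := by
  classical exact if h : MemLp f 2 μ then h.toLp f else 0

theorem sv_apply {f : X → H} (h : MemLp f 2 μ) : ∀ᵐ x ∂μ, sv μ f x = f x := by
  unfold sv
  rw [dif_pos h]
  exact h.coeFn_toLp

theorem memLp_bdd [IsFiniteMeasure μ] {f : X → H} (hf : StronglyMeasurable f) {C : ℝ}
    (hC : ∀ x, ‖f x‖ ≤ C) : MemLp f 2 μ :=
  MemLp.of_bound hf.aestronglyMeasurable C (ae_of_all _ hC)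

theorem sv_bound {f : X → H} {C : ℝ} (h0 : 0 ≤ C) (hC : ∀ x, ‖f x‖ ≤ C) : ∀ᵐ x ∂μ, ‖sv μ f x‖ ≤ C := by
  by_cases h : MemLp f 2 μ
  · filter_upwards [sv_apply h] with x hx
    rw [hx]
    exact hC x
  · unfold sv
    rw [dif_neg h]
    filter_upwards [Lp.coeFn_zero H 2 μ] with x hx
    rw [hx]
    simpa using h0

theorem norm_sv_le [IsProbabilityMeasure μ] {f : X → H} {C : ℝ} (h0 : 0 ≤ C) (hC : ∀ x, ‖f x‖ ≤ C) :
    ‖sv μ f‖ ≤ C := by
  refine le_of_sq_le_sq ?_ h0
  rw [xl_norm_sq]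
  have h1 : ∫ x, ‖sv μ f x‖ ^ 2 ∂μ ≤ ∫ _, C ^ 2 ∂μ := by
    refine integral_mono_ae (xl_int _) (integrable_const _) ?_
    filter_upwards [sv_bound (μ := μ) h0 hC] with x hx
    exact pow_le_pow_left₀ (norm_nonneg _) hx 2
  simpa using h1

/-- Functions with countably many values. -/
theorem sm_mea {Λ : Type} [Countable Λ] {c : X → Λ} (hc : ∀ l, MeasurableSet (c ⁻¹' {l})) {Y : Type}
    [TopologicalSpace Y] (w : Λ → Y) : StronglyMeasurable fun x => w (c x) := by
  let mΛ : MeasurableSpace Λ := ⊤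
  have h1 : Measurable c := measurable_to_countable' hc
  exact (StronglyMeasurable.of_discrete (f := w)).comp_measurable h1

/-- Bounded strongly measurable fields of operators. -/
def FM (C : ℝ) (T : X → (H →L[ℂ] K)) : Prop :=
  0 ≤ C ∧ (∀ v, StronglyMeasurable fun x => T x v) ∧ ∀ x v, ‖T x v‖ ≤ C * ‖v‖

theorem FM.sm {C : ℝ} {T : X → (H →L[ℂ] K)} (hT : FM C T) {f : X → H} (hf : StronglyMeasurable f) :
    StronglyMeasurable fun x => T x (f x) := by
  have h1 : ∀ n, StronglyMeasurable fun x => T x (hf.approx n x) := by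
    intro n
    have h2 : (fun x => T x (hf.approx n x)) =
        ∑ v ∈ (hf.approx n).range, (hf.approx n ⁻¹' {v}).indicator fun x => T x v := by
      classical
      funext x
      rw [Finset.sum_apply, Finset.sum_eq_single (hf.approx n x)]
      · rw [Set.indicator_of_mem]
        rfl
      · intro v _ hv
        rw [Set.indicator_of_notMem]
        intro h
        exact hv h.symm
      · intro h
        exact absurd (SimpleFunc.mem_range_self _ _) h
    rw [h2]
    exact Finset.stronglyMeasurable_sum _ fun v _ =>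
      (hT.2.1 v).indicator (SimpleFunc.measurableSet_fiber _ _)
  refine stronglyMeasurable_of_tendsto atTop h1 ?_
  rw [tendsto_pi_nhds]
  intro x
  exact ((T x).continuous.tendsto _).comp (hf.tendsto_approx x)

theorem FM.asm {C : ℝ} {T : X → (H →L[ℂ] K)} (hT : FM C T) {f : X → H} (hf : AEStronglyMeasurable f μ) :
    AEStronglyMeasurable (fun x => T x (f x)) μ := by
  refine ⟨fun x => T x (hf.mk f x), hT.sm hf.stronglyMeasurable_mk, ?_⟩
  filter_upwards [hf.ae_eq_mk] with x hx
  rw [← hx]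

theorem FM.memLp {C : ℝ} {T : X → (H →L[ℂ] K)} (hT : FM C T) (f : XL μ H) :
    MemLp (fun x => T x (f x)) 2 μ := by
  refine MemLp.of_le_mul (c := C) (Lp.memLp f) (hT.asm (Lp.aestronglyMeasurable f)) (ae_of_all _ fun x => ?_)
  exact hT.2.2 x _

open Classical in
/-- The operator on `L²(X; H)` given by a field of operators. -/
noncomputable def fop (μ : Measure X) (T : X → (H →L[ℂ] K)) : XL μ H →L[ℂ] XL μ K :=
  if h : ∃ C, FM C T then
    LinearMap.mkContinuous
      { toFun := fun f => (h.choose_spec.memLp f).toLp _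
        map_add' := fun f g => by
          refine xl_ext ?_
          filter_upwards [(h.choose_spec.memLp (f + g)).coeFn_toLp, (h.choose_spec.memLp f).coeFn_toLp,
            (h.choose_spec.memLp g).coeFn_toLp, Lp.coeFn_add ((h.choose_spec.memLp f).toLp _)
            ((h.choose_spec.memLp g).toLp _), Lp.coeFn_add f g] with x h1 h2 h3 h4 h5
          rw [h1, h4, Pi.add_apply, h2, h3, h5, Pi.add_apply, map_add]
        map_smul' := fun c f => by
          refine xl_ext ?_
          filter_upwards [(h.choose_spec.memLp (c • f)).coeFn_toLp, (h.choose_spec.memLp f).coeFn_toLp,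
            Lp.coeFn_smul c ((h.choose_spec.memLp f).toLp _), Lp.coeFn_smul c f] with x h1 h2 h4 h5
          rw [h1, RingHom.id_apply, h4, Pi.smul_apply, h2, h5, Pi.smul_apply, map_smul] }
      h.choose (by
        intro f
        refine xl_norm_le h.choose_spec.1 ?_
        filter_upwards [(h.choose_spec.memLp f).coeFn_toLp] with x h1
        change ‖((h.choose_spec.memLp f).toLp _ : XL μ K) x‖ ≤ _
        rw [h1]
        exact h.choose_spec.2.2 x _)
  else 0

theorem fop_apply {C : ℝ} {T : X → (H →L[ℂ] K)} (hT : FM C T) (f : XL μ H) :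
    ∀ᵐ x ∂μ, fop μ T f x = T x (f x) := by
  have h : ∃ C, FM C T := ⟨C, hT⟩
  unfold fop
  rw [dif_pos h]
  exact (h.choose_spec.memLp f).coeFn_toLp

theorem norm_fop_le {C : ℝ} {T : X → (H →L[ℂ] K)} (hT : FM C T) (f : XL μ H) :
    ‖fop μ T f‖ ≤ C * ‖f‖ := by
  refine xl_norm_le hT.1 ?_
  filter_upwards [fop_apply hT f] with x hx
  rw [hx]
  exact hT.2.2 x _

theorem FM.comp {C D : ℝ} {S : X → (K →L[ℂ] L)} {T : X → (H →L[ℂ] K)} (hS : FM C S) (hT : FM D T) :
    FM (C * D) fun x => (S x).comp (T x) := by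
  refine ⟨mul_nonneg hS.1 hT.1, fun v => hS.sm (hT.2.1 v), fun x v => (hS.2.2 x _).trans ?_⟩
  rw [mul_assoc]
  exact mul_le_mul_of_nonneg_left (hT.2.2 x v) hS.1

/-- Fields with countably many values. -/
theorem FM.mea {Λ : Type} [Countable Λ] {c : X → Λ} (hc : ∀ l, MeasurableSet (c ⁻¹' {l}))
    {w : Λ → (H →L[ℂ] K)} {C : ℝ} (h0 : 0 ≤ C) (hw : ∀ l v, ‖w l v‖ ≤ C * ‖v‖) : FM C fun x => w (c x) :=
  ⟨h0, fun v => sm_mea hc fun l => w l v, fun x v => hw _ v⟩

/-- Isometric fields. -/
theorem norm_fop {T : X → (H →L[ℂ] K)} {C : ℝ} (hT : FM C T) (h : ∀ x v, ‖T x v‖ = ‖v‖) (f : XL μ H) :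
    ‖fop μ T f‖ = ‖f‖ := by
  have h1 : ‖fop μ T f‖ ^ 2 = ‖f‖ ^ 2 := by
    rw [xl_norm_sq, xl_norm_sq]
    refine integral_congr_ae ?_
    filter_upwards [fop_apply hT f] with x hx
    rw [hx, h]
  exact (sq_eq_sq₀ (norm_nonneg _) (norm_nonneg _)).1 h1

theorem fop_mx {C D : ℝ} {T : X → (H →L[ℂ] K)} (hT : FM C T) {p : X → ℂ} (hp : BM D p) (f : XL μ H) :
    fop μ T (mx μ H p f) = mx μ K p (fop μ T f) := by
  refine xl_ext ?_
  filter_upwards [fop_apply hT (mx μ H p f), mx_apply hp f, mx_apply hp (fop μ T f), fop_apply hT f]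
    with x h1 h2 h3 h4
  rw [h1, h2, h3, h4, map_smul]

end Sv

section Shift

variable {G1 X : Type} [Group G1] [MeasurableSpace X] {μ : Measure X} [MulAction G1 X]
  [MeasurableConstSMul G1 X] [SMulInvariantMeasure G1 X μ]
variable {H K : Type} [NormedAddCommGroup H] [InnerProductSpace ℂ H]
  [NormedAddCommGroup K] [InnerProductSpace ℂ K]

theorem FM.smul {C : ℝ} {T : X → (H →L[ℂ] K)} (hT : FM C T) (g : G1) : FM C fun x => T (g • x) :=
  ⟨hT.1, fun v => (hT.2.1 v).comp_measurable (measurable_const_smul g), fun x v => hT.2.2 _ v⟩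

theorem kp_fop {C : ℝ} {T : X → (H →L[ℂ] K)} (hT : FM C T) (g : G1) (f : XL μ H) :
    kp μ K g (fop μ T f) = fop μ (fun x => T (g⁻¹ • x)) (kp μ H g f) := by
  refine xl_ext ?_
  filter_upwards [kp_apply g (fop μ T f), fop_apply (hT.smul g⁻¹) (kp μ H g f), kp_apply g f,
    (measurePreserving_smul g⁻¹ μ).quasiMeasurePreserving.ae (fop_apply hT f)] with x h1 h2 h3 h4
  rw [h1, h4, h2, h3]

theorem kp_sv [IsFiniteMeasure μ] {f : X → H} (hf : StronglyMeasurable f) {C : ℝ} (hC : ∀ x, ‖f x‖ ≤ C)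
    (g : G1) : kp μ H g (sv μ f) = sv μ fun x => f (g⁻¹ • x) := by
  refine xl_ext ?_
  have hf' : StronglyMeasurable fun x => f (g⁻¹ • x) := hf.comp_measurable (measurable_const_smul g⁻¹)
  filter_upwards [kp_apply g (sv μ f), sv_apply (memLp_bdd (μ := μ) hf' fun x => hC _),
    (measurePreserving_smul g⁻¹ μ).quasiMeasurePreserving.ae (sv_apply (memLp_bdd (μ := μ) hf hC))]
    with x h1 h2 h3
  rw [h1, h3, h2]

end Shift

end Pool.Agent.Helper66.FR
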