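import Pool.Agent.Helper66.FR.Zt1
import Pool.Agent.Helper84.NI.Rep
import Pool.Agent.Helper84.NI.E2
import Pool.Agent.Helper84.NI.E4

/-!
# Project FR (MP_0f6f3f_an): the vectors `x ↦ U_{α_n(x)} δ₁`
-/

set_option autoImplicit false
set_option linter.unusedSectionVars false

open MeasureTheory Filter Topology
open scoped ComplexConjugate ENNReal

namespace Pool.Agent.Helper66.FR

open Pool.Agent.Helper84.NI Pool.Agent.Helper84.FR Pool.Agent.Helper84.GVN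

section Sop

variable {X : Type} [MeasurableSpace X] {μ : Measure X} [IsProbabilityMeasure μ]
variable {H K : Type} [NormedAddCommGroup H] [InnerProductSpace ℂ H]
  [NormedAddCommGroup K] [InnerProductSpace ℂ K]

/-- Sequences of operators with values in uniformly bounded functions. -/
def SO (C : ℝ) (S : ℕ → (H →L[ℂ] XL μ K)) : Prop := 0 ≤ C ∧ ∀ n f, ∀ᵐ x ∂μ, ‖S n f x‖ ≤ C * ‖f‖

theorem norm_le_of_ae {f : XL μ H} {C : ℝ} (hC : 0 ≤ C) (h : ∀ᵐ x ∂μ, ‖f x‖ ≤ C) : ‖f‖ ≤ C := by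
  refine le_of_sq_le_sq ?_ hC
  rw [xl_norm_sq]
  have h1 : ∫ x, ‖f x‖ ^ 2 ∂μ ≤ ∫ _, C ^ 2 ∂μ := by
    refine integral_mono_ae (xl_int _) (integrable_const _) ?_
    filter_upwards [h] with x hx
    exact pow_le_pow_left₀ (norm_nonneg _) hx 2
  simpa using h1

theorem SO.norm_le {C : ℝ} {S : ℕ → (H →L[ℂ] XL μ K)} (h : SO C S) (n : ℕ) (f : H) : ‖S n f‖ ≤ C * ‖f‖ :=
  norm_le_of_ae (mul_nonneg h.1 (norm_nonneg _)) (h.2 n f)

/-- The sequence of the vectors `S n f`. -/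
noncomputable def SO.seq {C : ℝ} {S : ℕ → (H →L[ℂ] XL μ K)} (h : SO C S) (f : H) : BSeq (XL μ K) :=
  ⟨fun n => S n f, C * ‖f‖, fun n => h.norm_le n f⟩

theorem SO.eb {C : ℝ} {S : ℕ → (H →L[ℂ] XL μ K)} (h : SO C S) (f : H) : EB (C * ‖f‖) (h.seq f) :=
  ⟨mul_nonneg h.1 (norm_nonneg _), fun n => h.2 n f⟩

open Classical in
/-- The operator `f ↦ (S n f)_n`. -/
noncomputable def sop (S : ℕ → (H →L[ℂ] XL μ K)) : H →L[ℂ] UE μ K :=
  if h : ∃ C, SO C S then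
    LinearMap.mkContinuous
      { toFun := fun f => UE.mk (h.choose_spec.seq f) (h.choose_spec.eb f)
        map_add' := fun f g => by
          refine UE.eq ?_
          change UP.mk (h.choose_spec.seq (f + g)) = UP.mk (h.choose_spec.seq f) + UP.mk (h.choose_spec.seq g)
          rw [← UP.mk_add]
          exact congrArg UP.mk (Subtype.ext (funext fun n => map_add (S n) f g))
        map_smul' := fun c f => by
          refine UE.eq ?_
          change UP.mk (h.choose_spec.seq (c • f)) = c • UP.mk (h.choose_spec.seq f)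
          rw [← UP.mk_smul]
          exact congrArg UP.mk (Subtype.ext (funext fun n => map_smul (S n) c f)) }
      h.choose (by
        intro f
        exact UP.norm_mk_le _ fun n => h.choose_spec.norm_le n f)
  else 0

theorem sop_apply {C : ℝ} {S : ℕ → (H →L[ℂ] XL μ K)} (h : SO C S) (f : H) :
    sop S f = UE.mk (h.seq f) (h.eb f) := by
  have h1 : ∃ C, SO C S := ⟨C, h⟩
  unfold sop
  rw [dif_pos h1]
  rfl

theorem UE.mk_congr {x y : BSeq (XL μ H)} {c d : ℝ} (hx : EB c x) (hy : EB d y)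
    (h : ∀ n, ∀ᵐ z ∂μ, x.1 n z = y.1 n z) : UE.mk x hx = UE.mk y hy := by
  refine UE.eq ?_
  change UP.mk x = UP.mk y
  exact congrArg UP.mk (Subtype.ext (funext fun n => xl_ext (h n)))

/-- Projections onto small sets. -/
theorem UE.norm_P_small {D : ℕ → Set X} (hD : ∀ n, MeasurableSet (D n)) {c δ : ℝ}
    {x : BSeq (XL μ H)} (hx : EB c x) (hδ : 0 ≤ δ)
    (h : ∀ n, μ.real (D n) ≤ δ ^ 2) : ‖UE.P μ H D (UE.mk x hx)‖ ≤ c * δ := by
  rw [← UE.norm_val, UE.val_P hD, UE.val_mk]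
  exact norm_uxP_small hD hx hδ (Eventually.of_forall h)

end Sop

section Zt

variable {X G Λ : Type} [MeasurableSpace X] [Group G] [Group Λ] {μ : Measure X} [IsProbabilityMeasure μ]
  {E : Emb Λ G}

/-- The function `x ↦ U_{c(x)} δ₁`. -/
noncomputable def zv (μ : Measure X) (E : Emb Λ G) (c : X → Λ) : XL μ (L2 G) :=
  sv μ fun x => cf (E.U (c x))

theorem zv_memLp [Countable Λ] {c : X → Λ} (hc : Mea c) : MemLp (fun x => cf (E.U (c x))) 2 μ :=
  memLp_bdd (sm_mea hc fun l => cf (E.U l)) fun x => (norm_cf (E.U (c x))).le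

theorem zv_apply [Countable Λ] {c : X → Λ} (hc : Mea c) : ∀ᵐ x ∂μ, zv μ E c x = cf (E.U (c x)) :=
  sv_apply (zv_memLp hc)

theorem norm_zv_le (c : X → Λ) : ‖zv μ E c‖ ≤ 1 :=
  norm_sv_le zero_le_one fun x => (norm_cf (E.U (c x))).le

theorem norm_zv [Countable Λ] {c : X → Λ} (hc : Mea c) : ‖zv μ E c‖ = 1 := by
  have h1 : ‖zv μ E c‖ ^ 2 = 1 := by
    rw [xl_norm_sq]
    have h2 : ∫ x, ‖zv μ E c x‖ ^ 2 ∂μ = ∫ _, (1 : ℝ) ∂μ := by
      refine integral_congr_ae ?_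
      filter_upwards [zv_apply (μ := μ) (E := E) hc] with x hx
      rw [hx, norm_cf, one_pow]
    rw [h2]
    simp
  exact (pow_eq_one_iff_of_nonneg (norm_nonneg _) two_ne_zero).1 h1

/-- The sequence of the functions `x ↦ U_{α_n(x)} δ₁`. -/
noncomputable def ztS (μ : Measure X) [IsProbabilityMeasure μ] (E : Emb Λ G) (α : ℕ → X → Λ) :
    BSeq (XL μ (L2 G)) := ⟨fun n => zv μ E (α n), 1, fun n => norm_zv_le (α n)⟩

theorem ztS_eb (α : ℕ → X → Λ) : EB 1 (ztS μ E α) :=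
  ⟨zero_le_one, fun n => sv_bound zero_le_one fun x => (norm_cf (E.U (α n x))).le⟩

/-- The class of the functions `x ↦ U_{α_n(x)} δ₁`. -/
noncomputable def zt (μ : Measure X) [IsProbabilityMeasure μ] (E : Emb Λ G) (α : ℕ → X → Λ) :
    UE μ (L2 G) := UE.mk (ztS μ E α) (ztS_eb α)

variable [Countable Λ] {α β : ℕ → X → Λ}

theorem norm_zt (hα : ∀ n, Mea (α n)) : ‖zt μ E α‖ = 1 := by
  have h1 := UE.tendsto_norm (ztS μ E α) (ztS_eb α)
  have h2 : (fun n => ‖(ztS μ E α).1 n‖) = fun _ => (1 : ℝ) := funext fun n => norm_zv (hα n)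
  rw [h2] at h1
  exact tendsto_nhds_unique h1 tendsto_const_nhds

/-- The left operators: `f ↦ (x ↦ J U_{α_n(x)}⁻¹ J f)`. -/
noncomputable def zSA (μ : Measure X) [IsProbabilityMeasure μ] (E : Emb Λ G) (α : ℕ → X → Λ) (n : ℕ) :
    L2 G →L[ℂ] XL μ (L2 G) :=
  (fop μ fun x => ((jjU (E.U (α n x))⁻¹).toContinuousLinearEquiv : L2 G →L[ℂ] L2 G)).comp
    (cst μ).toContinuousLinearMap

/-- The right operators: `f ↦ (x ↦ U_{α_n(x)} I f)`. -/
noncomputable def zSB (μ : Measure X) [IsProbabilityMeasure μ] (E : Emb Λ G) (α : ℕ → X → Λ) (n : ℕ) :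
    L2 G →L[ℂ] XL μ (L2 G) :=
  (fop μ fun x => ((E.U (α n x) * ivU G).toContinuousLinearEquiv : L2 G →L[ℂ] L2 G)).comp
    (cst μ).toContinuousLinearMap

theorem fm_A (hα : ∀ n, Mea (α n)) (n : ℕ) :
    FM 1 fun x => ((jjU (E.U (α n x))⁻¹).toContinuousLinearEquiv : L2 G →L[ℂ] L2 G) :=
  FM.mea (hα n) (w := fun l => ((jjU (E.U l)⁻¹).toContinuousLinearEquiv : L2 G →L[ℂ] L2 G)) zero_le_one
    fun l v => by
      rw [one_mul]
      exact (LinearIsometryEquiv.norm_map (jjU (E.U l)⁻¹) v).le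

theorem fm_B (hα : ∀ n, Mea (α n)) (n : ℕ) :
    FM 1 fun x => ((E.U (α n x) * ivU G).toContinuousLinearEquiv : L2 G →L[ℂ] L2 G) :=
  FM.mea (hα n) (w := fun l => ((E.U l * ivU G).toContinuousLinearEquiv : L2 G →L[ℂ] L2 G)) zero_le_one
    fun l v => by
      rw [one_mul]
      exact (LinearIsometryEquiv.norm_map (E.U l * ivU G) v).le

theorem zSA_apply (hα : ∀ n, Mea (α n)) (n : ℕ) (f : L2 G) :
    ∀ᵐ x ∂μ, zSA μ E α n f x = jjU (E.U (α n x))⁻¹ f := by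
  filter_upwards [fop_apply (fm_A (E := E) hα n) (cst μ f), cst_apply (μ := μ) f] with x h1 h2
  change fop μ _ (cst μ f) x = _
  rw [h1, h2]
  rfl

theorem zSB_apply (hα : ∀ n, Mea (α n)) (n : ℕ) (f : L2 G) :
    ∀ᵐ x ∂μ, zSB μ E α n f x = E.U (α n x) (ivU G f) := by
  filter_upwards [fop_apply (fm_B (E := E) hα n) (cst μ f), cst_apply (μ := μ) f] with x h1 h2
  change fop μ _ (cst μ f) x = _
  rw [h1, h2]
  rfl

theorem so_A (hα : ∀ n, Mea (α n)) : SO 1 (zSA μ E α) := by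
  refine ⟨zero_le_one, fun n f => ?_⟩
  filter_upwards [zSA_apply (μ := μ) (E := E) hα n f] with x hx
  rw [hx, LinearIsometryEquiv.norm_map, one_mul]

theorem so_B (hα : ∀ n, Mea (α n)) : SO 1 (zSB μ E α) := by
  refine ⟨zero_le_one, fun n f => ?_⟩
  filter_upwards [zSB_apply (μ := μ) (E := E) hα n f] with x hx
  rw [hx, LinearIsometryEquiv.norm_map, LinearIsometryEquiv.norm_map, one_mul]

/-- The left representation on `UE μ (L2 G)`. -/
noncomputable abbrev AE (μ : Measure X) (G : Type) [Group G] : G →* (UE μ (L2 G) ≃ₗᵢ[ℂ] UE μ (L2 G)) :=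
  UE.rep μ (lamR G)

/-- The right representation on `UE μ (L2 G)`. -/
noncomputable abbrev BE (μ : Measure X) (G : Type) [Group G] : G →* (UE μ (L2 G) ≃ₗᵢ[ℂ] UE μ (L2 G)) :=
  UE.rep μ (rhoR G)

theorem sop_A_dl (hα : ∀ n, Mea (α n)) (g : G) : sop (zSA μ E α) (dl g) = AE μ G g (zt μ E α) := by
  rw [sop_apply (so_A hα), UE.rep_apply]
  unfold zt
  rw [UE.map_mk]
  refine UE.mk_congr _ _ fun n => ?_
  filter_upwards [zSA_apply (μ := μ) (E := E) hα n (dl g), zv_apply (μ := μ) (E := E) (hα n),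
    cl_apply (μ := μ) ((lamR G g).toContinuousLinearEquiv : L2 G →L[ℂ] L2 G) (zv μ E (α n))] with x h1 h2 h3
  change zSA μ E α n (dl g) x = cl μ _ (zv μ E (α n)) x
  rw [h1, h3, h2]
  exact jj_dl (E.comm _) g

theorem sop_B_dl (hα : ∀ n, Mea (α n)) (g : G) : sop (zSB μ E α) (dl g) = BE μ G g (zt μ E α) := by
  rw [sop_apply (so_B hα), UE.rep_apply]
  unfold zt
  rw [UE.map_mk]
  refine UE.mk_congr _ _ fun n => ?_
  filter_upwards [zSB_apply (μ := μ) (E := E) hα n (dl g), zv_apply (μ := μ) (E := E) (hα n),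
    cl_apply (μ := μ) ((rhoR G g).toContinuousLinearEquiv : L2 G →L[ℂ] L2 G) (zv μ E (α n))] with x h1 h2 h3
  change zSB μ E α n (dl g) x = cl μ _ (zv μ E (α n)) x
  rw [h1, h3, h2]
  change E.U (α n x) (ivU G (dl g)) = rhoU g (E.U (α n x) (dl 1))
  rw [← E.comm, rhoU_dl, one_mul]
  congr 1
  exact permU_dl _ _

omit [Group G] in
theorem norm_sum_dl (s : Finset G) (a : G → ℂ) :
    ‖∑ g ∈ s, a g • (dl g : L2 G)‖ ^ 2 = ∑ g ∈ s, ‖a g‖ ^ 2 := by
  classical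
  have h0 : Orthonormal ℂ (fun g : G => (dl g : L2 G)) := by
    rw [orthonormal_iff_ite]
    intro i j
    rw [inner_dl_left, dl_apply]
  have h1 := h0.inner_sum a a s
  rw [norm_sq_eq_re_inner (𝕜 := ℂ), h1, map_sum]
  refine Finset.sum_congr rfl fun g _ => ?_
  rw [Complex.conj_mul']
  change (((‖a g‖ : ℂ) ^ 2)).re = _
  rw [← Complex.ofReal_pow, Complex.ofReal_re]

/-- Boundedness of the projections of `ζ`. -/
private theorem bdd_P {A : G →* (UE μ (L2 G) ≃ₗᵢ[ℂ] UE μ (L2 G))} {ζ : UE μ (L2 G)}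
    {S : ℕ → (L2 G →L[ℂ] XL μ (L2 G))} (hS : SO 1 S) (hT : ∀ g, sop S (dl g) = A g ζ)
    {D : ℕ → Set X} (hD : ∀ n, MeasurableSet (D n))
    (hAD : ∀ g ξ, A g (UE.P μ (L2 G) D ξ) = UE.P μ (L2 G) D (A g ξ)) {δ : ℝ} (hδ : 0 ≤ δ)
    (h : ∀ n, μ.real (D n) ≤ δ ^ 2) : Bdd A δ (UE.P μ (L2 G) D ζ) := by
  refine ⟨hδ, fun s a => ?_⟩
  have e : ∑ g ∈ s, a g • A g (UE.P μ (L2 G) D ζ) =
      UE.P μ (L2 G) D (sop S (∑ g ∈ s, a g • (dl g : L2 G))) := by
    rw [map_sum, map_sum]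
    refine Finset.sum_congr rfl fun g _ => ?_
    rw [map_smul, map_smul, hT, hAD]
  rw [e, ← norm_sum_dl s a, ← mul_pow]
  refine pow_le_pow_left₀ (norm_nonneg _) ?_ 2
  rw [sop_apply hS]
  refine (UE.norm_P_small hD (hS.eb _) hδ h).trans ?_
  rw [one_mul, mul_comm]

theorem rep_P {G' : Type} [Group G'] (A : G' →* (L2 G ≃ₗᵢ[ℂ] L2 G)) {D : ℕ → Set X}
    (hD : ∀ n, MeasurableSet (D n)) (g : G') (ξ : UE μ (L2 G)) :
    UE.rep μ A g (UE.P μ (L2 G) D ξ) = UE.P μ (L2 G) D (UE.rep μ A g ξ) := by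
  rw [UE.rep_apply, UE.rep_apply, UE.map_P _ hD]

theorem bdd_A_P (hα : ∀ n, Mea (α n)) {D : ℕ → Set X} (hD : ∀ n, MeasurableSet (D n)) {δ : ℝ}
    (hδ : 0 ≤ δ) (h : ∀ n, μ.real (D n) ≤ δ ^ 2) : Bdd (AE μ G) δ (UE.P μ (L2 G) D (zt μ E α)) :=
  bdd_P (so_A hα) (sop_A_dl hα) hD (rep_P _ hD) hδ h

theorem bdd_B_P (hα : ∀ n, Mea (α n)) {D : ℕ → Set X} (hD : ∀ n, MeasurableSet (D n)) {δ : ℝ}
    (hδ : 0 ≤ δ) (h : ∀ n, μ.real (D n) ≤ δ ^ 2) : Bdd (BE μ G) δ (UE.P μ (L2 G) D (zt μ E α)) :=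
  bdd_P (so_B hα) (sop_B_dl hα) hD (rep_P _ hD) hδ h

theorem UE.P_univ (ξ : UE μ (L2 G)) : UE.P μ (L2 G) (fun _ => Set.univ) ξ = ξ := by
  refine UE.eq ?_
  rw [UE.val_P fun _ => MeasurableSet.univ, uxP_univ]

theorem bdd_A (hα : ∀ n, Mea (α n)) : Bdd (AE μ G) 1 (zt μ E α) := by
  have h := bdd_A_P (μ := μ) (E := E) hα (D := fun _ => Set.univ) (fun _ => MeasurableSet.univ)
    zero_le_one (fun _ => by simp)
  rwa [UE.P_univ] at h

theorem bdd_B (hα : ∀ n, Mea (α n)) : Bdd (BE μ G) 1 (zt μ E α) := by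
  have h := bdd_B_P (μ := μ) (E := E) hα (D := fun _ => Set.univ) (fun _ => MeasurableSet.univ)
    zero_le_one (fun _ => by simp)
  rwa [UE.P_univ] at h

omit [Countable Λ] in
theorem Mea.const_mul {c : X → Λ} (hc : Mea c) (l : Λ) : Mea fun x => l * c x := by
  intro k
  have h : ((fun x => l * c x) ⁻¹' {k} : Set X) = c ⁻¹' {l⁻¹ * k} := by
    ext x
    simp only [Set.mem_preimage, Set.mem_singleton_iff]
    exact ⟨fun h1 => by rw [← h1, inv_mul_cancel_left], fun h1 => by rw [h1, mul_inv_cancel_left]⟩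
  rw [h]
  exact hc _

omit [Countable Λ] in
theorem Mea.mul_const {c : X → Λ} (hc : Mea c) (l : Λ) : Mea fun x => c x * l := by
  intro k
  have h : ((fun x => c x * l) ⁻¹' {k} : Set X) = c ⁻¹' {k * l⁻¹} := by
    ext x
    simp only [Set.mem_preimage, Set.mem_singleton_iff]
    exact ⟨fun h1 => by rw [← h1, mul_inv_cancel_right], fun h1 => by rw [h1, inv_mul_cancel_right]⟩
  rw [h]
  exact hc _

/-- The left action of `Λ`. -/
theorem ext_A_zt (hα : ∀ n, Mea (α n)) (l : Λ) :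
    ext (AE μ G) E l (zt μ E α) = zt μ E fun n x => l * α n x := by
  rw [ext_kop E l (bdd_A hα) (sop_A_dl hα), sop_apply (so_A hα)]
  unfold zt
  refine UE.mk_congr _ _ fun n => ?_
  filter_upwards [zSA_apply (μ := μ) (E := E) hα n (cf (E.U l)),
    zv_apply (μ := μ) (E := E) (Mea.const_mul (hα n) l)] with x h1 h2
  change zSA μ E α n (cf (E.U l)) x = zv μ E (fun x => l * α n x) x
  rw [h1, h2, map_mul]
  change jjU (E.U (α n x))⁻¹ (E.U l (dl 1)) = E.U l (cf (E.U (α n x)))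
  rw [jj_comm (E.comm l) (commR_inv (E.comm _)), jj_dl (E.comm _), lamU_one]
  rfl

theorem iv_cj (l : Λ) : ivU G (cjU (E.U l) (dl 1)) = E.U l⁻¹ (dl 1) := by
  have h2 : jjU (E.U l⁻¹)⁻¹ (dl 1) = lamU 1 (cf (E.U l⁻¹)) := jj_dl (E.comm l⁻¹) 1
  have h3 : (ivU G (dl 1) : L2 G) = dl 1 := by
    have h4 : (ivU G (dl 1) : L2 G) = dl (1⁻¹) := permU_dl _ _
    rw [h4, inv_one]
  rw [jjU_apply, h3, lamU_one, ← map_inv, inv_inv] at h2
  exact h2

/-- The right action of `Λ`. -/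
theorem ext_B_zt (hα : ∀ n, Mea (α n)) (l : Λ) :
    ext (BE μ G) E.conj l (zt μ E α) = zt μ E fun n x => α n x * l⁻¹ := by
  rw [ext_kop E.conj l (bdd_B hα) (sop_B_dl hα), sop_apply (so_B hα)]
  unfold zt
  refine UE.mk_congr _ _ fun n => ?_
  filter_upwards [zSB_apply (μ := μ) (E := E) hα n (cf (E.conj.U l)),
    zv_apply (μ := μ) (E := E) (Mea.mul_const (hα n) l⁻¹)] with x h1 h2
  change zSB μ E α n (cf (E.conj.U l)) x = zv μ E (fun x => α n x * l⁻¹) x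
  rw [h1, h2, map_mul]
  change E.U (α n x) (ivU G (cjU (E.U l) (dl 1))) = E.U (α n x) (cf (E.U l⁻¹))
  rw [iv_cj]
  rfl

/-- Vectors which agree on `D`. -/
theorem P_zt_congr (hα : ∀ n, Mea (α n)) (hβ : ∀ n, Mea (β n)) {D : ℕ → Set X}
    (hD : ∀ n, MeasurableSet (D n)) (h : ∀ n, ∀ x ∈ D n, α n x = β n x) :
    UE.P μ (L2 G) D (zt μ E α) = UE.P μ (L2 G) D (zt μ E β) := by
  refine UE.eq ?_
  rw [UE.val_P hD, UE.val_P hD]
  unfold zt
  rw [UE.val_mk, UE.val_mk]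
  unfold uxP ux
  rw [mapS_mk (BMS.ind hD).bo, mapS_mk (BMS.ind hD).bo]
  refine congrArg UP.mk (Subtype.ext (funext fun n => xl_ext ?_))
  change ∀ᵐ x ∂μ, mx μ (L2 G) ((D n).indicator fun _ => (1 : ℂ)) (zv μ E (α n)) x =
    mx μ (L2 G) ((D n).indicator fun _ => (1 : ℂ)) (zv μ E (β n)) x
  filter_upwards [mx_apply (BM.ind (hD n)) (zv μ E (α n)), mx_apply (BM.ind (hD n)) (zv μ E (β n)),
    zv_apply (μ := μ) (E := E) (hα n), zv_apply (μ := μ) (E := E) (hβ n)] with x h1 h2 h3 h4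
  rw [h1, h2, h3, h4]
  by_cases hx : x ∈ D n
  · rw [h n x hx]
  · rw [Set.indicator_of_notMem hx, zero_smul, zero_smul]

end Zt

end Pool.Agent.Helper66.FR
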